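import Pool.Agent.Work.MP_170125_pr.L1

/-!
The rank four algebra of the free group of rank two over `ℤ[x,y,z]` and trace polynomials.
-/

open MvPolynomial Matrix

namespace Pool.Agent.TracePoly

/-- the ring `ℤ[x,y,z]` -/
abbrev R3 := MvPolynomial (Fin 3) ℤ

/-- the matrix ring -/
abbrev M4 := Matrix (Fin 4) (Fin 4) R3

/-- left multiplication by `a` -/
noncomputable def LA : M4 :=
  !![0, -1, 0, 0; 1, X 0, 0, 0; 0, 0, 0, -1; 0, 0, 1, X 0]

/-- left multiplication by `a⁻¹` -/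
noncomputable def LA' : M4 :=
  !![X 0, 1, 0, 0; -1, 0, 0, 0; 0, 0, X 0, 1; 0, 0, -1, 0]

/-- left multiplication by `b` -/
noncomputable def LB : M4 :=
  !![0, X 2 - X 0 * X 1, -1, -X 0; 0, X 1, 0, 1; 1, X 0, X 1, X 2; 0, -1, 0, 0]

/-- left multiplication by `b⁻¹` -/
noncomputable def LB' : M4 :=
  !![X 1, X 0 * X 1 - X 2, 1, X 0; 0, 0, 0, -1; -1, -X 0, 0, -X 2; 0, 1, 0, X 1]

lemma LA_mul_LA' : LA * LA' = 1 := by
  apply Matrix.ext
  intro i j
  fin_cases i <;> fin_cases j <;> simp [LA, LA', Matrix.mul_apply, Fin.sum_univ_four]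

lemma LA'_mul_LA : LA' * LA = 1 := by
  apply Matrix.ext
  intro i j
  fin_cases i <;> fin_cases j <;> simp [LA, LA', Matrix.mul_apply, Fin.sum_univ_four]

lemma LB_mul_LB' : LB * LB' = 1 := by
  apply Matrix.ext
  intro i j
  fin_cases i <;> fin_cases j <;> simp [LB, LB', Matrix.mul_apply, Fin.sum_univ_four] <;>
    ring

lemma LB'_mul_LB : LB' * LB = 1 := by
  apply Matrix.ext
  intro i j
  fin_cases i <;> fin_cases j <;> simp [LB, LB', Matrix.mul_apply, Fin.sum_univ_four] <;>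
    ring

/-- `a` as a unit -/
noncomputable def uA : M4ˣ := ⟨LA, LA', LA_mul_LA', LA'_mul_LA⟩
/-- `b` as a unit -/
noncomputable def uB : M4ˣ := ⟨LB, LB', LB_mul_LB', LB'_mul_LB⟩

/-- the left regular representation -/
noncomputable def rho : FreeGroup (Fin 2) →* M4ˣ := FreeGroup.lift ![uA, uB]

/-- the matrix of a letter -/
noncomputable def letterM (s : Fin 2 × Bool) : M4 :=
  if s.1 = 0 then (if s.2 then LA else LA') else (if s.2 then LB else LB')

/-- the matrix of a word -/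
noncomputable def wordM (w : List (Fin 2 × Bool)) : M4 := (rho (FreeGroup.mk w) : M4)

@[simp] lemma wordM_nil : wordM [] = 1 := by
  simp [wordM, ← FreeGroup.one_eq_mk]

lemma wordM_append (u v : List (Fin 2 × Bool)) : wordM (u ++ v) = wordM u * wordM v := by
  simp [wordM, ← FreeGroup.mul_mk]

lemma wordM_singleton (s : Fin 2 × Bool) : wordM [s] = letterM s := by
  obtain ⟨i, b⟩ := s
  unfold wordM rho letterM
  rw [FreeGroup.lift_mk]
  fin_cases i <;> cases b <;> simp [uA, uB]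

lemma wordM_cons (s : Fin 2 × Bool) (w : List (Fin 2 × Bool)) :
    wordM (s :: w) = letterM s * wordM w := by
  rw [← wordM_singleton, ← wordM_append]
  rfl

section Rep

variable {S 𝒜 : Type*} [CommRing S] [Ring 𝒜] [Algebra S 𝒜] (ev : R3 →+* S) (A B : 𝒜ˣ)

/-- the four basis elements -/
def basE : Fin 4 → 𝒜 := ![1, (A : 𝒜), (B : 𝒜), (A : 𝒜) * (B : 𝒜)]

/-- the evaluation of a word -/
def evalW (w : List (Fin 2 × Bool)) : 𝒜ˣ := FreeGroup.lift ![A, B] (FreeGroup.mk w)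

lemma evalW_nil : evalW A B [] = 1 := by
  simp [evalW, ← FreeGroup.one_eq_mk]

lemma evalW_append (u v : List (Fin 2 × Bool)) :
    evalW A B (u ++ v) = evalW A B u * evalW A B v := by
  simp [evalW, ← FreeGroup.mul_mk]

lemma evalW_cons (s : Fin 2 × Bool) (w : List (Fin 2 × Bool)) :
    evalW A B (s :: w) = evalW A B [s] * evalW A B w := by
  rw [← evalW_append]; rfl

/-- the relations defining a representation with given traces -/
structure IsRep : Prop where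
  hA : (A : 𝒜) + ((A⁻¹ : 𝒜ˣ) : 𝒜) = algebraMap S 𝒜 (ev (X 0))
  hB : (B : 𝒜) + ((B⁻¹ : 𝒜ˣ) : 𝒜) = algebraMap S 𝒜 (ev (X 1))
  hAB : (A : 𝒜) * (B : 𝒜) + (((A * B)⁻¹ : 𝒜ˣ) : 𝒜) = algebraMap S 𝒜 (ev (X 2))

variable {ev A B}

lemma IsRep.invA (h : IsRep ev A B) : ((A⁻¹ : 𝒜ˣ) : 𝒜) = ev (X 0) • (1 : 𝒜) - (A : 𝒜) := by
  rw [← Algebra.algebraMap_eq_smul_one, ← h.hA]; abel

lemma IsRep.invB (h : IsRep ev A B) : ((B⁻¹ : 𝒜ˣ) : 𝒜) = ev (X 1) • (1 : 𝒜) - (B : 𝒜) := by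
  rw [← Algebra.algebraMap_eq_smul_one, ← h.hB]; abel

lemma IsRep.sqA (h : IsRep ev A B) : (A : 𝒜) * A = ev (X 0) • (A : 𝒜) - 1 := by
  have h1 : (A : 𝒜) * ((A⁻¹ : 𝒜ˣ) : 𝒜) = 1 := A.mul_inv
  rw [h.invA, mul_sub, mul_smul_comm, mul_one] at h1
  rw [← h1]; abel

lemma IsRep.sqB (h : IsRep ev A B) : (B : 𝒜) * B = ev (X 1) • (B : 𝒜) - 1 := by
  have h1 : (B : 𝒜) * ((B⁻¹ : 𝒜ˣ) : 𝒜) = 1 := B.mul_inv
  rw [h.invB, mul_sub, mul_smul_comm, mul_one] at h1
  rw [← h1]; abel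

lemma IsRep.BA (h : IsRep ev A B) : (B : 𝒜) * A =
    (ev (X 2) - ev (X 0) * ev (X 1)) • (1 : 𝒜) + ev (X 1) • (A : 𝒜) + ev (X 0) • (B : 𝒜)
      - (A : 𝒜) * B := by
  have h1 : (((A * B)⁻¹ : 𝒜ˣ) : 𝒜) = ((B⁻¹ : 𝒜ˣ) : 𝒜) * ((A⁻¹ : 𝒜ˣ) : 𝒜) := by
    rw [_root_.mul_inv_rev]; rfl
  have h2 := h.hAB
  rw [h1, h.invA, h.invB, Algebra.algebraMap_eq_smul_one] at h2
  rw [sub_mul, mul_sub, mul_sub, smul_mul_assoc, smul_mul_assoc, one_mul, one_mul,
    mul_smul_comm, mul_one] at h2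
  rw [sub_smul, ← h2, smul_smul, mul_comm (ev (X 0)) (ev (X 1))]
  abel

lemma IsRep.letter (h : IsRep ev A B) (s : Fin 2 × Bool) (j : Fin 4) :
    (evalW A B [s] : 𝒜) * basE A B j = ∑ i, ev (letterM s i j) • basE A B i := by
  have e1 : (evalW A B [((0 : Fin 2), true)] : 𝒜) = A := by simp [evalW]
  have e2 : (evalW A B [((0 : Fin 2), false)] : 𝒜) = ((A⁻¹ : 𝒜ˣ) : 𝒜) := by simp [evalW]
  have e3 : (evalW A B [((1 : Fin 2), true)] : 𝒜) = B := by simp [evalW]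
  have e4 : (evalW A B [((1 : Fin 2), false)] : 𝒜) = ((B⁻¹ : 𝒜ˣ) : 𝒜) := by simp [evalW]
  have hAB3 : (A : 𝒜) * ((A : 𝒜) * B) = ev (X 0) • ((A : 𝒜) * B) - B := by
    rw [← mul_assoc, h.sqA, sub_mul, smul_mul_assoc, one_mul]
  have hB3 : (B : 𝒜) * ((A : 𝒜) * B) = - (ev (X 0) • (1 : 𝒜)) + A + ev (X 2) • (B : 𝒜) := by
    rw [← mul_assoc, h.BA, sub_mul, add_mul, add_mul, smul_mul_assoc, smul_mul_assoc,
      smul_mul_assoc, one_mul, mul_assoc, h.sqB, mul_sub, mul_smul_comm, mul_one, smul_sub,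
      smul_smul, sub_smul]
    abel
  obtain ⟨i, b⟩ := s
  fin_cases i <;> cases b
  · show (evalW A B [((0 : Fin 2), false)] : 𝒜) * basE A B j = _
    rw [e2, h.invA, sub_mul, smul_mul_assoc, one_mul]
    fin_cases j <;>
      simp [basE, letterM, LA', Fin.sum_univ_four, h.sqA, hAB3, sub_eq_add_neg]
  · show (evalW A B [((0 : Fin 2), true)] : 𝒜) * basE A B j = _
    rw [e1]
    fin_cases j <;>
      simp [basE, letterM, LA, Fin.sum_univ_four, h.sqA, hAB3]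
    · abel
    · abel
  · show (evalW A B [((1 : Fin 2), false)] : 𝒜) * basE A B j = _
    rw [e4, h.invB, sub_mul, smul_mul_assoc, one_mul]
    fin_cases j <;>
      simp [basE, letterM, LB', Fin.sum_univ_four, h.sqB, h.BA, hB3, sub_smul]
    all_goals abel
  · show (evalW A B [((1 : Fin 2), true)] : 𝒜) * basE A B j = _
    rw [e3]
    fin_cases j <;>
      simp [basE, letterM, LB, Fin.sum_univ_four, h.sqB, h.BA, hB3, sub_smul]
    all_goals abel

theorem IsRep.word (h : IsRep ev A B) (w : List (Fin 2 × Bool)) (j : Fin 4) :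
    (evalW A B w : 𝒜) * basE A B j = ∑ i, ev (wordM w i j) • basE A B i := by
  induction w generalizing j with
  | nil =>
    rw [evalW_nil, wordM_nil]
    simp [Matrix.one_apply]
  | cons s w ih =>
    rw [evalW_cons, Units.val_mul, mul_assoc, ih, Finset.mul_sum]
    simp_rw [mul_smul_comm, h.letter, Finset.smul_sum, smul_smul]
    rw [Finset.sum_comm]
    apply Finset.sum_congr rfl
    intro k _
    rw [wordM_cons, Matrix.mul_apply, map_sum, Finset.sum_smul]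
    apply Finset.sum_congr rfl
    intro i _
    rw [map_mul, mul_comm]

end Rep

end Pool.Agent.TracePoly
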