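import Mathlib

/-!
# Commuting elements of a free group
-/

namespace Pool.Agent.TracePoly

open FreeGroup

/-- Powers of a nontrivial element of a free group have large norm. -/
theorem le_norm_pow {α : Type*} [DecidableEq α] {h : FreeGroup α} (hh : h ≠ 1) (n : ℕ) :
    n ≤ (h ^ n).norm := by
  rcases Nat.eq_zero_or_pos n with rfl | hn
  · exact Nat.zero_le _
  have key : ∀ k : ℕ, (h ^ (k + 1)).toWord = reduceCyclically.conjugator h.toWord ++
      (List.replicate (k + 1) (reduceCyclically h.toWord)).flatten ++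
        invRev (reduceCyclically.conjugator h.toWord) := by
    intro k
    rw [toWord_pow, reduceCyclically.reduce_flatten_replicate_succ isReduced_toWord]
  have hne : reduceCyclically h.toWord ≠ [] := by
    intro he
    have h1 := key 0
    have h2 := key 1
    rw [he] at h1 h2
    have h3 : (h ^ (0 + 1)).toWord = (h ^ (1 + 1)).toWord := by rw [h1, h2]; simp
    have h4 := toWord_injective h3
    apply hh
    have h5 : h * 1 = h * h := by simpa [pow_two] using h4
    exact (mul_left_cancel h5).symm
  have hpos : 1 ≤ (reduceCyclically h.toWord).length := List.length_pos_iff.2 hne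
  obtain ⟨k, rfl⟩ : ∃ k, n = k + 1 := ⟨n - 1, by omega⟩
  rw [FreeGroup.norm, key k]
  simp only [List.length_append, List.length_flatten, List.map_replicate, List.sum_replicate,
    smul_eq_mul]
  nlinarith

theorem natAbs_le_norm_zpow {α : Type*} [DecidableEq α] {h : FreeGroup α} (hh : h ≠ 1) (j : ℤ) :
    j.natAbs ≤ (h ^ j).norm := by
  obtain ⟨n, rfl | rfl⟩ := j.eq_nat_or_neg
  · simpa using le_norm_pow hh n
  · simpa using le_norm_pow hh n

/-- A commutative subgroup of a free group is cyclic. -/
theorem exists_generator {α : Type*} (H : Subgroup (FreeGroup α))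
    (hH : ∀ x ∈ H, ∀ y ∈ H, x * y = y * x) : ∃ h : FreeGroup α, ∀ x ∈ H, ∃ j : ℤ, x = h ^ j := by
  let e := IsFreeGroup.toFreeGroup H
  have hsub : Subsingleton (IsFreeGroup.Generators H) := by
    constructor
    intro x y
    by_contra hxy
    have h1 : FreeGroup.of x * FreeGroup.of y = FreeGroup.of y * FreeGroup.of x := by
      have h2 : e.symm (FreeGroup.of x) * e.symm (FreeGroup.of y) =
          e.symm (FreeGroup.of y) * e.symm (FreeGroup.of x) :=
        Subtype.ext (hH _ (e.symm (FreeGroup.of x)).2 _ (e.symm (FreeGroup.of y)).2)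
      rw [← _root_.map_mul, ← _root_.map_mul] at h2
      exact e.symm.injective h2
    classical
    have h3 := congrArg FreeGroup.toWord h1
    simp [FreeGroup.of, FreeGroup.toWord, hxy] at h3
  have hcyc : ∃ g : FreeGroup (IsFreeGroup.Generators H), ∀ x, ∃ j : ℤ, x = g ^ j := by
    rcases isEmpty_or_nonempty (IsFreeGroup.Generators H) with hE | hN
    · exact ⟨1, fun x => ⟨0, Subsingleton.elim _ _⟩⟩
    · obtain ⟨d⟩ := hN
      have : Unique (IsFreeGroup.Generators H) := ⟨⟨d⟩, fun a => Subsingleton.elim _ _⟩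
      obtain ⟨g, hg⟩ := IsCyclic.exists_generator (α := FreeGroup (IsFreeGroup.Generators H))
      exact ⟨g, fun x => by obtain ⟨j, hj⟩ := hg x; exact ⟨j, hj.symm⟩⟩
  obtain ⟨g, hg⟩ := hcyc
  refine ⟨(e.symm g : H), fun x hx => ?_⟩
  obtain ⟨j, hj⟩ := hg (e ⟨x, hx⟩)
  refine ⟨j, ?_⟩
  have h1 : (⟨x, hx⟩ : H) = e.symm g ^ j := by
    rw [← map_zpow, ← hj, MulEquiv.symm_apply_apply]
  exact congrArg Subtype.val h1

theorem commuting_card {α : Type*} [DecidableEq α] (S : Finset (FreeGroup α)) (R : ℕ)
    (hcomm : ∀ g ∈ S, ∀ h ∈ S, g * h = h * g) (hR : ∀ g ∈ S, g.norm ≤ R) :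
    S.card ≤ 2 * R + 1 := by
  have hH : ∀ x ∈ Subgroup.closure (S : Set (FreeGroup α)),
      ∀ y ∈ Subgroup.closure (S : Set (FreeGroup α)), x * y = y * x := by
    intro x hx y hy
    induction hx, hy using Subgroup.closure_induction₂ with
    | mem x y hx hy => exact hcomm x hx y hy
    | one_left => simp
    | one_right => simp
    | mul_left x y z _ _ _ h1 h2 => rw [mul_assoc, h2, ← mul_assoc, h1, mul_assoc]
    | mul_right x y z _ _ _ h1 h2 => rw [← mul_assoc, h1, mul_assoc, h2, mul_assoc]
    | inv_left x y _ _ h1 => exact (Commute.inv_left h1 : _)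
    | inv_right x y _ _ h1 => exact (Commute.inv_right h1 : _)
  obtain ⟨h, hh⟩ := exists_generator _ hH
  have hS : ∀ x ∈ S, ∃ j : ℤ, x = h ^ j := fun x hx => hh x (Subgroup.subset_closure hx)
  by_cases h1 : h = 1
  · have : S.card ≤ 1 := by
      rw [Finset.card_le_one]
      intro x hx y hy
      obtain ⟨j, hj⟩ := hS x hx
      obtain ⟨k, hk⟩ := hS y hy
      rw [hj, hk, h1]; simp
    omega
  · have hsub : S ⊆ (Finset.Icc (-(R : ℤ)) R).image (fun j => h ^ j) := by
      intro x hx
      obtain ⟨j, hj⟩ := hS x hx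
      refine Finset.mem_image.2 ⟨j, ?_, hj.symm⟩
      have h2 := natAbs_le_norm_zpow h1 j
      rw [← hj] at h2
      have h3 := hR x hx
      rw [Finset.mem_Icc]
      omega
    refine (Finset.card_le_card hsub).trans (Finset.card_image_le.trans ?_)
    rw [Int.card_Icc]
    omega

end Pool.Agent.TracePoly
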