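import Pool.Agent.Work.MP_170125_pr.Rate

/-!
Almost sure convergence for a good law.
-/

open MeasureTheory Filter Topology

namespace Pool.Agent.TracePoly

universe u

section Conv

variable {μ : List (Fin 2 × Bool) → ℝ} {C0 ρ κ : ℝ}

lemma wordFrom_length {α Ω : Type*} (s : ℕ → Ω → α) (i n : ℕ) (ω : Ω) :
    (wordFrom s i n ω).length = n := by
  simp [wordFrom]

open Classical in
lemma prob_le {Ω : Type u} [MeasurableSpace Ω] (P : Measure Ω) [IsProbabilityMeasure P]
    (s : ℕ → Ω → Fin 2 × Bool)
    (hlaw : ∀ w : List (Fin 2 × Bool), P.real {ω | wordFrom s 0 w.length ω = w} = μ w)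
    (n : ℕ) (E : List (Fin 2 × Bool) → Prop) :
    P.real {ω | E (wordFrom s 0 n ω)} ≤ wsum n (fun w => if E w then μ w else 0) := by
  have hsub : {ω | E (wordFrom s 0 n ω)} ⊆
      ⋃ w ∈ (wordsF n : Finset (List (Fin 2 × Bool))).filter E,
        {ω | wordFrom s 0 w.length ω = w} := by
    intro ω hω
    simp only [Set.mem_iUnion, Finset.mem_filter, exists_prop]
    refine ⟨wordFrom s 0 n ω, ⟨(mem_wordsF _ _).mpr (wordFrom_length s 0 n ω), hω⟩, ?_⟩
    show wordFrom s 0 (wordFrom s 0 n ω).length ω = wordFrom s 0 n ω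
    rw [wordFrom_length]
  refine (measureReal_mono hsub (measure_ne_top P _)).trans ?_
  refine (measureReal_biUnion_finset_le _ _).trans ?_
  rw [wsum_eq_sum, Finset.sum_filter]
  apply Finset.sum_le_sum
  intro w _
  by_cases hw : E w
  · rw [if_pos hw, if_pos hw, hlaw]
  · rw [if_neg hw, if_neg hw]

theorem GoodLaw.exists_rate (h : GoodLaw μ C0 ρ κ) :
    ∃ γ : ℝ, ∀ (Ω : Type u) [MeasurableSpace Ω] (P : Measure Ω) [IsProbabilityMeasure P]
      (s : ℕ → Ω → Fin 2 × Bool), (∀ n, Measurable (s n)) →
      (∀ w : List (Fin 2 × Bool), P.real {ω | wordFrom s 0 w.length ω = w} = μ w) →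
      ∀ᵐ ω ∂P, Tendsto (fun n : ℕ => Real.log (l1 (trP (wordFrom s 0 n ω))) / n) atTop (𝓝 γ) ∧
        Tendsto (fun n : ℕ => Real.log (height (trP (wordFrom s 0 n ω))) / n) atTop (𝓝 γ) := by
  classical
  obtain ⟨γ, hγ⟩ := kingman.{u} μ h.nonneg h.nil h.right h.left C0 ρ h.hC0 h.hρ0 h.hρ h.mix
    Xf (Real.log 11) (Real.log_nonneg (by norm_num)) Xf_nonneg Xf_le Xf_sub Xf_inv
  refine ⟨γ, ?_⟩
  intro Ω _ P _ s hs hlaw
  have hX := hγ Ω P s hs hlaw
  -- Borel-Cantelli
  have hbad : ∀ᵐ ω ∂P, ∀ᶠ n : ℕ in atTop, ¬ Bad n (wordFrom s 0 n ω) := by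
    obtain ⟨C, hC0', hC⟩ := sqrt_bound h.hκ0 h.hκ
    set A : ℝ := (1 + C0) * (1 + C0) * C with hA
    have hK : 0 ≤ 1 + C0 := by have := h.hC0; linarith
    have hA0 : 0 ≤ A := by positivity
    have hpn : ∀ n : ℕ, 4 ≤ n → P.real {ω | Bad n (wordFrom s 0 n ω)} ≤ A / (n : ℝ) ^ 2 := by
      intro n hn
      refine (prob_le P s hlaw n (Bad n)).trans ((h.bad_wsum hn).trans ?_)
      have h1 := hC n hn
      calc (1 + C0) * ((1 + C0) * Real.sqrt (κ ^ Nat.sqrt n * (4 * Nat.sqrt n + 2)))
          ≤ (1 + C0) * ((1 + C0) * (C / (n : ℝ) ^ 2)) := by gcongr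
        _ = A / (n : ℝ) ^ 2 := by rw [hA]; ring
    have hsum : Summable (fun n : ℕ => A / (n : ℝ) ^ 2 + (if n < 4 then (1 : ℝ) else 0)) := by
      apply Summable.add
      · have := (Real.summable_nat_pow_inv (p := 2)).mpr (by norm_num)
        simpa [div_eq_mul_inv] using this.mul_left A
      · apply summable_of_finite_support
        apply (Set.finite_lt_nat 4).subset
        intro n hn
        simp only [Function.mem_support] at hn
        by_contra hc
        apply hn
        rw [if_neg]
        exact hc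
    have hle : ∀ n : ℕ, P {ω | Bad n (wordFrom s 0 n ω)} ≤
        ENNReal.ofReal (A / (n : ℝ) ^ 2 + (if n < 4 then (1 : ℝ) else 0)) := by
      intro n
      rw [← ENNReal.ofReal_toReal (measure_ne_top P _)]
      apply ENNReal.ofReal_le_ofReal
      by_cases hn : n < 4
      · rw [if_pos hn]
        have h1 : P.real {ω | Bad n (wordFrom s 0 n ω)} ≤ 1 := measureReal_le_one
        have h2 : 0 ≤ A / (n : ℝ) ^ 2 := by positivity
        have h3 : (P {ω | Bad n (wordFrom s 0 n ω)}).toReal ≤ 1 := h1
        linarith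
      · rw [if_neg hn, add_zero]
        exact hpn n (by omega)
    have hfin : ∑' n : ℕ, P {ω | Bad n (wordFrom s 0 n ω)} ≠ ⊤ := by
      apply ne_top_of_le_ne_top _ (ENNReal.tsum_le_tsum hle)
      exact hsum.tsum_ofReal_ne_top
    have := ae_eventually_notMem hfin
    exact this
  filter_upwards [hX, hbad] with ω hω1 hω2
  set W : ℕ → List (Fin 2 × Bool) := fun n => wordFrom s 0 n ω with hW
  have hWl : ∀ n, (W n).length = n := fun n => wordFrom_length s 0 n ω
  have hlog : Tendsto (fun n : ℕ => Real.log (l1 (trP (W n))) / n) atTop (𝓝 γ) := by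
    have hlow : Tendsto (fun n : ℕ => Xf (W n) / n - Real.log (Theta n) / n) atTop (𝓝 γ) := by
      simpa using hω1.sub tendsto_log_Theta
    have hup : Tendsto (fun n : ℕ => Real.log 2 / n + Xf (W n) / n) atTop (𝓝 γ) := by
      have h1 : Tendsto (fun n : ℕ => Real.log 2 / (n : ℝ)) atTop (𝓝 0) :=
        tendsto_const_div_atTop_nhds_zero_nat _
      simpa using h1.add hω1
    apply tendsto_of_tendsto_of_tendsto_of_le_of_le' hlow hup
    · filter_upwards [hω2] with n hn
      rw [← sub_div]
      apply div_le_div_of_nonneg_right _ (Nat.cast_nonneg n)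
      unfold Bad at hn
      push Not at hn
      have hT : 0 < Theta n := lt_of_lt_of_le zero_lt_one (one_le_Theta n)
      have h1 : 0 < l1 (trP (W n)) := by
        by_contra hc
        have h2 : l1 (trP (W n)) = 0 := le_antisymm (not_lt.mp hc) (l1_nonneg _)
        have h3 := nrm_pos (W n)
        rw [h2, mul_zero] at hn
        linarith
      have h4 : Xf (W n) ≤ Real.log (Theta n) + Real.log (l1 (trP (W n))) := by
        rw [← Real.log_mul hT.ne' h1.ne']
        exact Real.log_le_log (nrm_pos _) hn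
      linarith
    · filter_upwards [hω2] with n hn
      rw [← add_div]
      apply div_le_div_of_nonneg_right _ (Nat.cast_nonneg n)
      unfold Bad at hn
      push Not at hn
      have h1 : 0 < l1 (trP (W n)) := by
        by_contra hc
        have h2 : l1 (trP (W n)) = 0 := le_antisymm (not_lt.mp hc) (l1_nonneg _)
        have h3 := nrm_pos (W n)
        rw [h2, mul_zero] at hn
        linarith
      unfold Xf
      rw [← Real.log_mul (by norm_num) (nrm_pos _).ne']
      exact Real.log_le_log h1 (l1_trP_le _)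
  refine ⟨hlog, ?_⟩
  -- heights
  have hlow : Tendsto (fun n : ℕ => Real.log (l1 (trP (W n))) / n -
      3 * (Real.log ((n + 2 : ℕ) : ℝ) / n)) atTop (𝓝 γ) := by
    have h1 : Tendsto (fun n : ℕ => Real.log ((n + 2 : ℕ) : ℝ) / n) atTop (𝓝 0) := by
      have h2 : Tendsto (fun x : ℝ => Real.log x / (1 * x + (-2))) atTop (𝓝 0) :=
        Real.tendsto_pow_log_div_mul_add_atTop 1 (-2) 1 one_ne_zero |>.congr (by
          intro x; rw [pow_one])
      have h3 : Tendsto (fun n : ℕ => ((n + 2 : ℕ) : ℝ)) atTop atTop :=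
        tendsto_natCast_atTop_atTop.comp (tendsto_add_atTop_nat 2)
      refine (h2.comp h3).congr ?_
      intro n
      simp only [Function.comp]
      congr 1
      push_cast; ring
    simpa using hlog.sub (h1.const_mul 3)
  apply tendsto_of_tendsto_of_tendsto_of_le_of_le' hlow hlog
  · filter_upwards [hω2] with n hn
    have hT : 0 < Theta n := lt_of_lt_of_le zero_lt_one (one_le_Theta n)
    unfold Bad at hn
    push Not at hn
    have h1 : 0 < l1 (trP (W n)) := by
      by_contra hc
      have h2 : l1 (trP (W n)) = 0 := le_antisymm (not_lt.mp hc) (l1_nonneg _)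
      have h3 := nrm_pos (W n)
      rw [h2, mul_zero] at hn
      linarith
    have h2 := l1_trP_le_height (W n)
    rw [hWl] at h2
    have h3 : 0 < height (trP (W n)) := by
      by_contra hc
      have h4 : height (trP (W n)) = 0 := le_antisymm (not_lt.mp hc) (height_nonneg _)
      rw [h4, mul_zero] at h2
      linarith
    have h5 : (0 : ℝ) < ((n + 2 : ℕ) : ℝ) := by positivity
    have h6 : Real.log (l1 (trP (W n))) ≤
        3 * Real.log ((n + 2 : ℕ) : ℝ) + Real.log (height (trP (W n))) := by
      have h7 := Real.log_le_log h1 h2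
      rw [Real.log_mul (by positivity) h3.ne', Real.log_pow] at h7
      exact_mod_cast h7
    rw [mul_div_assoc', ← sub_div]
    apply div_le_div_of_nonneg_right _ (Nat.cast_nonneg n)
    linarith
  · filter_upwards [hω2] with n hn
    apply div_le_div_of_nonneg_right _ (Nat.cast_nonneg n)
    unfold Bad at hn
    push Not at hn
    have h1 : 0 < l1 (trP (W n)) := by
      by_contra hc
      have h2 : l1 (trP (W n)) = 0 := le_antisymm (not_lt.mp hc) (l1_nonneg _)
      have h3 := nrm_pos (W n)
      rw [h2, mul_zero] at hn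
      linarith
    have h2 := l1_trP_le_height (W n)
    rw [hWl] at h2
    have h3 : 0 < height (trP (W n)) := by
      by_contra hc
      have h4 : height (trP (W n)) = 0 := le_antisymm (not_lt.mp hc) (height_nonneg _)
      rw [h4, mul_zero] at h2
      linarith
    exact Real.log_le_log h3 (height_le_l1 _)

end Conv

end Pool.Agent.TracePoly
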