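import Mathlib

/-!
# Division bound for polynomials on the torus (helper88, for MP_170125_pr)
-/

set_option autoImplicit false

namespace Pool.Agent.TracePoly

open Finset Polynomial

namespace DivB

/-- the `ℓ¹` norm of the coefficients up to `N` -/
noncomputable def L (N : ℕ) (p : ℂ[X]) : ℝ := ∑ i ∈ range (N + 1), ‖p.coeff i‖

lemma L_nonneg (N : ℕ) (p : ℂ[X]) : 0 ≤ L N p := Finset.sum_nonneg fun _ _ => norm_nonneg _

lemma coeff_le_L {N : ℕ} {p : ℂ[X]} (hp : p.natDegree ≤ N) (i : ℕ) : ‖p.coeff i‖ ≤ L N p := by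
  by_cases hi : i ≤ N
  · exact Finset.single_le_sum (f := fun i => ‖p.coeff i‖) (fun _ _ => norm_nonneg _)
      (mem_range.2 (by omega))
  · rw [Polynomial.coeff_eq_zero_of_natDegree_lt (by omega), norm_zero]
    exact L_nonneg N p

lemma coeff_mul_X_sub_C_succ (p : ℂ[X]) (a : ℂ) (j : ℕ) :
    (p * (X - C a)).coeff (j + 1) = p.coeff j - a * p.coeff (j + 1) := by
  rw [mul_sub, coeff_sub, coeff_mul_X, coeff_mul_C]; ring

lemma coeff_mul_X_sub_C_zero (p : ℂ[X]) (a : ℂ) :
    (p * (X - C a)).coeff 0 = - (a * p.coeff 0) := by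
  rw [mul_sub, coeff_sub, mul_coeff_zero, coeff_mul_C]; simp; ring

lemma coeff_le_L_mul {N : ℕ} {p : ℂ[X]} (hp : p.natDegree + 1 ≤ N) (a : ℂ) (i : ℕ) :
    ‖p.coeff i‖ ≤ L N (p * (X - C a)) := by
  rcases le_total ‖a‖ 1 with ha | ha
  · have key : ∀ k i : ℕ, N ≤ i + k →
        ‖p.coeff i‖ ≤ ∑ j ∈ Ico (i + 1) (N + 1), ‖(p * (X - C a)).coeff j‖ := by
      intro k
      induction k with
      | zero =>
        intro i hi
        rw [Polynomial.coeff_eq_zero_of_natDegree_lt (by omega), norm_zero]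
        exact Finset.sum_nonneg fun _ _ => norm_nonneg _
      | succ k ih =>
        intro i hi
        by_cases hiN : N ≤ i
        · rw [Polynomial.coeff_eq_zero_of_natDegree_lt (by omega), norm_zero]
          exact Finset.sum_nonneg fun _ _ => norm_nonneg _
        · rw [Finset.sum_eq_sum_Ico_succ_bot (by omega : i + 1 < N + 1)]
          have h1 := ih (i + 1) (by omega)
          have h2 : p.coeff i = (p * (X - C a)).coeff (i + 1) + a * p.coeff (i + 1) := by
            rw [coeff_mul_X_sub_C_succ]; ring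
          calc ‖p.coeff i‖ ≤ ‖(p * (X - C a)).coeff (i + 1)‖ + ‖a * p.coeff (i + 1)‖ := by
                rw [h2]; exact norm_add_le _ _
            _ ≤ ‖(p * (X - C a)).coeff (i + 1)‖ + ‖p.coeff (i + 1)‖ := by
                rw [norm_mul]
                have := mul_le_of_le_one_left (norm_nonneg (p.coeff (i + 1))) ha
                linarith
            _ ≤ _ := by linarith
    refine (key N i (by omega)).trans ?_
    unfold L
    apply Finset.sum_le_sum_of_subset_of_nonneg
    · intro j hj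
      rw [mem_Ico] at hj; rw [mem_range]; omega
    · intro _ _ _; exact norm_nonneg _
  · have key : ∀ i : ℕ, ‖p.coeff i‖ ≤ ∑ j ∈ range (i + 1), ‖(p * (X - C a)).coeff j‖ := by
      intro i
      induction i with
      | zero =>
        rw [zero_add, Finset.sum_range_one, coeff_mul_X_sub_C_zero, norm_neg, norm_mul]
        exact le_mul_of_one_le_left (norm_nonneg _) ha
      | succ i ih =>
        rw [Finset.sum_range_succ]
        have h2 : a * p.coeff (i + 1) = p.coeff i - (p * (X - C a)).coeff (i + 1) := by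
          rw [coeff_mul_X_sub_C_succ]; ring
        calc ‖p.coeff (i + 1)‖ ≤ ‖a‖ * ‖p.coeff (i + 1)‖ :=
              le_mul_of_one_le_left (norm_nonneg _) ha
          _ = ‖p.coeff i - (p * (X - C a)).coeff (i + 1)‖ := by rw [← norm_mul, h2]
          _ ≤ ‖p.coeff i‖ + ‖(p * (X - C a)).coeff (i + 1)‖ := norm_sub_le _ _
          _ ≤ _ := by linarith
    by_cases hi : i ≤ N
    · refine (key i).trans ?_
      unfold L
      apply Finset.sum_le_sum_of_subset_of_nonneg
      · intro j hj
        rw [mem_range] at hj ⊢; omega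
      · intro _ _ _; exact norm_nonneg _
    · rw [Polynomial.coeff_eq_zero_of_natDegree_lt (by omega), norm_zero]
      exact L_nonneg _ _

lemma L_le_mul {N : ℕ} {p : ℂ[X]} (hp : p.natDegree + 1 ≤ N) (a : ℂ) :
    L N p ≤ (N + 1 : ℝ) * L N (p * (X - C a)) := by
  calc L N p ≤ ∑ i ∈ range (N + 1), L N (p * (X - C a)) :=
        Finset.sum_le_sum fun i _ => coeff_le_L_mul hp a i
    _ = (N + 1 : ℝ) * L N (p * (X - C a)) := by
        rw [Finset.sum_const, card_range, nsmul_eq_mul]; push_cast; ring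

lemma L_le_prod {N : ℕ} (s : Multiset ℂ) : ∀ p : ℂ[X], p.natDegree + s.card ≤ N →
    L N p ≤ (N + 1 : ℝ) ^ s.card * L N (p * (s.map fun a => X - C a).prod) := by
  induction s using Multiset.induction_on with
  | empty => intro p _; simp
  | cons a s ih =>
    intro p hp
    rw [Multiset.card_cons] at hp ⊢
    rw [Multiset.map_cons, Multiset.prod_cons, ← mul_assoc]
    have h1 : (p * (X - C a)).natDegree ≤ p.natDegree + 1 := by
      refine natDegree_mul_le.trans ?_
      rw [natDegree_X_sub_C]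
    have h2 := ih (p * (X - C a)) (by omega)
    have h3 := L_le_mul (N := N) (p := p) (by omega) a
    calc L N p ≤ (N + 1 : ℝ) * L N (p * (X - C a)) := h3
      _ ≤ (N + 1 : ℝ) * ((N + 1 : ℝ) ^ s.card *
          L N (p * (X - C a) * (s.map fun a => X - C a).prod)) := by
          apply mul_le_mul_of_nonneg_left h2 (by positivity)
      _ = _ := by ring

lemma L_smul (N : ℕ) (c : ℂ) (p : ℂ[X]) : L N (C c * p) = ‖c‖ * L N p := by
  simp [L, Finset.mul_sum]

/-- coefficients are bounded by the supremum on the unit circle -/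
lemma coeff_le_sup {N : ℕ} {f : ℂ[X]} (hf : f.natDegree ≤ N) {B : ℝ}
    (hB : ∀ z : ℂ, ‖z‖ = 1 → ‖f.eval z‖ ≤ B) (j : ℕ) : ‖f.coeff j‖ ≤ B := by
  have hB0 : 0 ≤ B := (norm_nonneg _).trans (hB 1 (by simp))
  by_cases hj : j ≤ N
  swap
  · rw [Polynomial.coeff_eq_zero_of_natDegree_lt (by omega), norm_zero]; exact hB0
  have hM0 : (N + 1) ≠ 0 := by omega
  obtain ⟨ζ, hζ⟩ : ∃ ζ : ℂ, IsPrimitiveRoot ζ (N + 1) := ⟨_, Complex.isPrimitiveRoot_exp _ hM0⟩
  have hnorm : ∀ k : ℕ, ‖ζ ^ k‖ = 1 := by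
    intro k
    rw [norm_pow, hζ.norm'_eq_one hM0, one_pow]
  have hne : ζ ≠ 0 := hζ.ne_zero hM0
  have key : ∑ k ∈ range (N + 1), f.eval (ζ ^ k) * ((ζ ^ j)⁻¹) ^ k = (N + 1 : ℂ) * f.coeff j := by
    have h1 : ∀ k ∈ range (N + 1), f.eval (ζ ^ k) * ((ζ ^ j)⁻¹) ^ k =
        ∑ i ∈ range (N + 1), f.coeff i * (ζ ^ i * (ζ ^ j)⁻¹) ^ k := by
      intro k _
      rw [eval_eq_sum_range' (n := N + 1) (by omega), Finset.sum_mul]
      apply Finset.sum_congr rfl
      intro i _
      rw [mul_pow, ← pow_mul, ← pow_mul, mul_comm k i]; ring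
    rw [Finset.sum_congr rfl h1, Finset.sum_comm, Finset.sum_eq_single j]
    · have : ζ ^ j * (ζ ^ j)⁻¹ = 1 := mul_inv_cancel₀ (pow_ne_zero _ hne)
      simp only [this, one_pow, mul_one, Finset.sum_const, card_range, nsmul_eq_mul]
      push_cast; ring
    · intro i hi hij
      rw [← Finset.mul_sum]
      have hw : ζ ^ i * (ζ ^ j)⁻¹ ≠ 1 := by
        intro h
        have h2 : ζ ^ i = ζ ^ j := by
          have := congrArg (· * ζ ^ j) h
          simpa [mul_assoc, inv_mul_cancel₀ (pow_ne_zero j hne)] using this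
        exact hij (hζ.pow_inj (mem_range.1 hi) (by omega) h2)
      have hwM : (ζ ^ i * (ζ ^ j)⁻¹) ^ (N + 1) = 1 := by
        rw [mul_pow, inv_pow, ← pow_mul, ← pow_mul, mul_comm i, mul_comm j, pow_mul, pow_mul,
          hζ.pow_eq_one]; simp
      have hg := geom_sum_mul (ζ ^ i * (ζ ^ j)⁻¹) (N + 1)
      rw [hwM, sub_self, mul_eq_zero] at hg
      rcases hg with hg | hg
      · rw [hg, mul_zero]
      · exact absurd (sub_eq_zero.1 hg) hw
    · intro h; exact absurd (mem_range.2 (by omega)) h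
  have h2 : ‖(N + 1 : ℂ) * f.coeff j‖ ≤ (N + 1 : ℝ) * B := by
    rw [← key]
    refine (norm_sum_le _ _).trans ?_
    calc ∑ k ∈ range (N + 1), ‖f.eval (ζ ^ k) * ((ζ ^ j)⁻¹) ^ k‖ ≤ ∑ k ∈ range (N + 1), B := by
          apply Finset.sum_le_sum
          intro k _
          rw [norm_mul, norm_pow, norm_inv, hnorm, inv_one, one_pow, mul_one]
          exact hB _ (hnorm k)
      _ = (N + 1 : ℝ) * B := by rw [Finset.sum_const, card_range, nsmul_eq_mul]; push_cast; ring
  rw [norm_mul] at h2
  have h3 : ‖(N + 1 : ℂ)‖ = (N + 1 : ℝ) := by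
    have : (N + 1 : ℂ) = ((N + 1 : ℕ) : ℂ) := by push_cast; ring
    rw [this, Complex.norm_natCast]; push_cast; ring
  rw [h3] at h2
  exact le_of_mul_le_mul_left h2 (by positivity)

/-- the one-variable division bound -/
lemma one_var {N : ℕ} (p q : ℂ[X]) (hdeg : p.natDegree + q.natDegree ≤ N) {B : ℝ}
    (hB : ∀ z : ℂ, ‖z‖ = 1 → ‖(p * q).eval z‖ ≤ B) (i : ℕ) :
    ‖p.coeff i‖ * ‖q.leadingCoeff‖ ≤ (N + 1 : ℝ) ^ (q.natDegree + 1) * B := by
  have hsplit := IsAlgClosed.splits q
  have hcard : q.roots.card = q.natDegree := hsplit.natDegree_eq_card_roots.symm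
  have hfac : q = C q.leadingCoeff * (q.roots.map fun a => X - C a).prod :=
    hsplit.eq_prod_roots
  have h1 := L_le_prod (N := N) q.roots p (by rw [hcard]; exact hdeg)
  rw [hcard] at h1
  have h2 : L N (p * q) = ‖q.leadingCoeff‖ * L N (p * (q.roots.map fun a => X - C a).prod) := by
    conv_lhs => rw [hfac]
    rw [← L_smul]; congr 1; ring
  have h3 : L N (p * q) ≤ (N + 1 : ℝ) * B := by
    calc L N (p * q) ≤ ∑ i ∈ range (N + 1), B :=
          Finset.sum_le_sum fun i _ => coeff_le_sup (natDegree_mul_le.trans hdeg) hB i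
      _ = _ := by rw [Finset.sum_const, card_range, nsmul_eq_mul]; push_cast; ring
  calc ‖p.coeff i‖ * ‖q.leadingCoeff‖ ≤ L N p * ‖q.leadingCoeff‖ := by
        apply mul_le_mul_of_nonneg_right (coeff_le_L (by omega) i) (norm_nonneg _)
    _ ≤ ((N + 1 : ℝ) ^ q.natDegree * L N (p * (q.roots.map fun a => X - C a).prod)) *
        ‖q.leadingCoeff‖ := mul_le_mul_of_nonneg_right h1 (norm_nonneg _)
    _ = (N + 1 : ℝ) ^ q.natDegree * L N (p * q) := by rw [h2]; ring
    _ ≤ (N + 1 : ℝ) ^ q.natDegree * ((N + 1 : ℝ) * B) :=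
        mul_le_mul_of_nonneg_left h3 (by positivity)
    _ = _ := by ring

end DivB

open DivB

theorem division_bound (n N d : ℕ) (D : MvPolynomial (Fin n) ℂ) (hD : D ≠ 0)
    (hd : ∀ i, D.degreeOf i ≤ d) :
    ∃ β : Fin n →₀ ℕ, D.coeff β ≠ 0 ∧
      ∀ P : MvPolynomial (Fin n) ℂ, (∀ i, P.degreeOf i + D.degreeOf i ≤ N) →
        ∀ B : ℝ, (∀ z : Fin n → ℂ, (∀ i, ‖z i‖ = 1) → ‖MvPolynomial.eval z (P * D)‖ ≤ B) →
          ∀ α : Fin n →₀ ℕ, ‖P.coeff α‖ * ‖D.coeff β‖ ≤ (((N + 1 : ℕ) : ℝ) ^ (d + 1)) ^ n * B := by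
  induction n with
  | zero =>
    refine ⟨0, ?_, ?_⟩
    · intro h
      apply hD
      rw [MvPolynomial.eq_C_of_isEmpty D, h, MvPolynomial.C_0]
    · intro P _ B hB α
      have hα : α = 0 := Subsingleton.elim _ _
      subst hα
      have := hB (fun _ => 1) (by simp)
      rw [MvPolynomial.eq_C_of_isEmpty D, MvPolynomial.eq_C_of_isEmpty P, map_mul,
        MvPolynomial.eval_C, MvPolynomial.eval_C, norm_mul] at this
      simpa using this
  | succ n ih =>
    set D' := MvPolynomial.finSuccEquiv ℂ n D with hD'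
    have hD'0 : D' ≠ 0 := by
      rw [hD']; exact (AddEquivClass.map_ne_zero_iff).2 hD
    obtain ⟨β', hβ', hmain⟩ := ih D'.leadingCoeff (leadingCoeff_ne_zero.2 hD'0) (by
      intro i
      exact (MvPolynomial.degreeOf_coeff_finSuccEquiv D i _).trans (hd _))
    have hm : D'.natDegree = D.degreeOf 0 := MvPolynomial.natDegree_finSuccEquiv D
    have hcoeff : D.coeff (β'.cons D'.natDegree) = D'.leadingCoeff.coeff β' := by
      rw [← MvPolynomial.finSuccEquiv_coeff_coeff]; rfl
    refine ⟨β'.cons D'.natDegree, by rw [hcoeff]; exact hβ', ?_⟩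
    intro P hP B hB α
    have hB0 : 0 ≤ B := (norm_nonneg _).trans (hB (fun _ => 1) (by simp))
    set P' := MvPolynomial.finSuccEquiv ℂ n P with hP'
    have hα : P.coeff α = (P'.coeff (α 0)).coeff α.tail := by
      rw [hP', MvPolynomial.finSuccEquiv_coeff_coeff, Finsupp.cons_tail]
    rw [hα, hcoeff]
    have hN1 : (0 : ℝ) ≤ ((N + 1 : ℕ) : ℝ) ^ (d + 1) := by positivity
    have := hmain (P'.coeff (α 0)) (by
      intro i
      have h1 : MvPolynomial.degreeOf i (P'.coeff (α 0)) ≤ MvPolynomial.degreeOf i.succ P :=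
        MvPolynomial.degreeOf_coeff_finSuccEquiv P i (α 0)
      have h2 := MvPolynomial.degreeOf_coeff_finSuccEquiv D i D'.natDegree
      have h3 := hP i.succ
      have h4 : MvPolynomial.degreeOf i D'.leadingCoeff ≤ MvPolynomial.degreeOf i.succ D := h2
      omega) (((N + 1 : ℕ) : ℝ) ^ (d + 1) * B) (by
      intro z hz
      rw [map_mul, norm_mul]
      by_cases hz0 : MvPolynomial.eval z D'.leadingCoeff = 0
      · rw [hz0, norm_zero, mul_zero]
        positivity
      · set p := P'.map (MvPolynomial.eval z) with hp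
        set q := D'.map (MvPolynomial.eval z) with hq
        have hqd : q.natDegree = D'.natDegree := natDegree_map_of_leadingCoeff_ne_zero _ hz0
        have hql : q.leadingCoeff = MvPolynomial.eval z D'.leadingCoeff :=
          leadingCoeff_map_of_leadingCoeff_ne_zero _ hz0
        have hq0 : q ≠ 0 := by
          intro h; rw [h, leadingCoeff_zero] at hql; exact hz0 hql.symm
        have hpd : p.natDegree ≤ P.degreeOf 0 := by
          rw [← MvPolynomial.natDegree_finSuccEquiv]; exact natDegree_map_le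
        have hone := one_var (N := N) p q (by
          rw [hqd, hm]; exact (Nat.add_le_add_right hpd _).trans (hP 0)) (B := B) (by
          intro y hy
          have h5 := hB (Fin.cons y z) (by
            intro i
            refine Fin.cases ?_ (fun i => ?_) i
            · simpa using hy
            · simpa using hz i)
          rw [MvPolynomial.eval_eq_eval_mv_eval', map_mul, Polynomial.map_mul] at h5
          exact h5) (α 0)
        rw [hql, hp, coeff_map] at hone
        refine hone.trans ?_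
        push_cast
        apply mul_le_mul_of_nonneg_right _ hB0
        apply pow_le_pow_right₀ (by linarith [(Nat.cast_nonneg N : (0 : ℝ) ≤ N)])
        rw [hqd, hm]; have := hd 0; omega) α.tail
    refine this.trans (le_of_eq ?_)
    rw [pow_succ]; ring

end Pool.Agent.TracePoly
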