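import Pool.Agent.Work.MP_170125_pr.Trace
import Pool.Agent.Work.MP_170125_pr.Division

/-!
Cramer's rule and the division lemma: if four prefixes are independent, one of the four trace
polynomials is almost as large as the norm of the word.
-/

open MvPolynomial Matrix

namespace Pool.Agent.TracePoly

lemma l1_le_of_mul (P D : R3) (hD : D ≠ 0) (d N : ℕ) (hd : ∀ i, degreeOf i D ≤ d)
    (hN : ∀ i, degreeOf i P + degreeOf i D ≤ N) :
    l1 P ≤ ((N + 1 : ℕ) : ℝ) ^ 3 * ((((N + 1 : ℕ) : ℝ) ^ (d + 1)) ^ 3 * l1 (P * D)) := by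
  classical
  have hinj : Function.Injective (Int.castRingHom ℂ) := RingHom.injective_int _
  set D' : MvPolynomial (Fin 3) ℂ := MvPolynomial.map (Int.castRingHom ℂ) D with hD'
  set P' : MvPolynomial (Fin 3) ℂ := MvPolynomial.map (Int.castRingHom ℂ) P with hP'
  have hdeg : ∀ (Q : R3) (i : Fin 3),
      degreeOf i (MvPolynomial.map (Int.castRingHom ℂ) Q) = degreeOf i Q := by
    intro Q i
    simp only [degreeOf_def]
    rw [degrees_map_of_injective _ hinj]
  have hD0 : D' ≠ 0 := by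
    intro h
    apply hD
    apply MvPolynomial.map_injective _ hinj
    rw [map_zero]; exact h
  obtain ⟨β, hβ, hmain⟩ := division_bound 3 N d D' hD0 (fun i => by rw [hD', hdeg]; exact hd i)
  have hB : ∀ z : Fin 3 → ℂ, (∀ i, ‖z i‖ = 1) → ‖MvPolynomial.eval z (P' * D')‖ ≤ l1 (P * D) := by
    intro z hz
    have := norm_eval_le_l1 (P * D) z hz
    rw [map_mul] at this
    exact this
  have h1 := hmain P' (fun i => by rw [hP', hD', hdeg, hdeg]; exact hN i) _ hB
  have hβ1 : 1 ≤ ‖D'.coeff β‖ := by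
    rw [hD', coeff_map] at hβ ⊢
    have h2 : D.coeff β ≠ 0 := by
      intro h; rw [h] at hβ; simp at hβ
    simp only [eq_intCast, Complex.norm_intCast]
    rw [← Int.cast_abs]
    exact_mod_cast Int.one_le_abs h2
  have h2 : ∀ α, |((P.coeff α : ℤ) : ℝ)| ≤
      (((N + 1 : ℕ) : ℝ) ^ (d + 1)) ^ 3 * l1 (P * D) := by
    intro α
    refine le_trans ?_ (h1 α)
    have h3 : ‖P'.coeff α‖ = |((P.coeff α : ℤ) : ℝ)| := by
      rw [hP', coeff_map]; simp [Complex.norm_intCast]
    rw [h3]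
    nlinarith [abs_nonneg ((P.coeff α : ℤ) : ℝ)]
  have h4 : l1 P ≤ P.support.card * ((((N + 1 : ℕ) : ℝ) ^ (d + 1)) ^ 3 * l1 (P * D)) := by
    unfold l1
    refine (Finset.sum_le_card_nsmul _ _ _ (fun m _ => h2 m)).trans ?_
    rw [nsmul_eq_mul]
    rfl
  refine h4.trans ?_
  apply mul_le_mul_of_nonneg_right
  · have := card_support_le P N (fun i => (Nat.le_add_right _ _).trans (hN i))
    exact_mod_cast this
  · have := l1_nonneg (P * D)
    positivity

lemma l1_det_le (M : Matrix (Fin 4) (Fin 4) R3) (B : ℝ) (hB : ∀ i j, l1 (M i j) ≤ B) :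
    l1 M.det ≤ 24 * B ^ 4 := by
  classical
  rw [Matrix.det_apply]
  refine (l1_sum_le _ _).trans ?_
  have h1 : ∀ σ : Equiv.Perm (Fin 4), l1 (Equiv.Perm.sign σ • ∏ i, M (σ i) i) ≤ B ^ 4 := by
    intro σ
    have h2 : l1 (Equiv.Perm.sign σ • ∏ i, M (σ i) i) = l1 (∏ i, M (σ i) i) := by
      rcases Int.units_eq_one_or (Equiv.Perm.sign σ) with h | h
      · rw [h, one_smul]
      · rw [h]
        simp [l1_neg]
    rw [h2]
    simp only [Fin.prod_univ_four]
    have hB0 : 0 ≤ B := (l1_nonneg _).trans (hB 0 0)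
    refine (l1_mul_le _ _).trans ?_
    have e1 := l1_mul_le (M (σ 0) 0 * M (σ 1) 1) (M (σ 2) 2)
    have e2 := l1_mul_le (M (σ 0) 0) (M (σ 1) 1)
    calc l1 (M (σ 0) 0 * M (σ 1) 1 * M (σ 2) 2) * l1 (M (σ 3) 3)
        ≤ ((B * B) * B) * B := by
          apply mul_le_mul _ (hB _ _) (l1_nonneg _) (by positivity)
          refine e1.trans ?_
          apply mul_le_mul _ (hB _ _) (l1_nonneg _) (by positivity)
          refine e2.trans ?_
          exact mul_le_mul (hB _ _) (hB _ _) (l1_nonneg _) hB0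
      _ = B ^ 4 := by ring
  refine (Finset.sum_le_card_nsmul _ _ _ (fun σ _ => h1 σ)).trans ?_
  rw [Finset.card_univ, Fintype.card_perm, Fintype.card_fin]
  simp [Nat.factorial]

/-- the matrix of the four functionals given by four prefixes -/
noncomputable def rowMat (u : Fin 4 → List (Fin 2 × Bool)) : Matrix (Fin 4) (Fin 4) R3 :=
  Matrix.of fun k j => rowP (u k) j

lemma degreeOf_det_le (M : Matrix (Fin 4) (Fin 4) R3) (i : Fin 3) (e : ℕ)
    (h : ∀ k j, degreeOf i (M k j) ≤ e) : degreeOf i M.det ≤ 4 * e := by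
  rw [Matrix.det_apply]
  apply degreeOf_sum_le
  intro σ _
  have h2 : degreeOf i (Equiv.Perm.sign σ • ∏ i, M (σ i) i) = degreeOf i (∏ i, M (σ i) i) := by
    rcases Int.units_eq_one_or (Equiv.Perm.sign σ) with h | h
    · rw [h, one_smul]
    · rw [h]
      simp [degreeOf_neg']
  rw [h2]
  simp only [Fin.prod_univ_four]
  have e1 := degreeOf_mul_le i (M (σ 0) 0 * M (σ 1) 1 * M (σ 2) 2) (M (σ 3) 3)
  have e2 := degreeOf_mul_le i (M (σ 0) 0 * M (σ 1) 1) (M (σ 2) 2)
  have e3 := degreeOf_mul_le i (M (σ 0) 0) (M (σ 1) 1)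
  have := h (σ 0) 0
  have := h (σ 1) 1
  have := h (σ 2) 2
  have := h (σ 3) 3
  omega

theorem cramer_bound (m : ℕ) (u : Fin 4 → List (Fin 2 × Bool)) (hu : ∀ k, (u k).length = m)
    (hD : (rowMat u).det ≠ 0) (v : List (Fin 2 × Bool)) (β : ℝ)
    (hβ : ∀ k, l1 (trP (u k ++ v)) ≤ β) :
    nrm (wordM v) ≤ 484 * (4 * (((v.length + 4 * (m + 1) + 1 : ℕ) : ℝ) ^ 3 *
      ((((v.length + 4 * (m + 1) + 1 : ℕ) : ℝ) ^ (4 * (m + 1) + 1)) ^ 3 *
        (96 * (8 * 11 ^ m) ^ 4 * β)))) := by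
  classical
  set T := rowMat u with hT
  set N := v.length + 4 * (m + 1) with hN
  have hent : ∀ k j, l1 (T k j) ≤ 8 * 11 ^ m := by
    intro k j
    refine (l1_rowP_le (u k) j).trans ?_
    have := nrm_word_le (u k)
    rw [hu k] at this
    linarith
  have h11 : (1 : ℝ) ≤ 8 * 11 ^ m := by
    have : (1 : ℝ) ≤ 11 ^ m := one_le_pow₀ (by norm_num)
    linarith
  have hadj : ∀ j k, l1 (T.adjugate j k) ≤ 24 * (8 * 11 ^ m) ^ 4 := by
    intro j k
    rw [Matrix.adjugate_apply]
    apply l1_det_le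
    intro i l
    rw [Matrix.updateRow_apply]
    split_ifs
    · rw [Pi.single_apply]
      split_ifs
      · simpa using h11
      · simpa using le_trans zero_le_one h11
    · exact hent i l
  have hmul : T.mulVec (fun j => colP v j) = fun k => trP (u k ++ v) := by
    funext k
    rw [trP_append]
    rfl
  have hcr : ∀ j, colP v j * T.det = ∑ k, T.adjugate j k * trP (u k ++ v) := by
    intro j
    have h1 : T.adjugate.mulVec (T.mulVec (fun j => colP v j)) =
        T.det • (fun j => colP v j) := by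
      rw [Matrix.mulVec_mulVec, Matrix.adjugate_mul, Matrix.smul_mulVec, Matrix.one_mulVec]
    rw [hmul] at h1
    have h2 := congrFun h1 j
    simp only [Pi.smul_apply, smul_eq_mul] at h2
    rw [mul_comm, ← h2]
    rfl
  have hl : ∀ j, l1 (colP v j * T.det) ≤ 96 * (8 * 11 ^ m) ^ 4 * β := by
    intro j
    rw [hcr j]
    refine (l1_sum_le _ _).trans ?_
    have h1 : ∀ k, l1 (T.adjugate j k * trP (u k ++ v)) ≤ 24 * (8 * 11 ^ m) ^ 4 * β := by
      intro k
      refine (l1_mul_le _ _).trans ?_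
      exact mul_le_mul (hadj j k) (hβ k) (l1_nonneg _) (by positivity)
    refine (Finset.sum_le_card_nsmul _ _ _ (fun k _ => h1 k)).trans ?_
    simp
    linarith
  have hdd : ∀ i, degreeOf i T.det ≤ 4 * (m + 1) := by
    intro i
    apply degreeOf_det_le
    intro k j
    have := degreeOf_rowP (u k) i j
    rw [hu k] at this
    exact this
  have hcol : ∀ j, l1 (colP v j) ≤ ((N + 1 : ℕ) : ℝ) ^ 3 *
      ((((N + 1 : ℕ) : ℝ) ^ (4 * (m + 1) + 1)) ^ 3 * (96 * (8 * 11 ^ m) ^ 4 * β)) := by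
    intro j
    refine (l1_le_of_mul (colP v j) T.det hD (4 * (m + 1)) N hdd ?_).trans ?_
    · intro i
      have h1 := degreeOf_colP v i j
      have h2 := hdd i
      omega
    · have := hl j
      gcongr
  refine (nrm_le_col v).trans ?_
  apply mul_le_mul_of_nonneg_left _ (by norm_num)
  refine (Finset.sum_le_card_nsmul _ _ _ (fun j _ => hcol j)).trans ?_
  simp

end Pool.Agent.TracePoly
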