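import Mathlib

/-!
# A free pair of unit quaternions
-/

namespace Pool.Agent.TracePoly

open Quaternion

namespace FreeQuat

/-- the quaternion with given components -/
def mkQ {R : Type*} [CommRing R] (p q r s : R) : ℍ[R] := ⟨p, q, r, s⟩

section
variable {R : Type*} [CommRing R] (p q r s : R)
@[simp] theorem mkQ_re : (mkQ p q r s).re = p := rfl
@[simp] theorem mkQ_imI : (mkQ p q r s).imI = q := rfl
@[simp] theorem mkQ_imJ : (mkQ p q r s).imJ = r := rfl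
@[simp] theorem mkQ_imK : (mkQ p q r s).imK = s := rfl

theorem mkQ_mul (p q r s p' q' r' s' : R) : mkQ p q r s * mkQ p' q' r' s' =
    mkQ (p * p' - q * q' - r * r' - s * s') (p * q' + q * p' + r * s' - s * r')
      (p * r' - q * s' + r * p' + s * q') (p * s' + q * r' - r * q' + s * p') := by
  ext <;> simp

theorem mkQ_one : (1 : ℍ[R]) = mkQ 1 0 0 0 := by ext <;> simp

theorem mkQ_add (p q r s p' q' r' s' : R) : mkQ p q r s + mkQ p' q' r' s' =
    mkQ (p + p') (q + q') (r + r') (s + s') := by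
  ext <;> simp

theorem mkQ_sub (p q r s p' q' r' s' : R) : mkQ p q r s - mkQ p' q' r' s' =
    mkQ (p - p') (q - q') (r - r') (s - s') := by
  ext <;> simp

theorem mkQ_natCast (n : ℕ) : ((n : ℕ) : ℍ[R]) = mkQ (n : R) 0 0 0 := by ext <;> simp

theorem mkQ_ofNat (n : ℕ) [n.AtLeastTwo] :
    (OfNat.ofNat n : ℍ[R]) = mkQ (OfNat.ofNat n : R) 0 0 0 := by
  rw [← Nat.cast_ofNat (R := ℍ[R]), mkQ_natCast, Nat.cast_ofNat]

theorem eq_mkQ (q : ℍ[R]) : q = mkQ q.re q.imI q.imJ q.imK := rfl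

end

theorem inv_sq5 : (√5)⁻¹ * (√5)⁻¹ = (1 / 5 : ℝ) := by
  rw [← mul_inv, Real.mul_self_sqrt (by norm_num)]; norm_num

/-- the first generator -/
noncomputable def ua : (ℍ[ℝ])ˣ where
  val := mkQ (√5)⁻¹ (2 * (√5)⁻¹) 0 0
  inv := mkQ (√5)⁻¹ (-(2 * (√5)⁻¹)) 0 0
  val_inv := by
    have h5 := inv_sq5
    rw [mkQ_mul, mkQ_one]
    congr 1
    · linear_combination 5 * h5
    all_goals ring
  inv_val := by
    have h5 := inv_sq5
    rw [mkQ_mul, mkQ_one]
    congr 1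
    · linear_combination 5 * h5
    all_goals ring

/-- the second generator -/
noncomputable def ub : (ℍ[ℝ])ˣ where
  val := mkQ (√5)⁻¹ 0 (2 * (√5)⁻¹) 0
  inv := mkQ (√5)⁻¹ 0 (-(2 * (√5)⁻¹)) 0
  val_inv := by
    have h5 := inv_sq5
    rw [mkQ_mul, mkQ_one]
    congr 1
    · linear_combination 5 * h5
    all_goals ring
  inv_val := by
    have h5 := inv_sq5
    rw [mkQ_mul, mkQ_one]
    congr 1
    · linear_combination 5 * h5
    all_goals ring

/-- integer quaternions as real quaternions -/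
noncomputable def castQ (q : ℍ[ℤ]) : ℍ[ℝ] := mkQ q.re q.imI q.imJ q.imK

theorem castQ_mul (p q : ℍ[ℤ]) : castQ (p * q) = castQ p * castQ q := by
  ext <;> simp [castQ]

theorem castQ_one : castQ 1 = 1 := by
  ext <;> simp [castQ]

/-- the integer quaternion of a letter -/
def lz (x : Fin 2 × Bool) : ℍ[ℤ] :=
  mkQ 1 (if x.1 = 0 then (if x.2 then 2 else -2) else 0)
    (if x.1 = 0 then 0 else (if x.2 then 2 else -2)) 0

/-- the real quaternion of a letter -/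
noncomputable def lr (x : Fin 2 × Bool) : ℍ[ℝ] :=
  ((cond x.2 (![ua, ub] x.1) (![ua, ub] x.1)⁻¹ : (ℍ[ℝ])ˣ) : ℍ[ℝ])

theorem ua_val : (ua : ℍ[ℝ]) = mkQ (√5)⁻¹ (2 * (√5)⁻¹) 0 0 := rfl
theorem ua_inv : ((ua⁻¹ : (ℍ[ℝ])ˣ) : ℍ[ℝ]) = mkQ (√5)⁻¹ (-(2 * (√5)⁻¹)) 0 0 := rfl
theorem ub_val : (ub : ℍ[ℝ]) = mkQ (√5)⁻¹ 0 (2 * (√5)⁻¹) 0 := rfl
theorem ub_inv : ((ub⁻¹ : (ℍ[ℝ])ˣ) : ℍ[ℝ]) = mkQ (√5)⁻¹ 0 (-(2 * (√5)⁻¹)) 0 := rfl

theorem castQ_lz (x : Fin 2 × Bool) : castQ (lz x) = √5 • lr x := by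
  have h0 : √5 ≠ 0 := by positivity
  have h1 : √5 * (√5)⁻¹ = 1 := mul_inv_cancel₀ h0
  have h2 : √5 * (2 * (√5)⁻¹) = 2 := by linear_combination 2 * h1
  obtain ⟨i, e⟩ := x
  fin_cases i <;> cases e
  · change castQ (mkQ 1 (-2) 0 0) = √5 • ((ua⁻¹ : (ℍ[ℝ])ˣ) : ℍ[ℝ])
    rw [ua_inv]; ext <;> simp [castQ, h2]
  · change castQ (mkQ 1 2 0 0) = √5 • (ua : ℍ[ℝ])
    rw [ua_val]; ext <;> simp [castQ, h2]
  · change castQ (mkQ 1 0 (-2) 0) = √5 • ((ub⁻¹ : (ℍ[ℝ])ˣ) : ℍ[ℝ])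
    rw [ub_inv]; ext <;> simp [castQ, h2]
  · change castQ (mkQ 1 0 2 0) = √5 • (ub : ℍ[ℝ])
    rw [ub_val]; ext <;> simp [castQ, h2]

/-- the product of the integer quaternions of a word -/
def Qz (L : List (Fin 2 × Bool)) : ℍ[ℤ] := (L.map lz).prod

theorem Qz_cons (x : Fin 2 × Bool) (L : List (Fin 2 × Bool)) : Qz (x :: L) = lz x * Qz L := by
  simp [Qz]

theorem castQ_Qz (L : List (Fin 2 × Bool)) :
    castQ (Qz L) = (√5 ^ L.length) • (L.map lr).prod := by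
  induction L with
  | nil => simp [Qz, castQ_one]
  | cons x L ih =>
    rw [Qz_cons, castQ_mul, ih, castQ_lz]
    simp [pow_succ, smul_smul, mul_comm]

/-- the inverse letter -/
def linv (x : Fin 2 × Bool) : Fin 2 × Bool := (x.1, !x.2)

theorem lz_inv_mul (x : Fin 2 × Bool) : lz (linv x) * lz x = 5 := by
  rw [mkQ_ofNat]
  obtain ⟨i, e⟩ := x
  fin_cases i <;> cases e <;> simp [lz, linv, mkQ_mul]

theorem comm_five (p q : ℍ[ℤ]) : p * (5 * q) = 5 * (p * q) := by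
  rw [← mul_assoc, ← mul_assoc]
  congr 1
  exact (Nat.cast_commute 5 p).symm

theorem dvd_of_two_mul {q : ℍ[ℤ]} (h : (5 : ℍ[ℤ]) ∣ 2 * q) : (5 : ℍ[ℤ]) ∣ q := by
  obtain ⟨c, hc⟩ := h
  refine ⟨q - 2 * c, ?_⟩
  rw [mul_sub, ← comm_five, ← hc, ← mul_assoc, ← sub_mul]
  norm_num

theorem key_step {x z : Fin 2 × Bool} (hxz : x ≠ z) {q : ℍ[ℤ]} (hx : (5 : ℍ[ℤ]) ∣ lz x * q)
    (hz : (5 : ℍ[ℤ]) ∣ lz z * q) : (5 : ℍ[ℤ]) ∣ q := by
  obtain ⟨A, hA⟩ := hx
  obtain ⟨B, hB⟩ := hz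
  apply dvd_of_two_mul
  have hcases : (lz x + lz z = 2) ∨
      (2 * lz x + 2 * lz z - lz x * lz z - lz z * lz x = 2) := by
    rw [mkQ_ofNat]
    obtain ⟨i, e⟩ := x
    obtain ⟨k, f⟩ := z
    fin_cases i <;> fin_cases k <;> cases e <;> cases f <;>
      first
        | exact absurd rfl hxz
        | (left; simp [lz, mkQ_add]; done)
        | (right; simp [lz, mkQ_mul, mkQ_add, mkQ_sub])
  rcases hcases with h | h
  · refine ⟨A + B, ?_⟩
    rw [← h, add_mul, hA, hB, mul_add]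
  · refine ⟨2 * A + 2 * B - lz x * B - lz z * A, ?_⟩
    have h1 : 2 * q = (2 * lz x + 2 * lz z - lz x * lz z - lz z * lz x) * q := by rw [h]
    rw [h1, sub_mul, sub_mul, add_mul, mul_assoc, mul_assoc, mul_assoc, mul_assoc, hA, hB,
      comm_five, comm_five, comm_five, comm_five]
    simp only [mul_sub, mul_add]

theorem not_dvd (L : List (Fin 2 × Bool)) (x : Fin 2 × Bool) (h : FreeGroup.IsReduced (x :: L)) :
    ¬ (5 : ℍ[ℤ]) ∣ Qz (x :: L) ∧ (5 : ℍ[ℤ]) ∣ lz (linv x) * Qz (x :: L) := by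
  induction L generalizing x with
  | nil =>
    have h1 : Qz [x] = lz x := by simp [Qz]
    rw [h1]
    refine ⟨?_, by rw [lz_inv_mul]⟩
    rintro ⟨c, hc⟩
    have h2 := congrArg (fun q : ℍ[ℤ] => q.re) hc
    rw [mkQ_ofNat] at h2
    simp [lz] at h2
    omega
  | cons y L ih =>
    rw [Qz_cons]
    rw [FreeGroup.isReduced_cons_cons] at h
    obtain ⟨h2, h3⟩ := ih y h.2
    refine ⟨?_, ?_⟩
    · intro h4
      have hne : x ≠ linv y := by
        rintro rfl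
        have h5 := h.1 rfl
        simp [linv] at h5
      exact h2 (key_step hne h4 h3)
    · rw [← mul_assoc, lz_inv_mul]
      exact ⟨_, rfl⟩

theorem not_pm_one (L : List (Fin 2 × Bool)) (hL : FreeGroup.IsReduced L) (ε : ℝ)
    (hε : ε * ε = 1) (h : (L.map lr).prod = mkQ ε 0 0 0) : L = [] := by
  rcases L with _ | ⟨x, L⟩
  · rfl
  exfalso
  have h1 := castQ_Qz (x :: L)
  rw [h] at h1
  obtain ⟨h2, -⟩ := not_dvd L x hL
  apply h2
  set q := Qz (x :: L) with hq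
  have hi : q.imI = 0 := by
    have := congrArg (fun q : ℍ[ℝ] => q.imI) h1
    simpa [castQ] using this
  have hj : q.imJ = 0 := by
    have := congrArg (fun q : ℍ[ℝ] => q.imJ) h1
    simpa [castQ] using this
  have hk : q.imK = 0 := by
    have := congrArg (fun q : ℍ[ℝ] => q.imK) h1
    simpa [castQ] using this
  have hr : (q.re : ℝ) = √5 ^ (x :: L).length * ε := by
    have := congrArg (fun q : ℍ[ℝ] => q.re) h1
    simpa [castQ] using this
  have hr2 : (q.re : ℝ) * q.re = 5 ^ (x :: L).length := by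
    rw [hr]
    have : (√5 ^ (x :: L).length * ε) * (√5 ^ (x :: L).length * ε) =
      (√5 * √5) ^ (x :: L).length * (ε * ε) := by rw [mul_pow]; ring
    rw [this, hε, Real.mul_self_sqrt (by norm_num), mul_one]
  have hr3 : q.re * q.re = 5 ^ (x :: L).length := by exact_mod_cast hr2
  have hr4 : (5 : ℤ) ∣ q.re * q.re := by
    rw [hr3]; exact dvd_pow_self _ (by simp)
  have hr5 : (5 : ℤ) ∣ q.re := by
    have hp : Prime (5 : ℤ) := by norm_num
    rcases hp.dvd_or_dvd hr4 with h | h <;> exact h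
  obtain ⟨c, hc⟩ := hr5
  refine ⟨mkQ c 0 0 0, ?_⟩
  rw [mkQ_ofNat, mkQ_mul, eq_mkQ q, hi, hj, hk, hc]
  simp

end FreeQuat

open FreeQuat

theorem exists_free_quaternions :
    ∃ a b : (ℍ[ℝ])ˣ, Quaternion.normSq (a : ℍ[ℝ]) = 1 ∧ Quaternion.normSq (b : ℍ[ℝ]) = 1 ∧
      LinearIndependent ℝ ![(1 : ℍ[ℝ]), (a : ℍ[ℝ]), (b : ℍ[ℝ]), (a : ℍ[ℝ]) * (b : ℍ[ℝ])] ∧
      ∀ w : FreeGroup (Fin 2), ((FreeGroup.lift ![a, b] w : (ℍ[ℝ])ˣ) : ℍ[ℝ]) = 1 ∨
        ((FreeGroup.lift ![a, b] w : (ℍ[ℝ])ˣ) : ℍ[ℝ]) = -1 → w = 1 := by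
  have h5 := inv_sq5
  have h0 : (√5)⁻¹ ≠ 0 := by positivity
  refine ⟨ua, ub, ?_, ?_, ?_, ?_⟩
  · rw [Quaternion.normSq_def', ua_val]
    simp only [mkQ_re, mkQ_imI, mkQ_imJ, mkQ_imK]
    linear_combination 5 * h5
  · rw [Quaternion.normSq_def', ub_val]
    simp only [mkQ_re, mkQ_imI, mkQ_imJ, mkQ_imK]
    linear_combination 5 * h5
  · rw [Fintype.linearIndependent_iff]
    intro g hg
    rw [Fin.sum_univ_four] at hg
    have hprod : (ua : ℍ[ℝ]) * (ub : ℍ[ℝ]) = mkQ (1 / 5) (2 / 5) (2 / 5) (4 / 5) := by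
      rw [ua_val, ub_val, mkQ_mul]
      congr 1
      · linear_combination h5
      · linear_combination 2 * h5
      · linear_combination 2 * h5
      · linear_combination 4 * h5
    simp only [Matrix.cons_val_zero, Matrix.cons_val_one, Matrix.cons_val] at hg
    rw [hprod, ua_val, ub_val] at hg
    have e1 := congrArg (fun q : ℍ[ℝ] => q.re) hg
    have e2 := congrArg (fun q : ℍ[ℝ] => q.imI) hg
    have e3 := congrArg (fun q : ℍ[ℝ] => q.imJ) hg
    have e4 := congrArg (fun q : ℍ[ℝ] => q.imK) hg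
    simp at e1 e2 e3 e4
    have h4 : g 3 = 0 := by linarith
    rw [h4] at e1 e2 e3
    simp at e1 e2 e3
    intro i
    fin_cases i
    · simp_all
    · simp_all
    · simp_all
    · simp_all
  · intro w hw
    have hred : FreeGroup.IsReduced w.toWord := FreeGroup.isReduced_toWord
    have hlift : ((FreeGroup.lift ![ua, ub] w : (ℍ[ℝ])ˣ) : ℍ[ℝ]) = (w.toWord.map lr).prod := by
      conv_lhs => rw [← FreeGroup.mk_toWord (x := w)]
      rw [FreeGroup.lift_mk]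
      have : ∀ L : List (Fin 2 × Bool), (((L.map fun x => cond x.2 (![ua, ub] x.1)
          (![ua, ub] x.1)⁻¹).prod : (ℍ[ℝ])ˣ) : ℍ[ℝ]) = (L.map lr).prod := by
        intro L
        induction L with
        | nil => simp
        | cons x L ih =>
          simp only [List.map_cons, List.prod_cons, Units.val_mul, ih]
          rfl
      exact this _
    have : w.toWord = [] := by
      rcases hw with hw | hw
      · refine not_pm_one _ hred 1 (by norm_num) ?_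
        rw [← hlift, hw, mkQ_one]
      · refine not_pm_one _ hred (-1) (by norm_num) ?_
        rw [← hlift, hw, mkQ_one]
        ext <;> simp
    exact FreeGroup.toWord_eq_nil_iff.1 this

end Pool.Agent.TracePoly
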