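import Pool.Agent.Work.MP_170125_pr.Cramer
import Pool.Agent.Work.MP_170125_pr.Commuting
import Pool.Agent.Work.MP_170125_pr.FreeQuat

/-!
Words whose matrices lie in a hyperplane are rare: linear algebra part.
-/

open MvPolynomial Matrix Quaternion

namespace Pool.Agent.TracePoly

lemma quat_eq_zero_of_re {a b : (ℍ[ℝ])ˣ}
    (hlin : LinearIndependent ℝ ![(1 : ℍ[ℝ]), (a : ℍ[ℝ]), (b : ℍ[ℝ]), (a : ℍ[ℝ]) * (b : ℍ[ℝ])])
    (Y : ℍ[ℝ]) (hY : ∀ j, (Y * basE a b j).re = 0) : Y = 0 := by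
  have hspan : Submodule.span ℝ (Set.range (basE a b)) = ⊤ := by
    have h := hlin.span_eq_top_of_card_eq_finrank (by simp [Quaternion.finrank_eq_four])
    exact h
  have hall : ∀ v : ℍ[ℝ], (Y * v).re = 0 := by
    intro v
    have hv : v ∈ Submodule.span ℝ (Set.range (basE a b)) := by rw [hspan]; trivial
    induction hv using Submodule.span_induction with
    | mem x hx => obtain ⟨j, rfl⟩ := hx; exact hY j
    | zero => simp
    | add x y _ _ hx hy => rw [mul_add, Quaternion.re_add, hx, hy, add_zero]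
    | smul c x _ hx => rw [mul_smul_comm, Quaternion.re_smul, hx, smul_zero]
  have h1 := hall (star Y)
  rw [Quaternion.self_mul_star] at h1
  simpa using h1

/-- evaluation at the traces of a pair of quaternions -/
noncomputable def evQ (a b : (ℍ[ℝ])ˣ) : R3 →+* ℝ :=
  MvPolynomial.eval₂Hom (Int.castRingHom ℝ)
    ![2 * (a : ℍ[ℝ]).re, 2 * (b : ℍ[ℝ]).re, 2 * ((a : ℍ[ℝ]) * (b : ℍ[ℝ])).re]

lemma unit_inv_eq_star {a : (ℍ[ℝ])ˣ} (ha : Quaternion.normSq (a : ℍ[ℝ]) = 1) :
    ((a⁻¹ : (ℍ[ℝ])ˣ) : ℍ[ℝ]) = star (a : ℍ[ℝ]) := by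
  have h1 : (a : ℍ[ℝ]) * star (a : ℍ[ℝ]) = 1 := by
    rw [Quaternion.self_mul_star, ha]; simp
  exact Units.inv_eq_of_mul_eq_one_right h1

lemma two_mul_coe (r : ℝ) : (2 : ℍ[ℝ]) * (r : ℍ[ℝ]) = ((2 * r : ℝ) : ℍ[ℝ]) := by
  rw [two_mul, two_mul, Quaternion.coe_add]

lemma isRep_quat {a b : (ℍ[ℝ])ˣ} (ha : Quaternion.normSq (a : ℍ[ℝ]) = 1)
    (hb : Quaternion.normSq (b : ℍ[ℝ]) = 1) : IsRep (evQ a b) a b where
  hA := by
    rw [unit_inv_eq_star ha, Quaternion.self_add_star]
    rw [Quaternion.algebraMap_def, two_mul_coe]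
    simp [evQ]
  hB := by
    rw [unit_inv_eq_star hb, Quaternion.self_add_star]
    rw [Quaternion.algebraMap_def, two_mul_coe]
    simp [evQ]
  hAB := by
    have hab : Quaternion.normSq ((a * b : (ℍ[ℝ])ˣ) : ℍ[ℝ]) = 1 := by
      rw [Units.val_mul, map_mul, ha, hb, one_mul]
    rw [unit_inv_eq_star hab, Units.val_mul, Quaternion.self_add_star]
    rw [Quaternion.algebraMap_def, two_mul_coe]
    simp [evQ]

lemma evQ_rowP {a b : (ℍ[ℝ])ˣ} (ha : Quaternion.normSq (a : ℍ[ℝ]) = 1)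
    (hb : Quaternion.normSq (b : ℍ[ℝ]) = 1) (u : List (Fin 2 × Bool)) (j : Fin 4) :
    evQ a b (rowP u j) = 2 * ((evalW a b u : ℍ[ℝ]) * basE a b j).re := by
  rw [(isRep_quat ha hb).word u j]
  have hre : ∀ (f : Fin 4 → ℍ[ℝ]), (∑ i, f i).re = ∑ i, (f i).re := by
    intro f
    simp [Fin.sum_univ_four]
  rw [hre, Finset.mul_sum]
  unfold rowP
  rw [map_sum]
  apply Finset.sum_congr rfl
  intro i _
  rw [map_mul, Quaternion.re_smul, smul_eq_mul]
  have : evQ a b (tauV i) = 2 * (basE a b i : ℍ[ℝ]).re := by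
    fin_cases i <;> simp [evQ, tauV, basE]
  rw [this]
  ring

lemma dependent_of_det {a b : (ℍ[ℝ])ˣ} (ha : Quaternion.normSq (a : ℍ[ℝ]) = 1)
    (hb : Quaternion.normSq (b : ℍ[ℝ]) = 1)
    (hlin : LinearIndependent ℝ ![(1 : ℍ[ℝ]), (a : ℍ[ℝ]), (b : ℍ[ℝ]), (a : ℍ[ℝ]) * (b : ℍ[ℝ])])
    (u : Fin 4 → List (Fin 2 × Bool)) (hu : (rowMat u).det = 0) :
    ¬ LinearIndependent ℝ (fun k => (evalW a b (u k) : ℍ[ℝ])) := by
  intro hind
  have h1 : ((rowMat u).map (evQ a b)).det = 0 := by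
    have := RingHom.map_det (evQ a b) (rowMat u)
    rw [hu, map_zero] at this
    rw [← RingHom.mapMatrix_apply, ← this]
  obtain ⟨r, hr, hr0⟩ := Matrix.exists_vecMul_eq_zero_iff.mpr h1
  have h2 : ∀ j, ((∑ k, r k • (evalW a b (u k) : ℍ[ℝ])) * basE a b j).re = 0 := by
    intro j
    have h3 := congrFun hr0 j
    simp only [Matrix.vecMul, dotProduct, Matrix.map_apply, rowMat, Matrix.of_apply,
      evQ_rowP ha hb, Pi.zero_apply] at h3
    have hre : ∀ (f : Fin 4 → ℍ[ℝ]), (∑ i, f i).re = ∑ i, (f i).re := by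
      intro f
      simp [Fin.sum_univ_four]
    rw [Finset.sum_mul, hre]
    have h4 : ∀ k, (r k • (evalW a b (u k) : ℍ[ℝ]) * basE a b j).re =
        r k * ((evalW a b (u k) : ℍ[ℝ]) * basE a b j).re := by
      intro k
      rw [smul_mul_assoc, Quaternion.re_smul, smul_eq_mul]
    simp_rw [h4]
    have h5 : ∑ k, r k * (2 * ((evalW a b (u k) : ℍ[ℝ]) * basE a b j).re) =
        2 * ∑ k, r k * ((evalW a b (u k) : ℍ[ℝ]) * basE a b j).re := by
      rw [Finset.mul_sum]
      apply Finset.sum_congr rfl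
      intro k _
      ring
    rw [h5] at h3
    linarith
  have h3 := quat_eq_zero_of_re hlin _ h2
  rw [Fintype.linearIndependent_iff] at hind
  exact hr (funext (hind r h3))

/-- dual functional vanishing on a dependent set -/
lemma exists_functional {a b : (ℍ[ℝ])ˣ} (ha : Quaternion.normSq (a : ℍ[ℝ]) = 1)
    (hb : Quaternion.normSq (b : ℍ[ℝ]) = 1)
    (hlin : LinearIndependent ℝ ![(1 : ℍ[ℝ]), (a : ℍ[ℝ]), (b : ℍ[ℝ]), (a : ℍ[ℝ]) * (b : ℍ[ℝ])])
    (S : Set (List (Fin 2 × Bool)))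
    (hS : ∀ u : Fin 4 → List (Fin 2 × Bool), (∀ i, u i ∈ S) → (rowMat u).det = 0) :
    ∃ φ : ℍ[ℝ] →ₗ[ℝ] ℝ, φ ≠ 0 ∧ ∀ w ∈ S, φ (evalW a b w : ℍ[ℝ]) = 0 := by
  classical
  set V : Submodule ℝ ℍ[ℝ] := Submodule.span ℝ ((fun w => (evalW a b w : ℍ[ℝ])) '' S) with hV
  have hVtop : V ≠ ⊤ := by
    intro htop
    obtain ⟨t, hts, htspan, htind⟩ :=
      exists_linearIndependent ℝ ((fun w => (evalW a b w : ℍ[ℝ])) '' S)
    have hfin : t.Finite := htind.setFinite
    have : Fintype t := hfin.fintype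
    have hcard : Fintype.card t = 4 := by
      have h1 : Submodule.span ℝ (Set.range ((↑) : t → ℍ[ℝ])) = ⊤ := by
        rw [Subtype.range_coe, htspan]; exact htop
      have h2 := Module.finrank_eq_card_basis (Module.Basis.mk htind (by rw [h1]))
      rw [Quaternion.finrank_eq_four] at h2
      exact h2.symm
    have e : Fin 4 ≃ t := (Fintype.equivFinOfCardEq hcard).symm
    have hch : ∀ i, ∃ w ∈ S, (evalW a b w : ℍ[ℝ]) = (e i : ℍ[ℝ]) := fun i => hts (e i).2
    choose u huS hu using hch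
    apply dependent_of_det ha hb hlin u (hS u huS)
    have h3 : LinearIndependent ℝ (fun i => ((e i : t) : ℍ[ℝ])) := htind.comp _ e.injective
    have h4 : (fun k => (evalW a b (u k) : ℍ[ℝ])) = fun i => ((e i : t) : ℍ[ℝ]) := by
      funext i; exact hu i
    rw [h4]
    exact h3
  obtain ⟨φ, hφ, hφV⟩ := Submodule.exists_le_ker_of_lt_top V (lt_top_iff_ne_top.mpr hVtop)
  refine ⟨φ, hφ, fun w hw => ?_⟩
  have : (evalW a b w : ℍ[ℝ]) ∈ V := Submodule.subset_span ⟨w, hw, rfl⟩
  exact hφV this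

lemma mk_injOn_reduced {u v : List (Fin 2 × Bool)} (hu : FreeGroup.IsReduced u)
    (hv : FreeGroup.IsReduced v) (h : FreeGroup.mk u = FreeGroup.mk v) : u = v := by
  have h1 : (FreeGroup.mk u).toWord = (FreeGroup.mk v).toWord := by rw [h]
  rw [FreeGroup.toWord_mk, FreeGroup.toWord_mk, hu.reduce_eq, hv.reduce_eq] at h1
  exact h1

lemma normSq_lift {a b : (ℍ[ℝ])ˣ} (ha : Quaternion.normSq (a : ℍ[ℝ]) = 1)
    (hb : Quaternion.normSq (b : ℍ[ℝ]) = 1) (w : FreeGroup (Fin 2)) :
    Quaternion.normSq ((FreeGroup.lift ![a, b] w : (ℍ[ℝ])ˣ) : ℍ[ℝ]) = 1 := by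
  induction w using FreeGroup.induction_on with
  | C1 => simp
  | of i =>
    fin_cases i
    · simpa using ha
    · simpa using hb
  | inv_of i hi =>
    rw [map_inv, unit_inv_eq_star hi, Quaternion.normSq_star, hi]
  | mul x y hx hy =>
    rw [map_mul, Units.val_mul, map_mul, hx, hy, one_mul]

theorem few_suffixes {a b : (ℍ[ℝ])ˣ} (ha : Quaternion.normSq (a : ℍ[ℝ]) = 1)
    (hb : Quaternion.normSq (b : ℍ[ℝ]) = 1)
    (hlin : LinearIndependent ℝ ![(1 : ℍ[ℝ]), (a : ℍ[ℝ]), (b : ℍ[ℝ]), (a : ℍ[ℝ]) * (b : ℍ[ℝ])])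
    (hfree : ∀ w : FreeGroup (Fin 2), ((FreeGroup.lift ![a, b] w : (ℍ[ℝ])ˣ) : ℍ[ℝ]) = 1 ∨
        ((FreeGroup.lift ![a, b] w : (ℍ[ℝ])ˣ) : ℍ[ℝ]) = -1 → w = 1)
    (k : ℕ) (S : Set (List (Fin 2 × Bool)))
    (hS : ∀ u : Fin 4 → List (Fin 2 × Bool), (∀ i, u i ∈ S) → (rowMat u).det = 0)
    (p p' : List (Fin 2 × Bool)) (hp : FreeGroup.IsReduced p) (hp' : FreeGroup.IsReduced p')
    (hne : p ≠ p') (Q : Finset (List (Fin 2 × Bool)))
    (hQ : ∀ q ∈ Q, FreeGroup.IsReduced q ∧ q.length = k ∧ p ++ q ∈ S ∧ p' ++ q ∈ S) :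
    Q.card ≤ 4 * k + 1 := by
  classical
  obtain ⟨φ, hφ, hφS⟩ := exists_functional ha hb hlin S hS
  set r : FreeGroup (Fin 2) → ℍ[ℝ] :=
    fun w => ((FreeGroup.lift ![a, b] w : (ℍ[ℝ])ˣ) : ℍ[ℝ]) with hr
  have hrmul : ∀ x y, r (x * y) = r x * r y := by
    intro x y; simp [hr]
  have hr1 : r 1 = 1 := by simp [hr]
  have hrinv : ∀ x, r x⁻¹ * r x = 1 := by
    intro x; rw [← hrmul, inv_mul_cancel, hr1]
  have hrne : ∀ x, r x ≠ 0 := by
    intro x h
    have := hrinv x
    rw [h, mul_zero] at this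
    exact zero_ne_one this
  have hrinj : ∀ x y, r x = r y → x = y := by
    intro x y hxy
    have h1 : r (y⁻¹ * x) = 1 := by rw [hrmul, hxy, hrinv]
    have := hfree _ (Or.inl h1)
    rw [inv_mul_eq_one] at this
    exact this.symm
  -- the two functionals
  set f1 : ℍ[ℝ] →ₗ[ℝ] ℝ := φ.comp (LinearMap.mulLeft ℝ (r (FreeGroup.mk p))) with hf1
  set f2 : ℍ[ℝ] →ₗ[ℝ] ℝ := φ.comp (LinearMap.mulLeft ℝ (r (FreeGroup.mk p'))) with hf2
  have hf12 : ∀ s t : ℝ, s • f1 + t • f2 = 0 → s = 0 ∧ t = 0 := by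
    intro s t hst
    by_contra hcon
    set Xq : ℍ[ℝ] := s • r (FreeGroup.mk p) + t • r (FreeGroup.mk p') with hXq
    have hX : ∀ v, φ (Xq * v) = 0 := by
      intro v
      have := LinearMap.congr_fun hst v
      simp only [hf1, hf2, LinearMap.add_apply, LinearMap.smul_apply, LinearMap.comp_apply,
        LinearMap.mulLeft_apply, LinearMap.zero_apply] at this
      rw [hXq, add_mul, smul_mul_assoc, smul_mul_assoc, map_add, map_smul, map_smul]
      exact this
    have hX0 : Xq = 0 := by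
      by_contra hX0
      apply hφ
      ext1 v
      have := hX (Xq⁻¹ * v)
      rw [← mul_assoc, mul_inv_cancel₀ hX0, one_mul] at this
      simpa using this
    -- then r p = ± r p'
    have h1 : s • r (FreeGroup.mk p) = (-t) • r (FreeGroup.mk p') := by
      rw [neg_smul]
      exact eq_neg_of_add_eq_zero_left hX0
    have hn1 : Quaternion.normSq (r (FreeGroup.mk p)) = 1 := normSq_lift ha hb _
    have hn2 : Quaternion.normSq (r (FreeGroup.mk p')) = 1 := normSq_lift ha hb _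
    have h2 : s ^ 2 = t ^ 2 := by
      have := congrArg Quaternion.normSq h1
      rw [Quaternion.normSq_smul, Quaternion.normSq_smul, hn1, hn2] at this
      nlinarith
    have hs : s ≠ 0 := by
      intro h
      apply hcon
      refine ⟨h, ?_⟩
      rw [h] at h2
      have : t ^ 2 = 0 := by rw [← h2]; norm_num
      exact pow_eq_zero_iff (two_ne_zero) |>.mp this
    have h3 : r (FreeGroup.mk p) = r (FreeGroup.mk p') ∨
        r (FreeGroup.mk p) = - r (FreeGroup.mk p') := by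
      rcases sq_eq_sq_iff_eq_or_eq_neg.mp h2 with h | h
      · right
        rw [h] at h1
        have ht : t ≠ 0 := by rw [← h]; exact hs
        have h4 : t • (r (FreeGroup.mk p) + r (FreeGroup.mk p')) = 0 := by
          rw [smul_add, h1, neg_smul, neg_add_cancel]
        rcases smul_eq_zero.mp h4 with h5 | h5
        · exact absurd h5 ht
        · exact eq_neg_of_add_eq_zero_left h5
      · left
        rw [h] at h1
        have ht : -t ≠ 0 := by rw [← h]; exact hs
        exact smul_right_injective _ ht h1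
    apply hne
    apply mk_injOn_reduced hp hp'
    rcases h3 with h | h
    · exact hrinj _ _ h
    · have h4 : r ((FreeGroup.mk p')⁻¹ * FreeGroup.mk p) = -1 := by
        rw [hrmul, h, mul_neg, hrinv]
      have := hfree _ (Or.inr h4)
      rw [inv_mul_eq_one] at this
      exact this.symm
  -- three vectors killed by both are dependent
  have hdep : ∀ v : Fin 3 → ℍ[ℝ], (∀ i, f1 (v i) = 0) → (∀ i, f2 (v i) = 0) →
      ¬ LinearIndependent ℝ v := by
    intro v h1 h2 hv
    set W : Submodule ℝ ℍ[ℝ] := Submodule.span ℝ (Set.range v) with hW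
    have hW3 : Module.finrank ℝ W = 3 := by
      rw [hW, finrank_span_eq_card hv]; simp
    have hf10 : ∃ e, f1 e ≠ 0 := by
      by_contra hcon
      push Not at hcon
      have h5 : f1 = 0 := LinearMap.ext hcon
      have h6 := hf12 1 0 (by rw [h5, smul_zero, zero_smul, add_zero])
      exact one_ne_zero h6.1
    obtain ⟨e, he⟩ := hf10
    have hmem : ∀ f : ℍ[ℝ] →ₗ[ℝ] ℝ, (∀ i, f (v i) = 0) → W ≤ LinearMap.ker f := by
      intro f hf
      rw [hW, Submodule.span_le]
      rintro x ⟨j, rfl⟩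
      exact hf j
    have hsurj : LinearMap.range f1 = ⊤ := by
      rw [LinearMap.range_eq_top]
      intro c
      refine ⟨(c / f1 e) • e, ?_⟩
      rw [map_smul, smul_eq_mul, div_mul_cancel₀ _ he]
    have hker : Module.finrank ℝ (LinearMap.ker f1) = 3 := by
      have h3 := LinearMap.finrank_range_add_finrank_ker f1
      rw [hsurj, finrank_top, Module.finrank_self, Quaternion.finrank_eq_four] at h3
      omega
    have hWk : W = LinearMap.ker f1 :=
      Submodule.eq_of_le_of_finrank_eq (hmem f1 h1) (by rw [hW3, hker])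
    have h7 : ∀ x, f2 x = (f2 e / f1 e) * f1 x := by
      intro x
      have h8 : x - (f1 x / f1 e) • e ∈ LinearMap.ker f1 := by
        rw [LinearMap.mem_ker, map_sub, map_smul, smul_eq_mul, div_mul_cancel₀ _ he, sub_self]
      rw [← hWk] at h8
      have h9 := hmem f2 h2 h8
      rw [LinearMap.mem_ker, map_sub, map_smul, smul_eq_mul] at h9
      have : f2 x = f1 x / f1 e * f2 e := by linarith
      rw [this]; ring
    have h10 : (-(f2 e / f1 e)) • f1 + (1 : ℝ) • f2 = 0 := by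
      ext1 x
      simp only [LinearMap.add_apply, LinearMap.smul_apply, smul_eq_mul, one_mul,
        LinearMap.zero_apply]
      rw [h7 x]; ring
    exact one_ne_zero (hf12 _ _ h10).2
  rcases Q.eq_empty_or_nonempty with hQe | ⟨q0, hq0⟩
  · rw [hQe]; simp
  have hev : ∀ w : List (Fin 2 × Bool), (evalW a b w : ℍ[ℝ]) = r (FreeGroup.mk w) := fun w => rfl
  have hkill : ∀ q ∈ Q, f1 (r (FreeGroup.mk q)) = 0 ∧ f2 (r (FreeGroup.mk q)) = 0 := by
    intro q hq
    obtain ⟨-, -, h1, h2⟩ := hQ q hq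
    constructor
    · have := hφS _ h1
      rw [hev, ← FreeGroup.mul_mk, hrmul] at this
      simpa [hf1] using this
    · have := hφS _ h2
      rw [hev, ← FreeGroup.mul_mk, hrmul] at this
      simpa [hf2] using this
  set g : List (Fin 2 × Bool) → FreeGroup (Fin 2) :=
    fun q => (FreeGroup.mk q0)⁻¹ * FreeGroup.mk q with hg
  have hcomm : ∀ q ∈ Q, ∀ q' ∈ Q, g q * g q' = g q' * g q := by
    intro q hq q' hq'
    apply hrinj
    rw [hrmul (g q) (g q'), hrmul (g q') (g q)]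
    have hd := hdep ![r (FreeGroup.mk q0), r (FreeGroup.mk q), r (FreeGroup.mk q')]
      (by intro i; fin_cases i
          · exact (hkill q0 hq0).1
          · exact (hkill q hq).1
          · exact (hkill q' hq').1)
      (by intro i; fin_cases i
          · exact (hkill q0 hq0).2
          · exact (hkill q hq).2
          · exact (hkill q' hq').2)
    rw [Fintype.linearIndependent_iff] at hd
    push Not at hd
    obtain ⟨c, hc, hc0⟩ := hd
    simp only [Fin.sum_univ_three, Matrix.cons_val_zero, Matrix.cons_val_one,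
      Matrix.cons_val_two, Matrix.head_cons, Matrix.tail_cons] at hc
    have hc' : c 0 • (1 : ℍ[ℝ]) + c 1 • r (g q) + c 2 • r (g q') = 0 := by
      have h1 : r ((FreeGroup.mk q0)⁻¹) * (c 0 • r (FreeGroup.mk q0) +
          c 1 • r (FreeGroup.mk q) + c 2 • r (FreeGroup.mk q')) = 0 := by
        have hc2 : c 0 • r (FreeGroup.mk q0) + c 1 • r (FreeGroup.mk q) +
            c 2 • r (FreeGroup.mk q') = 0 := by simpa using hc
        rw [hc2, mul_zero]
      rw [mul_add, mul_add, mul_smul_comm, mul_smul_comm, mul_smul_comm, hrinv] at h1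
      rw [hg, hrmul, hrmul]
      exact h1
    by_cases hc2 : c 2 = 0
    · by_cases hc1 : c 1 = 0
      · exfalso
        rw [hc2, hc1, zero_smul, zero_smul, add_zero, add_zero] at hc'
        have hc00 : c 0 = 0 := by
          rcases smul_eq_zero.mp hc' with h | h
          · exact h
          · exact absurd h one_ne_zero
        obtain ⟨i, hi⟩ := hc0
        fin_cases i
        · exact hi hc00
        · exact hi hc1
        · exact hi hc2
      · rw [hc2, zero_smul, add_zero] at hc'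
        have h1 : r (g q) = (-(c 0) / c 1) • (1 : ℍ[ℝ]) := by
          have h2 : c 1 • r (g q) = (-(c 0)) • (1 : ℍ[ℝ]) := by
            rw [neg_smul]; exact eq_neg_of_add_eq_zero_right hc'
          rw [div_eq_inv_mul, mul_smul, ← h2, smul_smul, inv_mul_cancel₀ hc1, one_smul]
        rw [h1, smul_mul_assoc, mul_smul_comm, one_mul, mul_one]
    · have h1 : r (g q') = (-(c 0) / c 2) • (1 : ℍ[ℝ]) + (-(c 1) / c 2) • r (g q) := by
        have h2 : c 2 • r (g q') = (-(c 0)) • (1 : ℍ[ℝ]) + (-(c 1)) • r (g q) := by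
          rw [neg_smul, neg_smul]
          have := eq_neg_of_add_eq_zero_right hc'
          rw [this]; abel
        rw [div_eq_inv_mul, div_eq_inv_mul, mul_smul, mul_smul, ← smul_add, ← h2, smul_smul,
          inv_mul_cancel₀ hc2, one_smul]
      rw [h1, mul_add, add_mul, smul_mul_assoc, mul_smul_comm, one_mul, mul_one,
        smul_mul_assoc, mul_smul_comm]
  have hinj : Set.InjOn g Q := by
    intro q hq q' hq' h
    have h1 : FreeGroup.mk q = FreeGroup.mk q' := mul_left_cancel h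
    exact mk_injOn_reduced (hQ q hq).1 (hQ q' hq').1 h1
  have hcard : (Q.image g).card = Q.card := Finset.card_image_of_injOn hinj
  rw [← hcard]
  have := commuting_card (Q.image g) (2 * k) ?_ ?_
  · omega
  · intro x hx y hy
    obtain ⟨q, hq, rfl⟩ := Finset.mem_image.mp hx
    obtain ⟨q', hq', rfl⟩ := Finset.mem_image.mp hy
    exact hcomm q hq q' hq'
  · intro x hx
    obtain ⟨q, hq, rfl⟩ := Finset.mem_image.mp hx
    refine (FreeGroup.norm_mul_le _ _).trans ?_
    rw [FreeGroup.norm_inv_eq]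
    have h1 := FreeGroup.norm_mk_le (L₁ := q0)
    have h2 := FreeGroup.norm_mk_le (L₁ := q)
    have h3 := (hQ q0 hq0).2.1
    have h4 := (hQ q hq).2.1
    omega

end Pool.Agent.TracePoly
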