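import Pool.Agent.Work.MP_170125_pr.Conv

/-!
Fricke polynomials: existence, uniqueness, and the two models of random words.
-/

open MeasureTheory Filter Topology MvPolynomial

namespace Pool.Agent.TracePoly

universe u

/-- `f` assigns to every element `w` of the free group on `a, b` a polynomial `f w ∈ ℤ[x,y,z]`
with `tr w(A,B) = (f w)(tr A, tr B, tr AB)` for all `A, B ∈ SL(2,ℂ)`. -/
def IsFricke (f : FreeGroup (Fin 2) → MvPolynomial (Fin 3) ℤ) : Prop :=
  ∀ (w : FreeGroup (Fin 2)) (A B : Matrix.SpecialLinearGroup (Fin 2) ℂ),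
    Matrix.trace ((FreeGroup.lift ![A, B] w : Matrix.SpecialLinearGroup (Fin 2) ℂ) :
      Matrix (Fin 2) (Fin 2) ℂ) =
      aeval ![Matrix.trace (A : Matrix (Fin 2) (Fin 2) ℂ),
        Matrix.trace (B : Matrix (Fin 2) (Fin 2) ℂ),
        Matrix.trace ((A * B : Matrix.SpecialLinearGroup (Fin 2) ℂ) :
          Matrix (Fin 2) (Fin 2) ℂ)] (f w)

/-- the word formed by the first `n` letters -/
def firstLetters {Ω : Type*} (s : ℕ → Ω → Fin 2 × Bool) (n : ℕ) (ω : Ω) :
    List (Fin 2 × Bool) := (List.range n).map (fun i => s i ω)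

lemma firstLetters_eq {Ω : Type*} (s : ℕ → Ω → Fin 2 × Bool) (n : ℕ) (ω : Ω) :
    firstLetters s n ω = wordFrom s 0 n ω := by
  simp [firstLetters, wordFrom]

/-- evaluation at the traces -/
noncomputable def evC (A B : Matrix.SpecialLinearGroup (Fin 2) ℂ) : R3 →+* ℂ :=
  (aeval ![Matrix.trace (A : Matrix (Fin 2) (Fin 2) ℂ),
        Matrix.trace (B : Matrix (Fin 2) (Fin 2) ℂ),
        Matrix.trace ((A * B : Matrix.SpecialLinearGroup (Fin 2) ℂ) :
          Matrix (Fin 2) (Fin 2) ℂ)] : R3 →ₐ[ℤ] ℂ).toRingHom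

lemma add_inv_eq (A : Matrix.SpecialLinearGroup (Fin 2) ℂ) :
    (A : Matrix (Fin 2) (Fin 2) ℂ) + ((A⁻¹ : Matrix.SpecialLinearGroup (Fin 2) ℂ) :
      Matrix (Fin 2) (Fin 2) ℂ) =
      algebraMap ℂ _ (Matrix.trace (A : Matrix (Fin 2) (Fin 2) ℂ)) := by
  rw [Matrix.SpecialLinearGroup.coe_inv, Algebra.algebraMap_eq_smul_one]
  apply Matrix.ext
  intro i j
  rw [Matrix.adjugate_fin_two, Matrix.trace_fin_two]
  fin_cases i <;> fin_cases j <;> simp [add_comm]

lemma isRep_SL (A B : Matrix.SpecialLinearGroup (Fin 2) ℂ) :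
    IsRep (evC A B) (Matrix.SpecialLinearGroup.toGL A) (Matrix.SpecialLinearGroup.toGL B) where
  hA := by
    have h := add_inv_eq A
    rw [← map_inv]
    have e : evC A B (X 0) = Matrix.trace (A : Matrix (Fin 2) (Fin 2) ℂ) := by
      simp [evC]
    rw [e, ← h]
    rfl
  hB := by
    have h := add_inv_eq B
    rw [← map_inv]
    have e : evC A B (X 1) = Matrix.trace (B : Matrix (Fin 2) (Fin 2) ℂ) := by
      simp [evC]
    rw [e, ← h]
    rfl
  hAB := by
    have h := add_inv_eq (A * B)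
    rw [← map_mul, ← map_inv]
    have e : evC A B (X 2) = Matrix.trace ((A * B : Matrix.SpecialLinearGroup (Fin 2) ℂ) :
        Matrix (Fin 2) (Fin 2) ℂ) := by
      simp [evC]
    rw [e, ← h]
    rfl

lemma lift_toGL (A B : Matrix.SpecialLinearGroup (Fin 2) ℂ) (w : FreeGroup (Fin 2)) :
    Matrix.SpecialLinearGroup.toGL (FreeGroup.lift ![A, B] w) =
      FreeGroup.lift ![Matrix.SpecialLinearGroup.toGL A, Matrix.SpecialLinearGroup.toGL B] w := by
  have h : (Matrix.SpecialLinearGroup.toGL (n := Fin 2) (R := ℂ)).comp (FreeGroup.lift ![A, B]) =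
      FreeGroup.lift ![Matrix.SpecialLinearGroup.toGL A,
        Matrix.SpecialLinearGroup.toGL B] := by
    apply FreeGroup.ext_hom
    intro i
    fin_cases i <;> simp
  rw [← h]
  rfl

lemma trace_word (A B : Matrix.SpecialLinearGroup (Fin 2) ℂ) (w : List (Fin 2 × Bool)) :
    Matrix.trace ((FreeGroup.lift ![A, B] (FreeGroup.mk w) :
      Matrix.SpecialLinearGroup (Fin 2) ℂ) : Matrix (Fin 2) (Fin 2) ℂ) = evC A B (trP w) := by
  have h1 : ((FreeGroup.lift ![A, B] (FreeGroup.mk w) :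
      Matrix.SpecialLinearGroup (Fin 2) ℂ) : Matrix (Fin 2) (Fin 2) ℂ) =
      (evalW (Matrix.SpecialLinearGroup.toGL A) (Matrix.SpecialLinearGroup.toGL B) w :
        Matrix (Fin 2) (Fin 2) ℂ) := by
    unfold evalW
    rw [← lift_toGL]
    rfl
  have h2 := (isRep_SL A B).word w 0
  have h3 : (basE (Matrix.SpecialLinearGroup.toGL A) (Matrix.SpecialLinearGroup.toGL B) 0 :
      Matrix (Fin 2) (Fin 2) ℂ) = 1 := rfl
  rw [h3, mul_one] at h2
  rw [h1, h2, Matrix.trace_sum]
  unfold trP rowP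
  rw [map_sum]
  apply Finset.sum_congr rfl
  intro i _
  rw [Matrix.trace_smul, map_mul, smul_eq_mul, mul_comm]
  congr 1
  fin_cases i
  · simp only [basE, tauV, Fin.zero_eta, Matrix.cons_val_zero]
    rw [Matrix.trace_one, Fintype.card_fin]
    exact (map_ofNat (evC A B) 2).symm
  · simp [basE, tauV, evC]
  · simp [basE, tauV, evC]
  · simp [basE, tauV, evC]

lemma trP_congr {u v : List (Fin 2 × Bool)} (h : FreeGroup.mk u = FreeGroup.mk v) :
    trP u = trP v := by
  unfold trP rowP wordM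
  rw [h]

/-- every triple of complex numbers is a triple of traces -/
lemma traces_surjective (x y z : ℂ) : ∃ A B : Matrix.SpecialLinearGroup (Fin 2) ℂ,
    Matrix.trace (A : Matrix (Fin 2) (Fin 2) ℂ) = x ∧
    Matrix.trace (B : Matrix (Fin 2) (Fin 2) ℂ) = y ∧
    Matrix.trace ((A * B : Matrix.SpecialLinearGroup (Fin 2) ℂ) :
      Matrix (Fin 2) (Fin 2) ℂ) = z := by
  -- t with t + 1/t = z
  obtain ⟨t, ht⟩ : ∃ t : ℂ, t ^ 2 - z * t + 1 = 0 := by
    obtain ⟨r, hr⟩ := IsAlgClosed.exists_pow_nat_eq (z ^ 2 - 4) (n := 2) (by norm_num)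
    refine ⟨(z + r) / 2, ?_⟩
    have : ((z + r) / 2) ^ 2 - z * ((z + r) / 2) + 1 = (r ^ 2 - (z ^ 2 - 4)) / 4 := by ring
    rw [this, hr]; ring
  have ht0 : t ≠ 0 := by
    intro h; rw [h] at ht; norm_num at ht
  refine ⟨⟨!![x, -1; 1, 0], by simp [Matrix.det_fin_two]⟩,
    ⟨!![0, t; -t⁻¹, y], by simp [Matrix.det_fin_two, ht0]⟩, ?_, ?_, ?_⟩
  · simp [Matrix.trace_fin_two]
  · simp [Matrix.trace_fin_two]
  · simp [Matrix.trace_fin_two]
    field_simp
    linear_combination ht

lemma poly_eq_of_eval {p q : R3} (h : ∀ A B : Matrix.SpecialLinearGroup (Fin 2) ℂ,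
    evC A B p = evC A B q) : p = q := by
  have hinj : Function.Injective (Int.castRingHom ℂ) := RingHom.injective_int _
  apply MvPolynomial.map_injective _ hinj
  apply MvPolynomial.funext
  intro v
  obtain ⟨A, B, h1, h2, h3⟩ := traces_surjective (v 0) (v 1) (v 2)
  have h4 := h A B
  have hv : ![Matrix.trace (A : Matrix (Fin 2) (Fin 2) ℂ),
        Matrix.trace (B : Matrix (Fin 2) (Fin 2) ℂ),
        Matrix.trace ((A * B : Matrix.SpecialLinearGroup (Fin 2) ℂ) :
          Matrix (Fin 2) (Fin 2) ℂ)] = v := by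
    funext i
    fin_cases i
    · exact h1
    · exact h2
    · exact h3
  have h5 : ∀ r : R3, evC A B r = eval v (MvPolynomial.map (Int.castRingHom ℂ) r) := by
    intro r
    rw [eval_map]
    unfold evC
    rw [hv]
    rfl
  rw [← h5, ← h5]
  exact h4

theorem isFricke_iff (f : FreeGroup (Fin 2) → MvPolynomial (Fin 3) ℤ) :
    IsFricke f ↔ f = fun w => trP w.toWord := by
  constructor
  · intro hf
    funext w
    apply poly_eq_of_eval
    intro A B
    have h1 := hf w A B
    have h2 := trace_word A B w.toWord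
    rw [FreeGroup.mk_toWord] at h2
    rw [← h2, h1]
    rfl
  · rintro rfl w A B
    have h2 := trace_word A B w.toWord
    rw [FreeGroup.mk_toWord] at h2
    rw [h2]
    rfl

theorem existsUnique_isFricke : ∃! f, IsFricke f :=
  ⟨_, (isFricke_iff _).mpr rfl, fun _ hf => (isFricke_iff _).mp hf⟩

lemma IsFricke.apply_mk {f : FreeGroup (Fin 2) → MvPolynomial (Fin 3) ℤ} (hf : IsFricke f)
    (w : List (Fin 2 × Bool)) : f (FreeGroup.mk w) = trP w := by
  rw [(isFricke_iff f).mp hf]
  exact trP_congr FreeGroup.mk_toWord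

lemma measurable_of_firstLetters {Ω : Type*} [MeasurableSpace Ω] (s : ℕ → Ω → Fin 2 × Bool)
    (hs : ∀ n, Measurable (s n)) (n : ℕ) (g : List (Fin 2 × Bool) → ℝ) :
    Measurable (fun ω => g (firstLetters s n ω)) := by
  have h1 : (fun ω => g (firstLetters s n ω)) =
      (fun v : Fin n → Fin 2 × Bool => g (List.ofFn v)) ∘ (fun ω (i : Fin n) => s i ω) := by
    funext ω
    simp only [Function.comp, firstLetters]
    congr 1
    apply List.ext_getElem
    · simp
    · intro i h1 h2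
      simp
  rw [h1]
  apply Measurable.comp
  · exact Measurable.of_discrete
  · exact measurable_pi_lambda _ (fun i => hs i)

/-- convergence of both rates, almost surely and in probability, for a good law -/
theorem GoodLaw.main {μ : List (Fin 2 × Bool) → ℝ} {C0 ρ κ : ℝ} (h : GoodLaw μ C0 ρ κ) :
    ∃ c : ℝ, ∀ f : FreeGroup (Fin 2) → MvPolynomial (Fin 3) ℤ, IsFricke f →
      ∀ (Ω : Type u) [MeasurableSpace Ω] (P : Measure Ω) [IsProbabilityMeasure P]
        (s : ℕ → Ω → Fin 2 × Bool), (∀ n, Measurable (s n)) →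
        (∀ w : List (Fin 2 × Bool), P.real {ω | firstLetters s w.length ω = w} = μ w) →
        (∀ᵐ ω ∂P, Tendsto (fun n : ℕ =>
          Real.log (height (f (FreeGroup.mk (firstLetters s n ω)))) / n) atTop (𝓝 c)) ∧
        (∀ᵐ ω ∂P, Tendsto (fun n : ℕ =>
          Real.log (l1 (f (FreeGroup.mk (firstLetters s n ω)))) / n) atTop (𝓝 c)) ∧
        TendstoInMeasure P (fun (n : ℕ) ω =>
          Real.log (height (f (FreeGroup.mk (firstLetters s n ω)))) / n) atTop (fun _ => c) ∧
        TendstoInMeasure P (fun (n : ℕ) ω =>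
          Real.log (l1 (f (FreeGroup.mk (firstLetters s n ω)))) / n) atTop (fun _ => c) := by
  obtain ⟨c, hc⟩ := h.exists_rate
  refine ⟨c, ?_⟩
  intro f hf Ω _ P _ s hs hlaw
  have hae := hc Ω P s hs (fun w => by
    rw [← hlaw w]
    congr 1
    ext ω
    show wordFrom s 0 w.length ω = w ↔ firstLetters s w.length ω = w
    rw [firstLetters_eq])
  have h1 : ∀ᵐ ω ∂P, Tendsto (fun n : ℕ =>
      Real.log (height (f (FreeGroup.mk (firstLetters s n ω)))) / n) atTop (𝓝 c) := by
    filter_upwards [hae] with ω hω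
    refine hω.2.congr ?_
    intro n
    rw [hf.apply_mk, firstLetters_eq]
  have h2 : ∀ᵐ ω ∂P, Tendsto (fun n : ℕ =>
      Real.log (l1 (f (FreeGroup.mk (firstLetters s n ω)))) / n) atTop (𝓝 c) := by
    filter_upwards [hae] with ω hω
    refine hω.1.congr ?_
    intro n
    rw [hf.apply_mk, firstLetters_eq]
  refine ⟨h1, h2, ?_, ?_⟩
  · apply tendstoInMeasure_of_tendsto_ae _ h1
    intro n
    exact (measurable_of_firstLetters s hs n
      (fun w => Real.log (height (f (FreeGroup.mk w))) / n)).aestronglyMeasurable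
  · apply tendstoInMeasure_of_tendsto_ae _ h2
    intro n
    exact (measurable_of_firstLetters s hs n
      (fun w => Real.log (l1 (f (FreeGroup.mk w))) / n)).aestronglyMeasurable

end Pool.Agent.TracePoly
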