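import Mathlib

/-!
# A subadditive ergodic theorem for words with mixing
-/

set_option autoImplicit false
set_option linter.unusedSectionVars false

open MeasureTheory Filter Topology

namespace Pool.Agent.TracePoly

/-- sum of g over all words of length n -/
def wsum {α : Type*} [Fintype α] : ℕ → (List α → ℝ) → ℝ
  | 0, g => g []
  | n + 1, g => ∑ s, wsum n (fun w => g (s :: w))

/-- the word formed by the letters number i, i+1, ..., i+n-1 -/
def wordFrom {α Ω : Type*} (s : ℕ → Ω → α) (i n : ℕ) (ω : Ω) : List α :=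
  (List.range n).map (fun j => s (i + j) ω)

namespace KingmanAux

section wsum

variable {α : Type*} [Fintype α]

lemma wsum_congr : ∀ {n : ℕ} {f g : List α → ℝ}, (∀ w, w.length = n → f w = g w) →
    wsum n f = wsum n g
  | 0, f, g, h => h [] rfl
  | n + 1, f, g, h => by
    unfold wsum
    exact Finset.sum_congr rfl fun s _ => wsum_congr fun w hw => h (s :: w) (by simp [hw])

lemma wsum_mono : ∀ {n : ℕ} {f g : List α → ℝ}, (∀ w, w.length = n → f w ≤ g w) →
    wsum n f ≤ wsum n g
  | 0, f, g, h => h [] rfl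
  | n + 1, f, g, h => by
    unfold wsum
    exact Finset.sum_le_sum fun s _ => wsum_mono fun w hw => h (s :: w) (by simp [hw])

lemma wsum_append : ∀ (m n : ℕ) (f : List α → ℝ),
    wsum (m + n) f = wsum m fun u => wsum n fun v => f (u ++ v)
  | 0, n, f => by simp [wsum]
  | m + 1, n, f => by
    have h : m + 1 + n = (m + n) + 1 := by ring
    rw [h]
    unfold wsum
    refine Finset.sum_congr rfl fun s _ => ?_
    rw [wsum_append m n]
    rfl

lemma wsum_mul_left (c : ℝ) : ∀ (n : ℕ) (f : List α → ℝ),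
    wsum n (fun w => c * f w) = c * wsum n f
  | 0, f => rfl
  | n + 1, f => by
    unfold wsum
    rw [Finset.mul_sum]
    exact Finset.sum_congr rfl fun s _ => wsum_mul_left c n _

lemma wsum_mul_right (c : ℝ) (n : ℕ) (f : List α → ℝ) :
    wsum n (fun w => f w * c) = wsum n f * c := by
  rw [mul_comm, ← wsum_mul_left]
  exact wsum_congr fun w _ => mul_comm _ _

lemma wsum_add : ∀ (n : ℕ) (f g : List α → ℝ),
    wsum n (fun w => f w + g w) = wsum n f + wsum n g
  | 0, f, g => rfl
  | n + 1, f, g => by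
    unfold wsum
    rw [← Finset.sum_add_distrib]
    exact Finset.sum_congr rfl fun s _ => wsum_add n _ _

lemma wsum_finset {ι : Type*} (t : Finset ι) : ∀ (n : ℕ) (f : ι → List α → ℝ),
    wsum n (fun w => ∑ i ∈ t, f i w) = ∑ i ∈ t, wsum n (f i)
  | 0, f => rfl
  | n + 1, f => by
    unfold wsum
    rw [Finset.sum_comm]
    exact Finset.sum_congr rfl fun s _ => wsum_finset t n _

lemma wsum_comm : ∀ (m n : ℕ) (f : List α → List α → ℝ),
    wsum m (fun u => wsum n (fun v => f u v)) = wsum n (fun v => wsum m (fun u => f u v))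
  | 0, n, f => rfl
  | m + 1, n, f => by
    change ∑ s, wsum m (fun u => wsum n (fun v => f (s :: u) v)) =
      wsum n (fun v => ∑ s, wsum m (fun u => f (s :: u) v))
    rw [wsum_finset]
    exact Finset.sum_congr rfl fun s _ => wsum_comm m n _

lemma wsum_eq_sum : ∀ (n : ℕ) (f : List α → ℝ),
    wsum n f = ∑ v : Fin n → α, f (List.ofFn v)
  | 0, f => by simp [wsum]
  | n + 1, f => by
    unfold wsum
    rw [← (Fin.consEquiv (fun _ => α)).sum_comp, Fintype.sum_prod_type]
    refine Finset.sum_congr rfl fun s _ => ?_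
    rw [wsum_eq_sum n]
    refine Finset.sum_congr rfl fun v _ => ?_
    simp [List.ofFn_succ]

end wsum

section mu

variable {α : Type*} [Fintype α] {μ : List α → ℝ}

lemma wsum_right (hμr : ∀ w, ∑ s, μ (w ++ [s]) = μ w) : ∀ (n : ℕ) (u : List α),
    wsum n (fun v => μ (u ++ v)) = μ u
  | 0, u => by simp [wsum]
  | n + 1, u => by
    unfold wsum
    rw [← hμr u]
    refine Finset.sum_congr rfl fun s _ => ?_
    rw [← wsum_right hμr n (u ++ [s])]
    exact wsum_congr fun w _ => by simp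

lemma wsum_left (hμl : ∀ w, ∑ s, μ (s :: w) = μ w) : ∀ (n : ℕ) (v : List α),
    wsum n (fun u => μ (u ++ v)) = μ v
  | 0, v => by simp [wsum]
  | n + 1, v => by
    unfold wsum
    rw [← wsum_finset]
    rw [← wsum_left hμl n v]
    exact wsum_congr fun w _ => hμl (w ++ v)

lemma wsum_one (hμ1 : μ [] = 1) (hμr : ∀ w, ∑ s, μ (w ++ [s]) = μ w) (n : ℕ) :
    wsum n μ = 1 := by
  have := wsum_right hμr n []
  simpa [hμ1] using this

/-- The expectations. -/
noncomputable def av (μ X : List α → ℝ) (n : ℕ) : ℝ := wsum n (fun w => μ w * X w)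

variable {X : List α → ℝ}

lemma av_subadditive (hμ0 : ∀ w, 0 ≤ μ w) (hμr : ∀ w, ∑ s, μ (w ++ [s]) = μ w)
    (hμl : ∀ w, ∑ s, μ (s :: w) = μ w) (hXsub : ∀ u v, X (u ++ v) ≤ X u + X v) :
    Subadditive (av μ X) := by
  intro m n
  unfold av
  rw [wsum_append]
  have h1 : wsum m (fun u => wsum n fun v => μ (u ++ v) * X (u ++ v)) ≤
      wsum m (fun u => wsum n fun v => (μ (u ++ v) * X u + μ (u ++ v) * X v)) := by
    refine wsum_mono fun u _ => wsum_mono fun v _ => ?_
    rw [← mul_add]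
    exact mul_le_mul_of_nonneg_left (hXsub u v) (hμ0 _)
  refine h1.trans (le_of_eq ?_)
  simp only [wsum_add]
  congr 1
  · refine wsum_congr fun u _ => ?_
    rw [wsum_mul_right, wsum_right hμr]
  · rw [wsum_comm]
    refine wsum_congr fun v _ => ?_
    rw [wsum_mul_right, wsum_left hμl]

lemma av_nonneg (hμ0 : ∀ w, 0 ≤ μ w) (hX0 : ∀ w, 0 ≤ X w) (n : ℕ) : 0 ≤ av μ X n := by
  unfold av
  have : wsum n (fun _ : List α => (0 : ℝ)) = 0 := by
    rw [wsum_eq_sum]; simp
  rw [← this]
  exact wsum_mono fun w _ => mul_nonneg (hμ0 w) (hX0 w)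

lemma av_bdd (hμ0 : ∀ w, 0 ≤ μ w) (hX0 : ∀ w, 0 ≤ X w) :
    BddBelow (Set.range fun n => av μ X n / n) :=
  ⟨0, by
    rintro _ ⟨n, rfl⟩
    exact div_nonneg (av_nonneg hμ0 hX0 n) (Nat.cast_nonneg n)⟩

end mu

section tail

variable {α : Type*} [Fintype α] {μ X : List α → ℝ}

/-- exponential moments -/
noncomputable def em (μ X : List α → ℝ) (t : ℝ) (n : ℕ) : ℝ :=
  wsum n (fun w => μ w * Real.exp (t * X w))

lemma em_nonneg (hμ0 : ∀ w, 0 ≤ μ w) (t : ℝ) (n : ℕ) : 0 ≤ em μ X t n := by
  unfold em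
  have : wsum n (fun _ : List α => (0 : ℝ)) = 0 := by
    rw [wsum_eq_sum]; simp
  rw [← this]
  exact wsum_mono fun w _ => mul_nonneg (hμ0 w) (Real.exp_pos _).le

/-- one block -/
lemma em_block (hμ0 : ∀ w, 0 ≤ μ w) (hμ1 : μ [] = 1)
    (hμr : ∀ w, ∑ s, μ (w ++ [s]) = μ w) {D t : ℝ} (ht : 0 ≤ t) (hX0 : ∀ w, 0 ≤ X w)
    (hX1 : ∀ w, X w ≤ D * (w.length + 1)) (L : ℕ) (hL : t * (D * (L + 1)) ≤ 1) :
    em μ X t L ≤ Real.exp (t * av μ X L + (t * (D * (L + 1))) ^ 2) := by
  have h1 : em μ X t L ≤ wsum L (fun w => μ w + (t * (μ w * X w) +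
      (t * (D * (L + 1))) ^ 2 * μ w)) := by
    refine wsum_mono fun w hw => ?_
    have h2 : X w ≤ D * (L + 1) := by
      have := hX1 w
      rwa [hw] at this
    have h3 : 0 ≤ t * X w := mul_nonneg ht (hX0 w)
    have h4 : t * X w ≤ t * (D * (L + 1)) := mul_le_mul_of_nonneg_left h2 ht
    have h5 : |t * X w| ≤ 1 := by rw [abs_of_nonneg h3]; linarith
    have h6 := Real.abs_exp_sub_one_sub_id_le h5
    have h7 : (t * X w) ^ 2 ≤ (t * (D * (L + 1))) ^ 2 := pow_le_pow_left₀ h3 h4 2
    have h8 : Real.exp (t * X w) ≤ 1 + t * X w + (t * (D * (L + 1))) ^ 2 := by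
      have := (abs_le.1 h6).2
      linarith
    have h9 := mul_le_mul_of_nonneg_left h8 (hμ0 w)
    calc μ w * Real.exp (t * X w) ≤ μ w * (1 + t * X w + (t * (D * (L + 1))) ^ 2) := h9
      _ = _ := by ring
  rw [wsum_add, wsum_add, wsum_mul_left, wsum_mul_left, wsum_one hμ1 hμr, mul_one] at h1
  refine h1.trans ?_
  have h2 := Real.add_one_le_exp (t * av μ X L + (t * (D * (L + 1))) ^ 2)
  unfold av at h2 ⊢
  linarith

/-- adding one block and one gap -/
lemma em_succ (hμ0 : ∀ w, 0 ≤ μ w)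
    {K1 D t : ℝ} (ht : 0 ≤ t)
    (hX1 : ∀ w, X w ≤ D * (w.length + 1))
    (hXsub : ∀ u v, X (u ++ v) ≤ X u + X v) (k L N : ℕ)
    (hmix : ∀ u v, wsum k (fun g => μ (u ++ g ++ v)) ≤ K1 * μ u * μ v) :
    em μ X t (N + (k + L)) ≤ K1 * Real.exp (t * (D * (k + 1))) * em μ X t L * em μ X t N := by
  unfold em
  rw [wsum_append]
  have h1 : wsum N (fun u => wsum (k + L) fun z => μ (u ++ z) * Real.exp (t * X (u ++ z))) ≤
      wsum N (fun u => wsum L fun v => K1 * μ u * μ v *
        (Real.exp (t * X u) * Real.exp (t * (D * (k + 1))) * Real.exp (t * X v))) := by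
    refine wsum_mono fun u _ => ?_
    rw [wsum_append, wsum_comm]
    refine wsum_mono fun v _ => ?_
    have h2 : wsum k (fun g => μ (u ++ (g ++ v)) * Real.exp (t * X (u ++ (g ++ v)))) ≤
        wsum k (fun g => μ (u ++ g ++ v) *
          (Real.exp (t * X u) * Real.exp (t * (D * (k + 1))) * Real.exp (t * X v))) := by
      refine wsum_mono fun g hg => ?_
      rw [← List.append_assoc]
      refine mul_le_mul_of_nonneg_left ?_ (hμ0 _)
      rw [← Real.exp_add, ← Real.exp_add]
      refine Real.exp_le_exp.2 ?_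
      rw [← mul_add, ← mul_add]
      refine mul_le_mul_of_nonneg_left ?_ ht
      have h3 := hXsub (u ++ g) v
      have h4 := hXsub u g
      have h5 := hX1 g
      rw [hg] at h5
      linarith
    refine h2.trans ?_
    rw [wsum_mul_right]
    exact mul_le_mul_of_nonneg_right (hmix u v) (by positivity)
  refine h1.trans (le_of_eq ?_)
  have h6 : (fun u => wsum L fun v => K1 * μ u * μ v *
        (Real.exp (t * X u) * Real.exp (t * (D * (k + 1))) * Real.exp (t * X v))) =
      fun u => (K1 * Real.exp (t * (D * (k + 1))) *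
        wsum L (fun v => μ v * Real.exp (t * X v))) * (μ u * Real.exp (t * X u)) := by
    funext u
    have h7 : (K1 * Real.exp (t * (D * (k + 1))) *
        wsum L (fun v => μ v * Real.exp (t * X v))) * (μ u * Real.exp (t * X u)) =
        (K1 * Real.exp (t * (D * (k + 1))) * (μ u * Real.exp (t * X u))) *
          wsum L (fun v => μ v * Real.exp (t * X v)) := by ring
    rw [h7, ← wsum_mul_left]
    exact wsum_congr fun v _ => by ring
  rw [h6, wsum_mul_left]

/-- iteration -/
lemma em_iter (hμ0 : ∀ w, 0 ≤ μ w) (hμ1 : μ [] = 1)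
    {K1 D t : ℝ} (ht : 0 ≤ t) (hK1 : 0 ≤ K1)
    (hX1 : ∀ w, X w ≤ D * (w.length + 1))
    (hXsub : ∀ u v, X (u ++ v) ≤ X u + X v) (k L : ℕ)
    (hmix : ∀ u v, wsum k (fun g => μ (u ++ g ++ v)) ≤ K1 * μ u * μ v) (n : ℕ) :
    em μ X t (n * (k + L)) ≤
      (K1 * Real.exp (t * (D * (k + 1))) * em μ X t L) ^ n * Real.exp (t * D) := by
  induction n with
  | zero =>
    simp only [zero_mul, pow_zero, one_mul, em, wsum, hμ1]
    refine Real.exp_le_exp.2 (mul_le_mul_of_nonneg_left ?_ ht)
    simpa using hX1 []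
  | succ n ih =>
    have h1 : (n + 1) * (k + L) = n * (k + L) + (k + L) := by ring
    rw [h1]
    refine (em_succ hμ0 ht hX1 hXsub k L _ hmix).trans ?_
    rw [pow_succ']
    rw [mul_assoc (K1 * Real.exp (t * (D * (k + 1))) * em μ X t L)]
    exact mul_le_mul_of_nonneg_left ih (mul_nonneg (mul_nonneg hK1 (Real.exp_pos _).le)
      (em_nonneg hμ0 t L))

/-- The tail bound. -/
lemma tail (hμ0 : ∀ w, 0 ≤ μ w) (hμ1 : μ [] = 1)
    (hμr : ∀ w, ∑ s, μ (w ++ [s]) = μ w)
    {C0 ρ D γ ε : ℝ} (hC0 : 0 ≤ C0) (hρ0 : 0 ≤ ρ) (hρ : ρ < 1) (hD : 1 ≤ D) (hγ : 0 ≤ γ)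
    (hε : 0 < ε)
    (hmix : ∀ k u v, wsum k (fun g => μ (u ++ g ++ v)) ≤ (1 + C0 * ρ ^ k) * μ u * μ v)
    (hX0 : ∀ w, 0 ≤ X w)
    (hX1 : ∀ w, X w ≤ D * (w.length + 1))
    (hXsub : ∀ u v, X (u ++ v) ≤ X u + X v)
    (hlim : Tendsto (fun n : ℕ => av μ X n / n) atTop (𝓝 γ)) :
    ∃ (M : ℕ) (q B : ℝ), 0 < M ∧ 0 ≤ q ∧ q < 1 ∧ 0 ≤ B ∧ ∀ n : ℕ,
      wsum (n * M) (fun w => if (γ + 2 * ε) * (n * M : ℕ) ≤ X w then μ w else 0) ≤ B * q ^ n := by
  have hD0 : 0 < D := by linarith
  set η : ℝ := min (ε / (16 * D ^ 2)) (1 / (2 * D)) with hη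
  have hηpos : 0 < η := lt_min (by positivity) (by positivity)
  have hη1 : η * (16 * D ^ 2) ≤ ε := by
    have := min_le_left (ε / (16 * D ^ 2)) (1 / (2 * D))
    rw [← hη, le_div_iff₀ (by positivity)] at this
    exact this
  have hη2 : η * (2 * D) ≤ 1 := by
    have := min_le_right (ε / (16 * D ^ 2)) (1 / (2 * D))
    rw [← hη, le_div_iff₀ (by positivity)] at this
    exact this
  obtain ⟨k, hk⟩ : ∃ k : ℕ, C0 * ρ ^ k ≤ η * ε / 4 := by
    have h1 : Tendsto (fun k : ℕ => C0 * ρ ^ k) atTop (𝓝 (C0 * 0)) :=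
      (tendsto_pow_atTop_nhds_zero_of_lt_one hρ0 hρ).const_mul C0
    rw [mul_zero] at h1
    have h2 : (0 : ℝ) < η * ε / 4 := by positivity
    obtain ⟨k, hk⟩ := (h1.eventually (gt_mem_nhds h2)).exists
    exact ⟨k, hk.le⟩
  obtain ⟨L, hL1, hL2, hL3⟩ : ∃ L : ℕ, 1 ≤ L ∧ 4 * D * (k + 1) / ε ≤ L ∧
      av μ X L / L < γ + ε := by
    have h1 : ∀ᶠ L : ℕ in atTop, av μ X L / L < γ + ε :=
      hlim.eventually (gt_mem_nhds (by linarith))
    have h2 : ∀ᶠ L : ℕ in atTop, 4 * D * (k + 1) / ε ≤ (L : ℝ) :=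
      tendsto_natCast_atTop_atTop.eventually_ge_atTop _
    obtain ⟨L, h⟩ := ((eventually_ge_atTop 1).and (h2.and h1)).exists
    exact ⟨L, h⟩
  have hLpos : (0 : ℝ) < L := by exact_mod_cast hL1
  have hL1' : (1 : ℝ) ≤ L := by exact_mod_cast hL1
  set t : ℝ := η / L with htdef
  have htL : t * L = η := by rw [htdef]; field_simp
  have ht : 0 < t := by positivity
  have hb1 : t * (D * (L + 1)) ≤ 2 * D * η := by
    have : t * (D * (L + 1)) = D * (t * L) + D * t := by ring
    rw [this, htL]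
    have h2 : t ≤ η := by
      rw [htdef]
      exact div_le_self hηpos.le hL1'
    nlinarith
  have hb2 : t * (D * (L + 1)) ≤ 1 := hb1.trans (by linarith)
  have hb0 : 0 ≤ t * (D * (L + 1)) := by positivity
  have hb3 : (t * (D * (L + 1))) ^ 2 ≤ η * ε / 4 := by
    calc (t * (D * (L + 1))) ^ 2 ≤ (2 * D * η) ^ 2 := pow_le_pow_left₀ hb0 hb1 2
      _ = η * (η * (16 * D ^ 2)) / 4 := by ring
      _ ≤ η * ε / 4 := by gcongr
  have hb4 : t * (D * (k + 1)) ≤ η * ε / 4 := by
    rw [div_le_iff₀ hε] at hL2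
    have : t * (D * (k + 1)) = η * (D * (k + 1)) / L := by rw [htdef]; ring
    rw [this, div_le_iff₀ hLpos]
    nlinarith
  have hb5 : t * av μ X L ≤ η * (γ + ε) := by
    have h1 : t * av μ X L = η * (av μ X L / L) := by rw [htdef]; ring
    rw [h1]
    exact mul_le_mul_of_nonneg_left hL3.le hηpos.le
  set K1 : ℝ := 1 + C0 * ρ ^ k with hK1
  have hK1pos : 0 ≤ K1 := by positivity
  have hK1e : K1 ≤ Real.exp (η * ε / 4) := by
    have := Real.add_one_le_exp (η * ε / 4)
    linarith
  set Q : ℝ := K1 * Real.exp (t * (D * (k + 1))) * em μ X t L with hQ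
  have hQ0 : 0 ≤ Q := mul_nonneg (mul_nonneg hK1pos (Real.exp_pos _).le) (em_nonneg hμ0 t L)
  have hQ1 : Q ≤ Real.exp (η * (γ + 7 / 4 * ε)) := by
    calc Q ≤ Real.exp (η * ε / 4) * Real.exp (η * ε / 4) *
          Real.exp (η * (γ + ε) + η * ε / 4) := by
          rw [hQ]
          gcongr
          · exact em_nonneg hμ0 t L
          · exact (em_block hμ0 hμ1 hμr ht.le hX0 hX1 L hb2).trans
              (Real.exp_le_exp.2 (add_le_add hb5 hb3))
      _ = _ := by rw [← Real.exp_add, ← Real.exp_add]; congr 1; ring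
  refine ⟨k + L, Q * Real.exp (-(η * (γ + 2 * ε))), Real.exp (t * D), by omega,
    mul_nonneg hQ0 (Real.exp_pos _).le, ?_, (Real.exp_pos _).le, fun n => ?_⟩
  · calc Q * Real.exp (-(η * (γ + 2 * ε)))
        ≤ Real.exp (η * (γ + 7 / 4 * ε)) * Real.exp (-(η * (γ + 2 * ε))) := by gcongr
      _ = Real.exp (-(η * ε / 4)) := by rw [← Real.exp_add]; congr 1; ring
      _ < 1 := by
        rw [Real.exp_lt_one_iff]
        have : 0 < η * ε := mul_pos hηpos hε
        linarith
  · have h1 : wsum (n * (k + L)) (fun w => if (γ + 2 * ε) * (n * (k + L) : ℕ) ≤ X w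
        then μ w else 0) ≤
        wsum (n * (k + L)) (fun w => Real.exp (-(η * (γ + 2 * ε))) ^ n *
          (μ w * Real.exp (t * X w))) := by
      refine wsum_mono fun w _ => ?_
      split_ifs with h
      · have h2 : 1 ≤ Real.exp (-(η * (γ + 2 * ε))) ^ n * Real.exp (t * X w) := by
          rw [← Real.exp_nat_mul, ← Real.exp_add]
          rw [← Real.exp_zero]
          refine Real.exp_le_exp.2 ?_
          have h3 : t * ((γ + 2 * ε) * (n * (k + L) : ℕ)) ≤ t * X w :=
            mul_le_mul_of_nonneg_left h ht.le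
          have h4 : (n : ℝ) * (η * (γ + 2 * ε)) ≤ t * ((γ + 2 * ε) * (n * (k + L) : ℕ)) := by
            rw [← htL]
            push_cast
            have h5 : 0 ≤ t * (γ + 2 * ε) * n * k := by positivity
            nlinarith
          linarith
        calc μ w = μ w * 1 := (mul_one _).symm
          _ ≤ μ w * (Real.exp (-(η * (γ + 2 * ε))) ^ n * Real.exp (t * X w)) :=
            mul_le_mul_of_nonneg_left h2 (hμ0 w)
          _ = _ := by ring
      · exact mul_nonneg (by positivity) (mul_nonneg (hμ0 w) (Real.exp_pos _).le)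
    refine h1.trans ?_
    rw [wsum_mul_left]
    have h2 := em_iter hμ0 hμ1 ht.le hK1pos hX1 hXsub k L (hmix k) n
    unfold em at h2
    calc Real.exp (-(η * (γ + 2 * ε))) ^ n *
          wsum (n * (k + L)) (fun w => μ w * Real.exp (t * X w))
        ≤ Real.exp (-(η * (γ + 2 * ε))) ^ n * (Q ^ n * Real.exp (t * D)) := by
          refine mul_le_mul_of_nonneg_left ?_ (by positivity)
          exact h2
      _ = Real.exp (t * D) * (Q * Real.exp (-(η * (γ + 2 * ε)))) ^ n := by
          rw [mul_pow Q]; ring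

end tail

section canon

variable {α : Type} [Fintype α] [DecidableEq α] [MeasurableSpace α] [DiscreteMeasurableSpace α]

/-- the word of the first `n` letters -/
def wd (x : ℕ → α) (n : ℕ) : List α := (List.range n).map x

lemma wd_eq_ofFn (x : ℕ → α) (n : ℕ) : wd x n = List.ofFn (fun j : Fin n => x j) := by
  unfold wd
  rw [List.ofFn_eq_map, ← List.map_coe_finRange_eq_range, List.map_map]
  rfl

@[simp] lemma wd_length (x : ℕ → α) (n : ℕ) : (wd x n).length = n := by simp [wd]

lemma wd_add (x : ℕ → α) (a b : ℕ) : wd x (a + b) = wd x a ++ wd (fun j => x (a + j)) b := by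
  unfold wd
  rw [List.range_add, List.map_append, List.map_map]
  rfl

lemma wd_succ' (x : ℕ → α) (n : ℕ) : wd x (n + 1) = x 0 :: wd (fun j => x (j + 1)) n := by
  unfold wd
  rw [List.range_succ_eq_map, List.map_cons, List.map_map]
  rfl

/-- projection on the first `n` letters -/
def prj (n : ℕ) (x : ℕ → α) : Fin n → α := fun j => x j

lemma measurable_prj (n : ℕ) : Measurable (prj (α := α) n) :=
  measurable_pi_lambda _ fun _ => measurable_pi_apply _

lemma measurable_wd {β : Type*} [MeasurableSpace β] (n : ℕ) (g : List α → β) :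
    Measurable (fun x : ℕ → α => g (wd x n)) := by
  have h : (fun x : ℕ → α => g (wd x n)) = (fun v : Fin n → α => g (List.ofFn v)) ∘ prj n := by
    funext x
    rw [wd_eq_ofFn]
    rfl
  rw [h]
  exact (measurable_of_finite _).comp (measurable_prj n)

variable {ν : Measure (ℕ → α)} [IsProbabilityMeasure ν] {μ : List α → ℝ}

lemma prj_real (hν : ∀ w, ν.real {x | wd x w.length = w} = μ w) (n : ℕ) (v : Fin n → α) :
    (ν.map (prj n)).real {v} = μ (List.ofFn v) := by
  rw [← hν, measureReal_def, measureReal_def, Measure.map_apply (measurable_prj n)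
    (MeasurableSet.singleton v)]
  congr 2
  ext x
  simp only [Set.mem_preimage, Set.mem_singleton_iff, Set.mem_ofPred_eq, List.length_ofFn,
    wd_eq_ofFn]
  constructor
  · rintro rfl; rfl
  · intro h
    exact List.ofFn_injective h

lemma integral_wd (hν : ∀ w, ν.real {x | wd x w.length = w} = μ w) (n : ℕ) (g : List α → ℝ) :
    ∫ x, g (wd x n) ∂ν = wsum n (fun w => μ w * g w) := by
  have h1 : ∫ x, g (wd x n) ∂ν = ∫ v, g (List.ofFn v) ∂(ν.map (prj n)) := by
    rw [integral_map (measurable_prj n).aemeasurable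
      (measurable_of_finite _).aestronglyMeasurable]
    simp only [wd_eq_ofFn]
    rfl
  have : IsProbabilityMeasure (ν.map (prj (α := α) n)) :=
    Measure.isProbabilityMeasure_map (measurable_prj n).aemeasurable
  rw [h1, integral_fintype (Integrable.of_finite), wsum_eq_sum]
  refine Finset.sum_congr rfl fun v _ => ?_
  rw [prj_real hν, smul_eq_mul]

lemma measure_wd (hν : ∀ w, ν.real {x | wd x w.length = w} = μ w) (n : ℕ) (p : List α → Prop)
    [DecidablePred p] :
    ν.real {x | p (wd x n)} = wsum n (fun w => if p w then μ w else 0) := by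
  have h1 := integral_wd hν n (fun w => if p w then (1 : ℝ) else 0)
  have h2 : (fun x : ℕ → α => if p (wd x n) then (1 : ℝ) else 0) =
      Set.indicator {x | p (wd x n)} 1 := by
    funext x
    simp [Set.indicator_apply]
  have hm : MeasurableSet {x : ℕ → α | p (wd x n)} :=
    measurable_wd n p (MeasurableSpace.measurableSet_top (s := {q : Prop | q}))
  rw [h2, integral_indicator_one hm] at h1
  rw [h1]
  exact wsum_congr fun w _ => by split_ifs <;> simp

omit [IsProbabilityMeasure ν] in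
/-- A law on sequences is determined by the probabilities of words. -/
lemma law_unique {ν' : Measure (ℕ → α)} [IsProbabilityMeasure ν] [IsProbabilityMeasure ν']
    (hν : ∀ w, ν.real {x | wd x w.length = w} = μ w)
    (hν' : ∀ w, ν'.real {x | wd x w.length = w} = μ w) : ν = ν' := by
  have hprj : ∀ n, ν.map (prj n) = ν'.map (prj n) := by
    intro n
    have i1 : IsProbabilityMeasure (ν.map (prj (α := α) n)) :=
      Measure.isProbabilityMeasure_map (measurable_prj n).aemeasurable
    have i2 : IsProbabilityMeasure (ν'.map (prj (α := α) n)) :=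
      Measure.isProbabilityMeasure_map (measurable_prj n).aemeasurable
    refine Measure.ext_of_singleton fun v => ?_
    have h1 := prj_real hν n v
    have h2 := prj_real hν' n v
    rw [← h2, measureReal_def, measureReal_def] at h1
    exact (ENNReal.toReal_eq_toReal_iff' (measure_ne_top _ _) (measure_ne_top _ _)).1 h1
  have hr : ∀ J : Finset ℕ, ν.map J.restrict = ν'.map J.restrict := by
    intro J
    set n := J.sup id + 1 with hn
    have hlt : ∀ j ∈ J, j < n := fun j hj => Nat.lt_succ_of_le (Finset.le_sup (f := id) hj)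
    let f : (Fin n → α) → (J → α) := fun v j => v ⟨j, hlt j j.2⟩
    have hf : Measurable f := measurable_of_finite _
    have h1 : (J.restrict : (ℕ → α) → (J → α)) = f ∘ prj n := rfl
    have h2 : ∀ ν₀ : Measure (ℕ → α), ν₀.map J.restrict = (ν₀.map (prj n)).map f := by
      intro ν₀
      rw [Measure.map_map hf (measurable_prj n), h1]
    rw [h2, h2, hprj]
  exact IsProjectiveLimit.unique (P := fun J : Finset ℕ => ν.map J.restrict)
    (fun J => rfl) (fun J => (hr J).symm)

/-- the shift -/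
def T (x : ℕ → α) : ℕ → α := fun n => x (n + 1)

lemma measurable_T : Measurable (T (α := α)) :=
  measurable_pi_lambda _ fun _ => measurable_pi_apply _

lemma shift_preserving (hν : ∀ w, ν.real {x | wd x w.length = w} = μ w)
    (hμl : ∀ w, ∑ s, μ (s :: w) = μ w) : MeasurePreserving (T (α := α)) ν ν := by
  refine ⟨measurable_T, ?_⟩
  have : IsProbabilityMeasure (ν.map (T (α := α))) :=
    Measure.isProbabilityMeasure_map measurable_T.aemeasurable
  refine law_unique (μ := μ) (fun w => ?_) hν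
  have hm : MeasurableSet {x : ℕ → α | wd x w.length = w} :=
    measurable_wd w.length (fun w' => w' = w) (MeasurableSpace.measurableSet_top (s := {q : Prop | q}))
  rw [measureReal_def, Measure.map_apply measurable_T hm, ← measureReal_def]
  have h1 : (T (α := α)) ⁻¹' {x : ℕ → α | wd x w.length = w} =
      {x | (fun w' : List α => w'.tail = w) (wd x (w.length + 1))} := by
    ext x
    simp only [Set.mem_preimage, Set.mem_ofPred_eq, wd_succ', List.tail_cons]
    rfl
  rw [h1]
  refine (measure_wd hν (w.length + 1) (fun w' : List α => w'.tail = w)).trans ?_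
  change ∑ s, wsum w.length (fun w' => if (s :: w').tail = w then μ (s :: w') else 0) = μ w
  rw [← hμl w]
  refine Finset.sum_congr rfl fun s _ => ?_
  rw [wsum_eq_sum]
  obtain ⟨v, hv⟩ : ∃ v : Fin w.length → α, List.ofFn v = w := ⟨_, List.ofFn_get w⟩
  rw [Finset.sum_eq_single v]
  · rw [hv]; simp
  · intro v' _ hv'
    rw [if_neg]
    rw [List.tail_cons]
    intro h
    apply hv'
    exact List.ofFn_injective (h.trans hv.symm)
  · simp

lemma T_iterate (i : ℕ) (x : ℕ → α) : T^[i] x = fun n => x (i + n) := by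
  induction i generalizing x with
  | zero => funext n; simp
  | succ i ih =>
    rw [Function.iterate_succ_apply, ih]
    funext n
    simp only [T]
    congr 1
    ring

end canon

section upper

variable {α : Type} [Fintype α] [DecidableEq α] [MeasurableSpace α] [DiscreteMeasurableSpace α]
variable {ν : Measure (ℕ → α)} [IsProbabilityMeasure ν] {μ X : List α → ℝ}

/-- Almost sure upper bound along the blocks and then along all lengths. -/
lemma upper_eps (hμ0 : ∀ w, 0 ≤ μ w) (hμ1 : μ [] = 1)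
    (hμr : ∀ w, ∑ s, μ (w ++ [s]) = μ w)
    {C0 ρ D γ ε : ℝ} (hC0 : 0 ≤ C0) (hρ0 : 0 ≤ ρ) (hρ : ρ < 1) (hD : 1 ≤ D) (hγ : 0 ≤ γ)
    (hε : 0 < ε)
    (hmix : ∀ k u v, wsum k (fun g => μ (u ++ g ++ v)) ≤ (1 + C0 * ρ ^ k) * μ u * μ v)
    (hX0 : ∀ w, 0 ≤ X w)
    (hX1 : ∀ w, X w ≤ D * (w.length + 1))
    (hXsub : ∀ u v, X (u ++ v) ≤ X u + X v)
    (hlim : Tendsto (fun n : ℕ => av μ X n / n) atTop (𝓝 γ))
    (hν : ∀ w, ν.real {x | wd x w.length = w} = μ w) :
    ∀ᵐ x ∂ν, ∀ᶠ N : ℕ in atTop, X (wd x N) ≤ (γ + 3 * ε) * N := by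
  obtain ⟨M, q, B, hM, hq0, hq1, hB, htail⟩ := tail hμ0 hμ1 hμr hC0 hρ0 hρ hD hγ hε hmix hX0 hX1
    hXsub hlim
  have hbc : ∀ᵐ x ∂ν, ∀ᶠ n : ℕ in atTop,
      x ∉ {x : ℕ → α | (γ + 2 * ε) * (n * M : ℕ) ≤ X (wd x (n * M))} := by
    refine ae_eventually_notMem ?_
    have h1 : ∀ n : ℕ, ν {x : ℕ → α | (γ + 2 * ε) * (n * M : ℕ) ≤ X (wd x (n * M))} ≤
        ENNReal.ofReal (B * q ^ n) := by
      intro n
      rw [← ofReal_measureReal]
      refine ENNReal.ofReal_le_ofReal ?_
      refine (le_of_eq ?_).trans (htail n)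
      exact measure_wd hν (n * M) (fun w => (γ + 2 * ε) * (n * M : ℕ) ≤ X w)
    refine ne_top_of_le_ne_top ?_ (ENNReal.tsum_le_tsum h1)
    have h2 : Summable fun n : ℕ => B * q ^ n := (summable_geometric_of_lt_one hq0 hq1).mul_left B
    exact h2.tsum_ofReal_ne_top
  filter_upwards [hbc] with x hx
  have hMpos : (0 : ℝ) < M := by exact_mod_cast hM
  have hdiv : Tendsto (fun N : ℕ => N / M) atTop atTop := Nat.tendsto_div_const_atTop hM.ne'
  have h1 := hdiv.eventually hx
  have h2 : ∀ᶠ N : ℕ in atTop, D * (M + 1) / ε ≤ (N : ℝ) :=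
    tendsto_natCast_atTop_atTop.eventually_ge_atTop _
  filter_upwards [h1, h2] with N hN1 hN2
  simp only [not_le] at hN1
  rw [div_le_iff₀ hε] at hN2
  have h3 : wd x N = wd x (N / M * M) ++ wd (fun j => x (N / M * M + j)) (N % M) := by
    rw [← wd_add]
    congr 1
    exact (Nat.div_add_mod' N M).symm
  rw [h3]
  refine (hXsub _ _).trans ?_
  have h4 := hX1 (wd (fun j => x (N / M * M + j)) (N % M))
  rw [wd_length] at h4
  have h5 : ((N % M : ℕ) : ℝ) ≤ M := by exact_mod_cast (Nat.mod_lt N hM).le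
  have h6 : ((N / M * M : ℕ) : ℝ) ≤ N := by exact_mod_cast Nat.div_mul_le_self N M
  have h7 : D * ((N % M : ℕ) + 1 : ℝ) ≤ D * (M + 1) := by gcongr
  have h8 : (γ + 2 * ε) * ((N / M * M : ℕ) : ℝ) ≤ (γ + 2 * ε) * N := by gcongr
  nlinarith

/-- Almost sure upper bound. -/
lemma upper (hμ0 : ∀ w, 0 ≤ μ w) (hμ1 : μ [] = 1)
    (hμr : ∀ w, ∑ s, μ (w ++ [s]) = μ w)
    {C0 ρ D γ : ℝ} (hC0 : 0 ≤ C0) (hρ0 : 0 ≤ ρ) (hρ : ρ < 1) (hD : 1 ≤ D) (hγ : 0 ≤ γ)
    (hmix : ∀ k u v, wsum k (fun g => μ (u ++ g ++ v)) ≤ (1 + C0 * ρ ^ k) * μ u * μ v)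
    (hX0 : ∀ w, 0 ≤ X w)
    (hX1 : ∀ w, X w ≤ D * (w.length + 1))
    (hXsub : ∀ u v, X (u ++ v) ≤ X u + X v)
    (hlim : Tendsto (fun n : ℕ => av μ X n / n) atTop (𝓝 γ))
    (hν : ∀ w, ν.real {x | wd x w.length = w} = μ w) :
    ∀ᵐ x ∂ν, ∀ ε > 0, ∀ᶠ N : ℕ in atTop, X (wd x N) ≤ (γ + ε) * N := by
  have h1 : ∀ᵐ x ∂ν, ∀ m : ℕ, ∀ᶠ N : ℕ in atTop,
      X (wd x N) ≤ (γ + 3 * (1 / ((m : ℝ) + 1))) * N := by
    rw [ae_all_iff]
    intro m
    exact upper_eps hμ0 hμ1 hμr hC0 hρ0 hρ hD hγ (by positivity) hmix hX0 hX1 hXsub hlim hν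
  filter_upwards [h1] with x hx ε hε
  obtain ⟨m, hm⟩ := exists_nat_one_div_lt (show (0 : ℝ) < ε / 3 by positivity)
  filter_upwards [hx m] with N hN
  refine hN.trans ?_
  gcongr
  linarith

end upper

section greedy

variable {α : Type} [Fintype α] [DecidableEq α] [MeasurableSpace α] [DiscreteMeasurableSpace α]
variable {X : List α → ℝ}

/-- the sequences with no good initial block -/
def Bad (X : List α → ℝ) (c : ℝ) (K : ℕ) : Set (ℕ → α) :=
  {x | ∀ N, 1 ≤ N → N ≤ K → c * N < X (wd x N)}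

lemma greedy {c C : ℝ} (hc : 0 ≤ c) (hC : 0 ≤ C)
    (hX1 : ∀ w, X w ≤ C * (w.length + 1))
    (hXsub : ∀ u v, X (u ++ v) ≤ X u + X v) (K : ℕ) : ∀ (n : ℕ) (x : ℕ → α),
    X (wd x n) ≤ c * n + 2 * C * ∑ i ∈ Finset.range n,
      (Bad X c K).indicator (fun _ => (1 : ℝ)) (T^[i] x) + C * (K + 1) := by
  intro n
  induction n using Nat.strong_induction_on with
  | _ n ih =>
  intro x
  have hnn : ∀ (t : Finset ℕ) (y : ℕ → ℕ → α), 0 ≤ ∑ i ∈ t,
      (Bad X c K).indicator (fun _ => (1 : ℝ)) (y i) := fun t y =>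
    Finset.sum_nonneg fun i _ => Set.indicator_nonneg (fun _ _ => zero_le_one) _
  rcases Nat.eq_zero_or_pos n with rfl | hn
  · have h1 := hX1 (wd x 0)
    rw [wd_length] at h1
    have h2 : C * ((0 : ℕ) + 1 : ℝ) ≤ C * (K + 1) := by gcongr; exact Nat.zero_le K
    simp only [Finset.range_zero, Finset.sum_empty, mul_zero, CharP.cast_eq_zero, zero_add] at h1 h2 ⊢
    linarith
  -- splitting off a block
  have hsplit : ∀ N, 1 ≤ N → N ≤ n → X (wd x n) ≤ X (wd x N) + (c * ((n - N : ℕ) : ℝ) +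
      2 * C * ∑ i ∈ Finset.range (n - N),
        (Bad X c K).indicator (fun _ => (1 : ℝ)) (T^[N + i] x) + C * (K + 1)) := by
    intro N hN1 hN2
    have h1 : n = N + (n - N) := by omega
    have h2 : wd x n = wd x N ++ wd (T^[N] x) (n - N) := by
      conv_lhs => rw [h1]
      rw [wd_add, T_iterate]
    have h3 := ih (n - N) (by omega) (T^[N] x)
    simp only [← Function.iterate_add_apply] at h3
    have h4 := hXsub (wd x N) (wd (T^[N] x) (n - N))
    rw [← h2] at h4
    have h5 : ∀ i, i + N = N + i := fun i => add_comm _ _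
    simp only [h5] at h3
    linarith
  have hsum : ∀ N, N ≤ n → ∑ i ∈ Finset.range n,
      (Bad X c K).indicator (fun _ => (1 : ℝ)) (T^[i] x) = ∑ i ∈ Finset.range N,
      (Bad X c K).indicator (fun _ => (1 : ℝ)) (T^[i] x) + ∑ i ∈ Finset.range (n - N),
        (Bad X c K).indicator (fun _ => (1 : ℝ)) (T^[N + i] x) := by
    intro N hN
    rw [← Finset.sum_range_add, Nat.add_sub_cancel' hN]
  by_cases hbad : x ∈ Bad X c K
  · have h1 := hsplit 1 le_rfl hn
    have h2 := hX1 (wd x 1)
    rw [wd_length] at h2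
    rw [hsum 1 hn]
    have h3 : ∑ i ∈ Finset.range 1,
      (Bad X c K).indicator (fun _ => (1 : ℝ)) (T^[i] x) = 1 := by
      simp [Set.indicator_of_mem hbad]
    rw [h3]
    have h4 : ((n - 1 : ℕ) : ℝ) ≤ n := by exact_mod_cast Nat.sub_le n 1
    have h5 : c * ((n - 1 : ℕ) : ℝ) ≤ c * n := by gcongr
    push_cast at h2
    linarith
  · have hex : ∃ N, 1 ≤ N ∧ N ≤ K ∧ X (wd x N) ≤ c * N := by
      unfold Bad at hbad
      simp only [Set.mem_ofPred_eq] at hbad
      push Not at hbad
      exact hbad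
    obtain ⟨N, hN1, hNK, hN⟩ := hex
    by_cases hNn : N ≤ n
    · have h1 := hsplit N hN1 hNn
      rw [hsum N hNn]
      have h2 := hnn (Finset.range N) (fun i => T^[i] x)
      have h3 : (n : ℝ) = N + ((n - N : ℕ) : ℝ) := by
        rw [Nat.cast_sub hNn]; ring
      have h4 : c * (n : ℝ) = c * N + c * ((n - N : ℕ) : ℝ) := by rw [h3]; ring
      have h5 : 0 ≤ 2 * C * ∑ i ∈ Finset.range N,
        (Bad X c K).indicator (fun _ => (1 : ℝ)) (T^[i] x) := by positivity
      rw [mul_add]
      linarith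
    · have h1 := hX1 (wd x n)
      rw [wd_length] at h1
      have h2 : (n : ℝ) ≤ K := by
        have : n ≤ K := by omega
        exact_mod_cast this
      have h3 : C * ((n : ℝ) + 1) ≤ C * (K + 1) := by gcongr
      have h4 := hnn (Finset.range n) (fun i => T^[i] x)
      have h5 : 0 ≤ 2 * C * ∑ i ∈ Finset.range n,
        (Bad X c K).indicator (fun _ => (1 : ℝ)) (T^[i] x) := by positivity
      have h6 : 0 ≤ c * (n : ℝ) := by positivity
      linarith

end greedy

section lower

variable {α : Type} [Fintype α] [DecidableEq α] [MeasurableSpace α] [DiscreteMeasurableSpace α]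
variable {ν : Measure (ℕ → α)} [IsProbabilityMeasure ν] {μ X : List α → ℝ}

/-- the sequences with lower growth rate smaller than `c` -/
def Low (X : List α → ℝ) (c : ℝ) : Set (ℕ → α) :=
  {x | ∃ c' : ℚ, (c' : ℝ) < c ∧ ∃ᶠ n : ℕ in atTop, X (wd x n) ≤ c' * n}

lemma measurableSet_wd (n : ℕ) (p : List α → Prop) : MeasurableSet {x : ℕ → α | p (wd x n)} :=
  measurable_wd n p (MeasurableSpace.measurableSet_top (s := {q : Prop | q}))

lemma measurableSet_Low (X : List α → ℝ) (c : ℝ) : MeasurableSet (Low X c) := by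
  have h : Low X c = ⋃ (c' : ℚ) (_ : (c' : ℝ) < c), ⋂ (a : ℕ), ⋃ (n : ℕ) (_ : a ≤ n),
      {x : ℕ → α | X (wd x n) ≤ c' * n} := by
    ext x
    simp only [Low, Set.mem_ofPred_eq, frequently_atTop, Set.mem_iUnion, Set.mem_iInter,
      exists_prop]
  rw [h]
  refine MeasurableSet.iUnion fun c' => MeasurableSet.iUnion fun _ => MeasurableSet.iInter fun a =>
    MeasurableSet.iUnion fun n => MeasurableSet.iUnion fun _ => ?_
  exact measurableSet_wd n (fun w => X w ≤ c' * n)

lemma measurableSet_Bad (X : List α → ℝ) (c : ℝ) (K : ℕ) : MeasurableSet (Bad X c K) := by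
  have h : Bad X c K = ⋂ (N : ℕ) (_ : 1 ≤ N) (_ : N ≤ K),
      {x : ℕ → α | c * N < X (wd x N)} := by
    ext x
    simp only [Bad, Set.mem_ofPred_eq, Set.mem_iInter]
  rw [h]
  refine MeasurableSet.iInter fun N => MeasurableSet.iInter fun _ => MeasurableSet.iInter fun _ => ?_
  exact measurableSet_wd N (fun w => c * N < X w)

lemma T_mem_Low {C : ℝ} (hX1 : ∀ w, X w ≤ C * (w.length + 1))
    (hXsub : ∀ u v, X (u ++ v) ≤ X u + X v)
    (hXinv : ∀ u v, X v ≤ X (u ++ v) + C * (u.length + 1)) (c : ℝ) (x : ℕ → α) :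
    T x ∈ Low X c ↔ x ∈ Low X c := by
  have hw : ∀ n, wd x (n + 1) = [x 0] ++ wd (T x) n := fun n => wd_succ' x n
  constructor
  · rintro ⟨c', hc', hf⟩
    obtain ⟨c'', h1, h2⟩ := exists_rat_btwn hc'
    refine ⟨c'', h2, ?_⟩
    rw [frequently_atTop] at hf ⊢
    intro a
    obtain ⟨N0, hN0⟩ := exists_nat_ge ((2 * C - c'') / (c'' - c' : ℝ))
    obtain ⟨b, hb, hb2⟩ := hf (max a N0)
    refine ⟨b + 1, by have := le_max_left a N0; omega, ?_⟩
    have h3 := hXsub [x 0] (wd (T x) b)
    rw [← hw] at h3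
    have h4 := hX1 [x 0]
    simp only [List.length_singleton, Nat.cast_one] at h4
    have h5 : (2 * C - c'') / (c'' - c' : ℝ) ≤ b :=
      hN0.trans (by exact_mod_cast (le_max_right a N0).trans hb)
    rw [div_le_iff₀ (by linarith)] at h5
    push_cast
    linarith
  · rintro ⟨c', hc', hf⟩
    obtain ⟨c'', h1, h2⟩ := exists_rat_btwn hc'
    refine ⟨c'', h2, ?_⟩
    rw [frequently_atTop] at hf ⊢
    intro a
    obtain ⟨N0, hN0⟩ := exists_nat_ge ((c' + 2 * C) / (c'' - c' : ℝ))
    obtain ⟨b, hb, hb2⟩ := hf (max a N0 + 1)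
    obtain ⟨n, rfl⟩ : ∃ n, b = n + 1 := ⟨b - 1, by omega⟩
    refine ⟨n, by have := le_max_left a N0; omega, ?_⟩
    have h3 := hXinv [x 0] (wd (T x) n)
    rw [← hw] at h3
    simp only [List.length_singleton, Nat.cast_one] at h3
    have h5 : (c' + 2 * C) / (c'' - c' : ℝ) ≤ n :=
      hN0.trans (by
        have : N0 ≤ n := by have := le_max_right a N0; omega
        exact_mod_cast this)
    rw [div_le_iff₀ (by linarith)] at h5
    push_cast at hb2
    linarith

lemma integrable_wd (n : ℕ) (g : List α → ℝ) : Integrable (fun x => g (wd x n)) ν := by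
  have : IsProbabilityMeasure (ν.map (prj (α := α) n)) :=
    Measure.isProbabilityMeasure_map (measurable_prj n).aemeasurable
  have h1 : Integrable (fun v : Fin n → α => g (List.ofFn v)) (ν.map (prj n)) :=
    Integrable.of_finite
  have h2 := h1.comp_measurable (measurable_prj n)
  refine h2.congr (Eventually.of_forall fun x => ?_)
  simp only [Function.comp_apply, wd_eq_ofFn]
  rfl

lemma delta_tendsto {c : ℝ} :
    Tendsto (fun K : ℕ => ν.real (Low X c ∩ Bad X c K)) atTop (𝓝 0) := by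
  have h1 : Tendsto (fun K : ℕ => ν (Low X c ∩ Bad X c K)) atTop
      (𝓝 (ν (⋂ K, Low X c ∩ Bad X c K))) := by
    refine tendsto_measure_iInter_atTop
      (fun K => ((measurableSet_Low X c).inter (measurableSet_Bad X c K)).nullMeasurableSet)
      ?_ ⟨0, measure_ne_top _ _⟩
    intro K K' hKK x hx
    exact ⟨hx.1, fun N h1 h2 => hx.2 N h1 (h2.trans hKK)⟩
  have h2 : (⋂ K, Low X c ∩ Bad X c K) = ∅ := by
    rw [Set.eq_empty_iff_forall_notMem]
    intro x hx
    rw [Set.mem_iInter] at hx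
    obtain ⟨c', hc', hf⟩ := (hx 0).1
    rw [frequently_atTop] at hf
    obtain ⟨b, hb, hb2⟩ := hf 1
    have h3 := (hx b).2 b hb le_rfl
    have h4 : (c' : ℝ) * b ≤ c * b := by gcongr
    linarith
  rw [h2, measure_empty] at h1
  have h3 := (ENNReal.tendsto_toReal ENNReal.zero_ne_top).comp h1
  simpa [Function.comp_def, measureReal_def] using h3

/-- The key estimate. -/
lemma lower_real (hν : ∀ w, ν.real {x | wd x w.length = w} = μ w)
    (hμl : ∀ w, ∑ s, μ (s :: w) = μ w) {C c γ : ℝ} (hC : 0 ≤ C)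
    (hX1 : ∀ w, X w ≤ C * (w.length + 1))
    (hXsub : ∀ u v, X (u ++ v) ≤ X u + X v)
    (hXinv : ∀ u v, X v ≤ X (u ++ v) + C * (u.length + 1))
    (hle : ∀ n : ℕ, 1 ≤ n → γ * n ≤ av μ X n)
    (hup : ∀ᵐ x ∂ν, ∀ ε > 0, ∀ᶠ N : ℕ in atTop, X (wd x N) ≤ (γ + ε) * N)
    (hc : 0 ≤ c) (hcγ : c < γ) : ν (Low X c) = 0 := by
  have hT := shift_preserving hν hμl
  set A := Low X c with hA
  have hAm : MeasurableSet A := measurableSet_Low X c
  have hTA : ∀ i : ℕ, (T^[i]) ⁻¹' A = A := by
    intro i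
    induction i with
    | zero => rfl
    | succ i ih =>
      ext x
      rw [Set.mem_preimage, Function.iterate_succ_apply]
      have h1 : T^[i] (T x) ∈ A ↔ T x ∈ A := by
        rw [← Set.mem_preimage, ih]
      rw [h1]
      exact T_mem_Low hX1 hXsub hXinv c x
  -- the error term
  set h : ℕ → (ℕ → α) → ℝ := fun n x => max (X (wd x n) / n - γ) 0 with hh
  have hhint : ∀ n, Integrable (h n) ν := fun n =>
    integrable_wd n (fun w => max (X w / n - γ) 0)
  have hlim0 : Tendsto (fun n => ∫ x, h n x ∂ν) atTop (𝓝 0) := by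
    have h1 : Tendsto (fun n => ∫ x, h n x ∂ν) atTop (𝓝 (∫ _, (0 : ℝ) ∂ν)) := by
      refine tendsto_integral_of_dominated_convergence (fun _ => 2 * C)
        (fun n => (hhint n).aestronglyMeasurable) (integrable_const _) ?_ ?_
      · intro n
        refine Eventually.of_forall fun x => ?_
        rw [Real.norm_eq_abs, abs_of_nonneg (le_max_right _ _)]
        refine max_le ?_ (by positivity)
        rcases Nat.eq_zero_or_pos n with rfl | hn
        · simp only [CharP.cast_eq_zero, div_zero, zero_sub]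
          linarith
        · have hn' : (1 : ℝ) ≤ n := by exact_mod_cast hn
          have h2 := hX1 (wd x n)
          rw [wd_length] at h2
          have h3 : X (wd x n) / n ≤ 2 * C := by
            rw [div_le_iff₀ (by linarith)]
            nlinarith
          linarith
      · filter_upwards [hup] with x hx
        rw [Metric.tendsto_atTop]
        intro ε hε
        obtain ⟨N, hN⟩ := eventually_atTop.1 (hx (ε / 2) (by positivity))
        refine ⟨max N 1, fun n hn => ?_⟩
        have h2 := hN n ((le_max_left _ _).trans hn)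
        have hn' : (1 : ℝ) ≤ n := by exact_mod_cast (le_max_right N 1).trans hn
        rw [Real.dist_eq, sub_zero, abs_of_nonneg (le_max_right _ _)]
        refine lt_of_le_of_lt (max_le ?_ (by positivity : (0 : ℝ) ≤ ε / 2)) (by linarith)
        have h3 : X (wd x n) / n ≤ γ + ε / 2 := by
          rw [div_le_iff₀ (by linarith)]
          exact h2
        linarith
    simpa using h1
  -- the main inequality
  have hmain : ∀ (K n : ℕ), 1 ≤ n → γ ≤ c * ν.real A + 2 * C * ν.real (A ∩ Bad X c K) +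
      C * (K + 1) / n + γ * (1 - ν.real A) + ∫ x, h n x ∂ν := by
    intro K n hn
    have hn' : (1 : ℝ) ≤ n := by exact_mod_cast hn
    have hn0 : (0 : ℝ) < n := by linarith
    have hXint : Integrable (fun x => X (wd x n)) ν := integrable_wd n X
    have h1 := hle n hn
    have h2 : av μ X n = ∫ x in A, X (wd x n) ∂ν + ∫ x in Aᶜ, X (wd x n) ∂ν := by
      rw [integral_add_compl hAm hXint, integral_wd hν]
      rfl
    have hind : ∀ i : ℕ, Integrable (fun x : ℕ → α =>
        (Bad X c K).indicator (fun _ => (1 : ℝ)) (T^[i] x)) ν := by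
      intro i
      have h3 : Integrable ((Bad X c K).indicator (fun _ => (1 : ℝ))) ν :=
        (integrable_const 1).indicator (measurableSet_Bad X c K)
      exact (hT.iterate i).integrable_comp_of_integrable h3
    have hind2 : ∀ i : ℕ, ∫ x in A, (Bad X c K).indicator (fun _ => (1 : ℝ)) (T^[i] x) ∂ν =
        ν.real (A ∩ Bad X c K) := by
      intro i
      have hTm : Measurable (T^[i] : (ℕ → α) → (ℕ → α)) := (hT.iterate i).measurable
      have h4 : (fun x : ℕ → α => (Bad X c K).indicator (fun _ => (1 : ℝ)) (T^[i] x)) =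
          ((T^[i]) ⁻¹' (Bad X c K)).indicator (fun _ => (1 : ℝ)) := by
        funext x
        rfl
      rw [h4, setIntegral_indicator (hTm (measurableSet_Bad X c K)), setIntegral_const, smul_eq_mul,
        mul_one]
      have h5 : A ∩ T^[i] ⁻¹' Bad X c K = T^[i] ⁻¹' (A ∩ Bad X c K) := by
        rw [Set.preimage_inter, hTA]
      rw [h5, measureReal_def, measureReal_def,
        (hT.iterate i).measure_preimage (hAm.inter (measurableSet_Bad X c K)).nullMeasurableSet]
    have h3 : ∫ x in A, X (wd x n) ∂ν ≤ (c * n + C * (K + 1)) * ν.real A +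
        2 * C * (n * ν.real (A ∩ Bad X c K)) := by
      calc ∫ x in A, X (wd x n) ∂ν ≤ ∫ x in A, ((c * n + C * (K + 1)) +
            2 * C * ∑ i ∈ Finset.range n,
              (Bad X c K).indicator (fun _ => (1 : ℝ)) (T^[i] x)) ∂ν := by
            refine integral_mono hXint.integrableOn ?_ fun x => ?_
            · exact ((integrable_const _).add
                ((integrable_finsetSum _ fun i _ => hind i).const_mul _)).integrableOn
            · have := greedy hc hC hX1 hXsub K n x
              simp only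
              linarith
        _ = _ := by
            rw [integral_add (integrable_const _)
              ((integrable_finsetSum _ fun i _ => hind i).const_mul _).integrableOn,
              integral_const_mul, integral_finsetSum _ (fun i _ => (hind i).integrableOn),
              setIntegral_const, smul_eq_mul]
            simp only [hind2, Finset.sum_const, Finset.card_range, nsmul_eq_mul]
            ring
    have h4 : ∫ x in Aᶜ, X (wd x n) ∂ν ≤ γ * n * (1 - ν.real A) + n * ∫ x, h n x ∂ν := by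
      calc ∫ x in Aᶜ, X (wd x n) ∂ν ≤ ∫ x in Aᶜ, (γ * n + n * h n x) ∂ν := by
            refine integral_mono hXint.integrableOn ?_ fun x => ?_
            · exact ((integrable_const _).add ((hhint n).const_mul _)).integrableOn
            · have h5 : X (wd x n) / n - γ ≤ h n x := le_max_left _ _
              have h6 : X (wd x n) / n ≤ γ + h n x := by linarith
              rw [div_le_iff₀ hn0] at h6
              simp only
              linarith
        _ = γ * n * (1 - ν.real A) + n * ∫ x in Aᶜ, h n x ∂ν := by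
            rw [integral_add (integrable_const _) ((hhint n).const_mul _).integrableOn,
              setIntegral_const, smul_eq_mul, probReal_compl_eq_one_sub hAm, integral_const_mul]
            ring
        _ ≤ _ := by
            have h7 : ∫ x in Aᶜ, h n x ∂ν ≤ ∫ x, h n x ∂ν :=
              setIntegral_le_integral (hhint n) (Eventually.of_forall fun x => le_max_right _ _)
            gcongr
    have hA1 : ν.real A ≤ 1 := measureReal_le_one
    have h5 : C * (K + 1) * ν.real A ≤ C * (K + 1) := by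
      have : 0 ≤ C * ((K : ℝ) + 1) := by positivity
      nlinarith
    have h6 : γ * n ≤ (c * ν.real A + 2 * C * ν.real (A ∩ Bad X c K) +
      C * (K + 1) / n + γ * (1 - ν.real A) + ∫ x, h n x ∂ν) * n := by
      have h7 : C * (K + 1) / n * n = C * ((K : ℝ) + 1) := by field_simp
      nlinarith
    exact le_of_mul_le_mul_right h6 hn0
  -- limits
  have hlimn : ∀ K : ℕ, γ ≤ c * ν.real A + 2 * C * ν.real (A ∩ Bad X c K) +
      0 + γ * (1 - ν.real A) + 0 := by
    intro K
    have hl : Tendsto (fun n : ℕ => c * ν.real A +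
      2 * C * ν.real (A ∩ Bad X c K) + C * (K + 1) / n + γ * (1 - ν.real A) + ∫ x, h n x ∂ν) atTop
      (𝓝 (c * ν.real A + 2 * C * ν.real (A ∩ Bad X c K) + 0 + γ * (1 - ν.real A) + 0)) :=
      ((tendsto_const_nhds.add (tendsto_const_div_atTop_nhds_zero_nat _)).add
        tendsto_const_nhds).add hlim0
    refine ge_of_tendsto hl ?_
    filter_upwards [eventually_ge_atTop 1] with n hn using hmain K n hn
  have hlimK : γ ≤ c * ν.real A + 2 * C * 0 + 0 + γ * (1 - ν.real A) + 0 := by
    have hl : Tendsto (fun K : ℕ => c * ν.real A +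
      2 * C * ν.real (A ∩ Bad X c K) + 0 + γ * (1 - ν.real A) + 0) atTop
      (𝓝 (c * ν.real A + 2 * C * 0 + 0 + γ * (1 - ν.real A) + 0)) :=
      (((tendsto_const_nhds.add (delta_tendsto.const_mul (2 * C))).add
        tendsto_const_nhds).add tendsto_const_nhds).add tendsto_const_nhds
    exact ge_of_tendsto' hl hlimn
  have h7 : (γ - c) * ν.real A ≤ 0 := by linarith
  have h8 : ν.real A = 0 := by
    have h9 : 0 ≤ ν.real A := measureReal_nonneg
    have h10 : 0 < γ - c := by linarith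
    nlinarith
  exact (measureReal_eq_zero_iff (measure_ne_top _ _)).1 h8

end lower

end KingmanAux

universe u

theorem kingman {α : Type} [Fintype α] [DecidableEq α] [MeasurableSpace α]
    [DiscreteMeasurableSpace α]
    (μ : List α → ℝ) (hμ0 : ∀ w, 0 ≤ μ w) (hμ1 : μ [] = 1)
    (hμr : ∀ w, ∑ s, μ (w ++ [s]) = μ w) (hμl : ∀ w, ∑ s, μ (s :: w) = μ w)
    (C0 ρ : ℝ) (hC0 : 0 ≤ C0) (hρ0 : 0 ≤ ρ) (hρ : ρ < 1)
    (hmix : ∀ k u v, wsum k (fun g => μ (u ++ g ++ v)) ≤ (1 + C0 * ρ ^ k) * μ u * μ v)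
    (X : List α → ℝ) (C : ℝ) (hC : 0 ≤ C) (hX0 : ∀ w, 0 ≤ X w)
    (hX1 : ∀ w, X w ≤ C * (w.length + 1))
    (hXsub : ∀ u v, X (u ++ v) ≤ X u + X v)
    (hXinv : ∀ u v, X v ≤ X (u ++ v) + C * (u.length + 1)) :
    ∃ γ : ℝ, ∀ (Ω : Type u) [MeasurableSpace Ω] (P : Measure Ω) [IsProbabilityMeasure P]
      (s : ℕ → Ω → α), (∀ n, Measurable (s n)) →
      (∀ w : List α, P.real {ω | wordFrom s 0 w.length ω = w} = μ w) →
      ∀ᵐ ω ∂P, Tendsto (fun n : ℕ => X (wordFrom s 0 n ω) / n) atTop (𝓝 γ) := by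
  open KingmanAux in
  have hsub : Subadditive (av μ X) := av_subadditive hμ0 hμr hμl hXsub
  have hbdd := av_bdd (X := X) hμ0 hX0
  set γ := hsub.lim with hγdef
  have hlim : Tendsto (fun n : ℕ => av μ X n / n) atTop (𝓝 γ) := hsub.tendsto_lim hbdd
  have hγ : 0 ≤ γ := ge_of_tendsto' hlim fun n =>
    div_nonneg (av_nonneg hμ0 hX0 n) (Nat.cast_nonneg n)
  have hle : ∀ n : ℕ, 1 ≤ n → γ * n ≤ av μ X n := by
    intro n hn
    have h1 := hsub.lim_le_div hbdd (n := n) (by omega)
    have hn' : (0 : ℝ) < n := by exact_mod_cast hn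
    rwa [le_div_iff₀ hn'] at h1
  have hX1' : ∀ w, X w ≤ (C + 1) * (w.length + 1) := by
    intro w
    refine (hX1 w).trans ?_
    gcongr
    linarith
  refine ⟨γ, ?_⟩
  intro Ω _ P _ s hs hP
  set f : Ω → ℕ → α := fun ω n => s n ω with hf
  have hfm : Measurable f := measurable_pi_lambda _ hs
  set ν : Measure (ℕ → α) := P.map f with hνdef
  have hprob : IsProbabilityMeasure ν := Measure.isProbabilityMeasure_map hfm.aemeasurable
  have hwd : ∀ (n : ℕ) (ω : Ω), wordFrom s 0 n ω = wd (f ω) n := by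
    intro n ω
    simp only [wordFrom, wd, zero_add, hf]
  have hν : ∀ w, ν.real {x | wd x w.length = w} = μ w := by
    intro w
    rw [← hP w, measureReal_def, measureReal_def, hνdef, Measure.map_apply hfm
      (measurableSet_wd w.length (fun w' => w' = w))]
    congr 2
    ext ω
    simp only [Set.mem_preimage, Set.mem_ofPred_eq, hwd]
  have hup := upper hμ0 hμ1 hμr hC0 hρ0 hρ (by linarith) hγ hmix hX0 hX1' hXsub hlim hν
  have hlow : ∀ᵐ x ∂ν, ∀ c : ℚ, 0 ≤ (c : ℝ) → (c : ℝ) < γ → x ∉ Low X c := by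
    rw [ae_all_iff]
    intro c
    by_cases h1 : 0 ≤ (c : ℝ) ∧ (c : ℝ) < γ
    · have h2 := lower_real hν hμl hC hX1 hXsub hXinv hle hup h1.1 h1.2
      have h3 : ∀ᵐ x ∂ν, x ∉ Low X c := measure_eq_zero_iff_ae_notMem.1 h2
      filter_upwards [h3] with x hx _ _ using hx
    · exact Eventually.of_forall fun x h2 h3 => absurd ⟨h2, h3⟩ h1
  have hfin : ∀ᵐ x ∂ν, Tendsto (fun n : ℕ => X (wd x n) / n) atTop (𝓝 γ) := by
    filter_upwards [hup, hlow] with x hx1 hx2
    rw [tendsto_order]
    constructor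
    · intro a ha
      by_cases ha0 : a < 0
      · exact Eventually.of_forall fun n => lt_of_lt_of_le ha0
          (div_nonneg (hX0 _) (Nat.cast_nonneg n))
      · push Not at ha0
        obtain ⟨c2, h1, h2⟩ := exists_rat_btwn ha
        obtain ⟨c1, h3, h4⟩ := exists_rat_btwn h2
        have h5 := hx2 c1 (by linarith) h4
        simp only [Low, Set.mem_ofPred_eq, not_exists, not_and, not_frequently, not_le] at h5
        have h6 := h5 c2 (by exact_mod_cast h3)
        filter_upwards [h6, eventually_ge_atTop 1] with n hn hn1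
        have hn' : (0 : ℝ) < n := by exact_mod_cast hn1
        rw [lt_div_iff₀ hn']
        have : a * n < c2 * n := by gcongr
        linarith
    · intro a ha
      have h1 := hx1 ((a - γ) / 2) (by linarith)
      filter_upwards [h1, eventually_ge_atTop 1] with n hn hn1
      have hn' : (0 : ℝ) < n := by exact_mod_cast hn1
      rw [div_lt_iff₀ hn']
      nlinarith
  have h1 := ae_of_ae_map hfm.aemeasurable hfin
  filter_upwards [h1] with ω hω
  simpa only [hwd] using hω

end Pool.Agent.TracePoly
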