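import Pool.Agent.Work.MP_170125_pr.Escape
import Pool.Agent.Work.MP_170125_pr.Kingman

/-!
Double counting bound for the probability that a random word lies in a hyperplane.
-/

namespace Pool.Agent.TracePoly

section Words

variable {α : Type*} [Fintype α] [DecidableEq α]

/-- the finite set of words of length `n` -/
def wordsF : ℕ → Finset (List α)
  | 0 => {[]}
  | n + 1 => (Finset.univ ×ˢ wordsF n).image (fun x : α × List α => x.1 :: x.2)

lemma mem_wordsF (n : ℕ) (w : List α) : w ∈ (wordsF n : Finset (List α)) ↔ w.length = n := by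
  induction n generalizing w with
  | zero => simp [wordsF]
  | succ n ih =>
    simp only [wordsF, Finset.mem_image, Finset.mem_product, Finset.mem_univ, true_and,
      Prod.exists]
    constructor
    · rintro ⟨a, b, hb, rfl⟩
      simp [(ih b).mp hb]
    · intro h
      cases w with
      | nil => simp at h
      | cons a b => exact ⟨a, b, (ih b).mpr (by simpa using h), rfl⟩

lemma wsum_eq_sum (n : ℕ) (g : List α → ℝ) : wsum n g = ∑ w ∈ wordsF n, g w := by
  induction n generalizing g with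
  | zero => simp [wsum, wordsF]
  | succ n ih =>
    simp only [wsum, wordsF]
    rw [Finset.sum_image, Finset.sum_product]
    · exact Finset.sum_congr rfl fun a _ => ih _
    · rintro ⟨a, b⟩ - ⟨c, d⟩ - h
      simpa using h

omit [DecidableEq α] in
lemma wsum_add (n m : ℕ) (g : List α → ℝ) :
    wsum (n + m) g = wsum n (fun u => wsum m (fun v => g (u ++ v))) := by
  induction n generalizing g with
  | zero => simp [wsum]
  | succ n ih =>
    rw [show n + 1 + m = (n + m) + 1 by ring]
    simp only [wsum]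
    exact Finset.sum_congr rfl fun a _ => ih _

end Words

open Classical in
theorem escape_prob (μ : List (Fin 2 × Bool) → ℝ) (hμ0 : ∀ w, 0 ≤ μ w)
    (hred : ∀ w, μ w ≠ 0 → FreeGroup.IsReduced w) (K : ℝ) (hK : 0 ≤ K)
    (hprod : ∀ u v, μ (u ++ v) ≤ K * μ u * μ v) (k : ℕ) (hsum : wsum k μ = 1)
    (M : ℝ) (hM : ∀ w : List (Fin 2 × Bool), w.length = k → μ w ≤ M)
    (S : Set (List (Fin 2 × Bool)))
    (hS : ∀ u : Fin 4 → List (Fin 2 × Bool), (∀ i, u i ∈ S) → (rowMat u).det = 0) :
    wsum (k + k) (fun w => if w ∈ S then μ w else 0) ≤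
      K * Real.sqrt (M * (4 * k + 2)) := by
  obtain ⟨a, b, ha, hb, hlin, hfree⟩ := exists_free_quaternions
  set W : Finset (List (Fin 2 × Bool)) := wordsF k with hW
  have hsumW : ∑ w ∈ W, μ w = 1 := by rw [← wsum_eq_sum]; exact hsum
  have hMnn : 0 ≤ M := (hμ0 _).trans (hM (List.replicate k (0, true)) (by simp))
  -- indicator
  set I : List (Fin 2 × Bool) → ℝ := fun w => if w ∈ S then 1 else 0 with hI
  have hI0 : ∀ w, 0 ≤ I w := by intro w; simp only [hI]; split_ifs <;> norm_num
  have hI1 : ∀ w, I w ≤ 1 := by intro w; simp only [hI]; split_ifs <;> norm_num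
  have hII : ∀ w, I w * I w = I w := by intro w; simp only [hI]; split_ifs <;> norm_num
  set F : List (Fin 2 × Bool) → ℝ := fun q => ∑ p ∈ W, μ p * I (p ++ q) with hF
  have h1 : wsum (k + k) (fun w => if w ∈ S then μ w else 0) ≤ K * ∑ q ∈ W, μ q * F q := by
    rw [wsum_add, wsum_eq_sum]
    simp_rw [wsum_eq_sum]
    rw [Finset.sum_comm, Finset.mul_sum]
    apply Finset.sum_le_sum
    intro q _
    rw [hF]
    simp only
    rw [Finset.mul_sum, Finset.mul_sum]
    apply Finset.sum_le_sum
    intro p _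
    have h2 := hprod p q
    have h3 := hμ0 p
    have h4 := hμ0 q
    by_cases hpq : p ++ q ∈ S
    · simp only [hpq, if_true, hI]
      calc μ (p ++ q) ≤ K * μ p * μ q := h2
        _ = K * (μ q * (μ p * 1)) := by ring
    · simp only [hpq, if_false, hI]
      simp
  -- Cauchy-Schwarz
  have h2 : (∑ q ∈ W, μ q * F q) ^ 2 ≤ ∑ q ∈ W, μ q * F q ^ 2 := by
    have hcs := Finset.sum_mul_sq_le_sq_mul_sq W (fun q => Real.sqrt (μ q))
      (fun q => Real.sqrt (μ q) * F q)
    have e1 : ∀ q ∈ W, Real.sqrt (μ q) * (Real.sqrt (μ q) * F q) = μ q * F q := by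
      intro q _
      rw [← mul_assoc, Real.mul_self_sqrt (hμ0 q)]
    have e2 : ∀ q ∈ W, Real.sqrt (μ q) ^ 2 = μ q := fun q _ => Real.sq_sqrt (hμ0 q)
    have e3 : ∀ q ∈ W, (Real.sqrt (μ q) * F q) ^ 2 = μ q * F q ^ 2 := by
      intro q _
      rw [mul_pow, Real.sq_sqrt (hμ0 q)]
    rw [Finset.sum_congr rfl e1, Finset.sum_congr rfl e2, Finset.sum_congr rfl e3, hsumW,
      one_mul] at hcs
    exact hcs
  -- expand the square
  have h3 : ∑ q ∈ W, μ q * F q ^ 2 =
      ∑ p ∈ W, ∑ p' ∈ W, μ p * μ p' * ∑ q ∈ W, μ q * (I (p ++ q) * I (p' ++ q)) := by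
    have e1 : ∀ q, μ q * F q ^ 2 =
        ∑ p ∈ W, ∑ p' ∈ W, μ p * μ p' * (μ q * (I (p ++ q) * I (p' ++ q))) := by
      intro q
      rw [hF]
      simp only
      rw [sq, Finset.sum_mul_sum, Finset.mul_sum]
      apply Finset.sum_congr rfl
      intro p _
      rw [Finset.mul_sum]
      apply Finset.sum_congr rfl
      intro p' _
      ring
    simp_rw [e1]
    rw [Finset.sum_comm]
    apply Finset.sum_congr rfl
    intro p _
    rw [Finset.sum_comm]
    apply Finset.sum_congr rfl
    intro p' _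
    rw [Finset.mul_sum]
  -- bound of inner sum
  have hG0 : ∀ p p', 0 ≤ ∑ q ∈ W, μ q * (I (p ++ q) * I (p' ++ q)) := fun p p' =>
    Finset.sum_nonneg fun q _ => mul_nonneg (hμ0 q) (mul_nonneg (hI0 _) (hI0 _))
  have hGdiag : ∀ p p', ∑ q ∈ W, μ q * (I (p ++ q) * I (p' ++ q)) ≤ 1 := by
    intro p p'
    rw [← hsumW]
    apply Finset.sum_le_sum
    intro q _
    have h4 : I (p ++ q) * I (p' ++ q) ≤ 1 := by
      have := mul_le_mul (hI1 (p ++ q)) (hI1 (p' ++ q)) (hI0 _) zero_le_one
      simpa using this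
    calc μ q * (I (p ++ q) * I (p' ++ q)) ≤ μ q * 1 := mul_le_mul_of_nonneg_left h4 (hμ0 q)
      _ = μ q := mul_one _
  have hGoff : ∀ p p', FreeGroup.IsReduced p → FreeGroup.IsReduced p' → p ≠ p' →
      ∑ q ∈ W, μ q * (I (p ++ q) * I (p' ++ q)) ≤ (4 * k + 1) * M := by
    intro p p' hp hp' hne
    set Q : Finset (List (Fin 2 × Bool)) :=
      W.filter (fun q => FreeGroup.IsReduced q ∧ p ++ q ∈ S ∧ p' ++ q ∈ S) with hQ
    have hcard : Q.card ≤ 4 * k + 1 := by
      apply few_suffixes ha hb hlin hfree k S hS p p' hp hp' hne Q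
      intro q hq
      rw [hQ, Finset.mem_filter] at hq
      exact ⟨hq.2.1, (mem_wordsF k q).mp hq.1, hq.2.2.1, hq.2.2.2⟩
    have h5 : ∑ q ∈ W, μ q * (I (p ++ q) * I (p' ++ q)) =
        ∑ q ∈ Q, μ q * (I (p ++ q) * I (p' ++ q)) := by
      symm
      apply Finset.sum_subset (Finset.filter_subset _ _)
      intro q hq hq2
      rw [Finset.mem_filter] at hq2
      push Not at hq2
      by_cases hr : FreeGroup.IsReduced q
      · by_cases h6 : p ++ q ∈ S
        · have h7 := hq2 hq hr h6
          simp [hI, h7]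
        · simp [hI, h6]
      · have h8 : μ q = 0 := by
          by_contra h9
          exact hr (hred q h9)
        rw [h8, zero_mul]
    rw [h5]
    have h6 : ∀ q ∈ Q, μ q * (I (p ++ q) * I (p' ++ q)) ≤ M := by
      intro q hq
      rw [hQ, Finset.mem_filter] at hq
      have h7 := hM q ((mem_wordsF k q).mp hq.1)
      have h8 : I (p ++ q) * I (p' ++ q) ≤ 1 := by
        have := mul_le_mul (hI1 (p ++ q)) (hI1 (p' ++ q)) (hI0 _) zero_le_one
        simpa using this
      calc μ q * (I (p ++ q) * I (p' ++ q)) ≤ μ q * 1 :=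
            mul_le_mul_of_nonneg_left h8 (hμ0 q)
        _ ≤ M := by rw [mul_one]; exact h7
    refine (Finset.sum_le_card_nsmul _ _ _ h6).trans ?_
    rw [nsmul_eq_mul]
    apply mul_le_mul_of_nonneg_right _ hMnn
    exact_mod_cast hcard
  have h4 : ∑ p ∈ W, ∑ p' ∈ W, μ p * μ p' * ∑ q ∈ W, μ q * (I (p ++ q) * I (p' ++ q)) ≤
      M * (4 * k + 2) := by
    have h5 : ∀ p ∈ W, ∀ p' ∈ W,
        μ p * μ p' * ∑ q ∈ W, μ q * (I (p ++ q) * I (p' ++ q)) ≤
          μ p * μ p' * ((4 * k + 1) * M) + (if p = p' then μ p * M else 0) := by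
      intro p hp p' hp'
      by_cases hpp : p = p'
      · subst hpp
        rw [if_pos rfl]
        have h6 := hGdiag p p
        have h7 := hM p ((mem_wordsF k p).mp hp)
        have h8 : μ p * μ p * ∑ q ∈ W, μ q * (I (p ++ q) * I (p ++ q)) ≤ μ p * M := by
          calc μ p * μ p * ∑ q ∈ W, μ q * (I (p ++ q) * I (p ++ q))
              ≤ μ p * μ p * 1 :=
                mul_le_mul_of_nonneg_left h6 (mul_nonneg (hμ0 p) (hμ0 p))
            _ ≤ μ p * M := by
                rw [mul_one]; exact mul_le_mul_of_nonneg_left h7 (hμ0 p)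
        have h9 : 0 ≤ μ p * μ p * ((4 * (k : ℝ) + 1) * M) :=
          mul_nonneg (mul_nonneg (hμ0 p) (hμ0 p)) (mul_nonneg (by positivity) hMnn)
        linarith
      · rw [if_neg hpp, add_zero]
        by_cases h6 : FreeGroup.IsReduced p
        · by_cases h7 : FreeGroup.IsReduced p'
          · exact mul_le_mul_of_nonneg_left (hGoff p p' h6 h7 hpp)
              (mul_nonneg (hμ0 p) (hμ0 p'))
          · have h8 : μ p' = 0 := by
              by_contra h9
              exact h7 (hred p' h9)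
            rw [h8]; simp
        · have h8 : μ p = 0 := by
            by_contra h9
            exact h6 (hred p h9)
          rw [h8]; simp
    refine (Finset.sum_le_sum fun p hp => Finset.sum_le_sum fun p' hp' => h5 p hp p' hp').trans ?_
    have h6 : ∀ p ∈ W, ∑ p' ∈ W, (μ p * μ p' * ((4 * (k : ℝ) + 1) * M) +
        (if p = p' then μ p * M else 0)) = μ p * ((4 * k + 1) * M) + μ p * M := by
      intro p hp
      rw [Finset.sum_add_distrib, ← Finset.sum_mul, ← Finset.mul_sum, hsumW, mul_one,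
        Finset.sum_ite_eq, if_pos hp]
    rw [Finset.sum_congr rfl h6, Finset.sum_add_distrib, ← Finset.sum_mul, ← Finset.sum_mul,
      hsumW]
    linarith
  have h5 : (∑ q ∈ W, μ q * F q) ^ 2 ≤ M * (4 * k + 2) := h2.trans (h3 ▸ h4)
  have h6 : ∑ q ∈ W, μ q * F q ≤ Real.sqrt (M * (4 * k + 2)) := Real.le_sqrt_of_sq_le h5
  exact h1.trans (mul_le_mul_of_nonneg_left h6 hK)

end Pool.Agent.TracePoly
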