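import Mathlib

/-!
Coefficient norms on multivariate integer polynomials.
-/

open MvPolynomial

namespace Pool.Agent.TracePoly

variable {σ : Type*}

/-- sum of the absolute values of the coefficients -/
noncomputable def l1 (P : MvPolynomial σ ℤ) : ℝ := ∑ m ∈ P.support, |((P.coeff m : ℤ) : ℝ)|

/-- maximum of the absolute values of the coefficients -/
noncomputable def height (P : MvPolynomial σ ℤ) : ℝ :=
  ((P.support.sup (fun m => (P.coeff m).natAbs) : ℕ) : ℝ)

lemma l1_eq_sum_of_subset (P : MvPolynomial σ ℤ) (s : Finset (σ →₀ ℕ)) (h : P.support ⊆ s) :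
    l1 P = ∑ m ∈ s, |((P.coeff m : ℤ) : ℝ)| := by
  unfold l1
  apply Finset.sum_subset h
  intro m _ hm
  rw [notMem_support_iff] at hm
  simp [hm]

lemma l1_nonneg (P : MvPolynomial σ ℤ) : 0 ≤ l1 P :=
  Finset.sum_nonneg (fun _ _ => abs_nonneg _)

@[simp] lemma l1_zero : l1 (0 : MvPolynomial σ ℤ) = 0 := by simp [l1]

lemma l1_add_le (P Q : MvPolynomial σ ℤ) : l1 (P + Q) ≤ l1 P + l1 Q := by
  classical
  rw [l1_eq_sum_of_subset (P + Q) (P.support ∪ Q.support) (support_add),
    l1_eq_sum_of_subset P (P.support ∪ Q.support) Finset.subset_union_left,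
    l1_eq_sum_of_subset Q (P.support ∪ Q.support) Finset.subset_union_right,
    ← Finset.sum_add_distrib]
  apply Finset.sum_le_sum
  intro m _
  rw [coeff_add]
  push_cast
  exact abs_add_le _ _

lemma l1_neg (P : MvPolynomial σ ℤ) : l1 (-P) = l1 P := by
  unfold l1
  rw [support_neg]
  apply Finset.sum_congr rfl
  intro m _
  rw [coeff_neg]
  push_cast
  exact abs_neg _

lemma l1_sub_le (P Q : MvPolynomial σ ℤ) : l1 (P - Q) ≤ l1 P + l1 Q := by
  rw [sub_eq_add_neg]
  exact (l1_add_le _ _).trans (by rw [l1_neg])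

lemma l1_sum_le {ι : Type*} (s : Finset ι) (f : ι → MvPolynomial σ ℤ) :
    l1 (∑ i ∈ s, f i) ≤ ∑ i ∈ s, l1 (f i) := by
  classical
  induction s using Finset.induction_on with
  | empty => simp
  | insert a s ha ih =>
    rw [Finset.sum_insert ha, Finset.sum_insert ha]
    exact (l1_add_le _ _).trans (by linarith)

lemma l1_monomial (m : σ →₀ ℕ) (c : ℤ) : l1 (monomial m c) = |(c : ℝ)| := by
  classical
  rw [l1_eq_sum_of_subset _ {m} support_monomial_subset]
  simp

@[simp] lemma l1_C (c : ℤ) : l1 (C c : MvPolynomial σ ℤ) = |(c : ℝ)| := l1_monomial 0 c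

@[simp] lemma l1_one : l1 (1 : MvPolynomial σ ℤ) = 1 := by
  have := l1_C (σ := σ) 1
  simpa using this

@[simp] lemma l1_X (i : σ) : l1 (X i : MvPolynomial σ ℤ) = 1 := by
  have := l1_monomial (Finsupp.single i 1) 1
  simpa [X] using this

lemma l1_monomial_mul_le (m : σ →₀ ℕ) (c : ℤ) (Q : MvPolynomial σ ℤ) :
    l1 (monomial m c * Q) ≤ |(c : ℝ)| * l1 Q := by
  classical
  conv_lhs => rw [Q.as_sum, Finset.mul_sum]
  refine (l1_sum_le _ _).trans ?_
  unfold l1
  rw [Finset.mul_sum]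
  apply Finset.sum_le_sum
  intro n _
  rw [monomial_mul]
  have := l1_monomial (m + n) (c * Q.coeff n)
  unfold l1 at this
  rw [this]
  push_cast
  rw [abs_mul]

lemma l1_mul_le (P Q : MvPolynomial σ ℤ) : l1 (P * Q) ≤ l1 P * l1 Q := by
  classical
  conv_lhs => rw [P.as_sum, Finset.sum_mul]
  refine (l1_sum_le _ _).trans ?_
  conv_rhs => rw [l1, Finset.sum_mul]
  apply Finset.sum_le_sum
  intro n _
  exact l1_monomial_mul_le _ _ _

lemma one_le_l1 {P : MvPolynomial σ ℤ} (h : P ≠ 0) : 1 ≤ l1 P := by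
  classical
  obtain ⟨m, hm⟩ := support_nonempty.mpr h
  have h1 : |((P.coeff m : ℤ) : ℝ)| ≤ l1 P :=
    Finset.single_le_sum (f := fun m => |((P.coeff m : ℤ) : ℝ)|) (fun _ _ => abs_nonneg _) hm
  refine le_trans ?_ h1
  have h2 : P.coeff m ≠ 0 := mem_support_iff.mp hm
  rw [← Int.cast_abs]
  exact_mod_cast Int.one_le_abs h2

lemma abs_coeff_le_l1 (P : MvPolynomial σ ℤ) (m : σ →₀ ℕ) :
    |((P.coeff m : ℤ) : ℝ)| ≤ l1 P := by
  classical
  by_cases hm : m ∈ P.support
  · exact Finset.single_le_sum (f := fun m => |((P.coeff m : ℤ) : ℝ)|)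
      (fun _ _ => abs_nonneg _) hm
  · rw [notMem_support_iff] at hm
    simp [hm, l1_nonneg]

lemma height_nonneg (P : MvPolynomial σ ℤ) : 0 ≤ height P := Nat.cast_nonneg _

lemma abs_coeff_le_height (P : MvPolynomial σ ℤ) (m : σ →₀ ℕ) :
    |((P.coeff m : ℤ) : ℝ)| ≤ height P := by
  classical
  by_cases hm : m ∈ P.support
  · have := Finset.le_sup (f := fun m => (P.coeff m).natAbs) hm
    unfold height
    rw [← Int.cast_abs, Int.abs_eq_natAbs]
    exact_mod_cast this
  · rw [notMem_support_iff] at hm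
    simp [hm, height_nonneg]

lemma height_le_l1 (P : MvPolynomial σ ℤ) : height P ≤ l1 P := by
  classical
  by_cases h : P.support.Nonempty
  · obtain ⟨m, hm, hm'⟩ := Finset.exists_mem_eq_sup P.support h (fun m => (P.coeff m).natAbs)
    unfold height
    rw [hm']
    have := abs_coeff_le_l1 P m
    rw [Nat.cast_natAbs, Int.cast_abs]
    exact this
  · rw [Finset.not_nonempty_iff_eq_empty] at h
    simp [height, h, l1_nonneg]

lemma l1_le_card_mul_height (P : MvPolynomial σ ℤ) : l1 P ≤ P.support.card * height P := by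
  unfold l1
  refine (Finset.sum_le_card_nsmul _ _ _ (fun m _ => abs_coeff_le_height P m)).trans ?_
  simp

/-- on the unit torus the polynomial is bounded by `l1` -/
lemma norm_eval_le_l1 (P : MvPolynomial σ ℤ) (z : σ → ℂ) (hz : ∀ i, ‖z i‖ = 1) :
    ‖eval z (map (Int.castRingHom ℂ) P)‖ ≤ l1 P := by
  classical
  rw [eval_map, eval₂_eq]
  refine (norm_sum_le _ _).trans ?_
  unfold l1
  apply Finset.sum_le_sum
  intro m _
  rw [norm_mul, norm_prod]
  have : ∀ i ∈ m.support, ‖z i ^ m i‖ = 1 := by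
    intro i _
    rw [norm_pow, hz, one_pow]
  rw [Finset.prod_congr rfl this]
  simp

end Pool.Agent.TracePoly
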