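import Pool.Agent.Work.MP_170125_pr.Kst

/-!
The two laws on words: uniform reduced words and positive words with independent letters.
-/

namespace Pool.Agent.TracePoly

/-- the properties of the laws used in the proof -/
structure GoodLaw (μ : List (Fin 2 × Bool) → ℝ) (C0 ρ κ : ℝ) : Prop where
  nonneg : ∀ w, 0 ≤ μ w
  nil : μ [] = 1
  right : ∀ w, ∑ s, μ (w ++ [s]) = μ w
  left : ∀ w, ∑ s, μ (s :: w) = μ w
  hC0 : 0 ≤ C0
  hρ0 : 0 ≤ ρ
  hρ : ρ < 1
  mix : ∀ k u v, wsum k (fun g => μ (u ++ g ++ v)) ≤ (1 + C0 * ρ ^ k) * μ u * μ v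
  red : ∀ w, μ w ≠ 0 → FreeGroup.IsReduced w
  hκ0 : 0 ≤ κ
  hκ : κ < 1
  max : ∀ w, μ w ≤ κ ^ w.length

/-- cylinder probabilities of the uniform random infinite reduced word -/
noncomputable def redLaw (w : List (Fin 2 × Bool)) : ℝ :=
  open Classical in
  if w = [] then 1 else if FreeGroup.IsReduced w then 1 / 4 * (1 / 3) ^ (w.length - 1) else 0

/-- probability of a letter in the positive model -/
noncomputable def posLetter (p : ℝ) (s : Fin 2 × Bool) : ℝ :=
  if s = (0, true) then p else if s = (1, true) then 1 - p else 0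

/-- cylinder probabilities of a sequence of independent letters `a` (probability `p`) and `b` -/
noncomputable def posLaw (p : ℝ) (w : List (Fin 2 × Bool)) : ℝ := (w.map (posLetter p)).prod

lemma posLaw_append (p : ℝ) (u v : List (Fin 2 × Bool)) :
    posLaw p (u ++ v) = posLaw p u * posLaw p v := by
  simp [posLaw]

lemma posLaw_cons (p : ℝ) (s : Fin 2 × Bool) (v : List (Fin 2 × Bool)) :
    posLaw p (s :: v) = posLetter p s * posLaw p v := by
  simp [posLaw]

lemma sum_posLetter (p : ℝ) : ∑ s, posLetter p s = 1 := by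
  rw [Fintype.sum_prod_type]
  simp [posLetter]

lemma wsum_posLaw (p : ℝ) (k : ℕ) : wsum k (posLaw p) = 1 := by
  induction k with
  | zero => simp [wsum, posLaw]
  | succ k ih =>
    have h1 : ∀ s : Fin 2 × Bool, wsum k (fun w => posLaw p (s :: w)) = posLetter p s := by
      intro s
      rw [wsum_eq_sum]
      simp_rw [posLaw_cons]
      rw [← Finset.mul_sum, ← wsum_eq_sum]
      have h2 : wsum k (fun w => posLaw p w) = 1 := ih
      rw [h2, mul_one]
    simp only [wsum]
    simp_rw [h1]
    exact sum_posLetter p

lemma posLetter_nonneg {p : ℝ} (hp0 : 0 < p) (hp1 : p < 1) (s : Fin 2 × Bool) :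
    0 ≤ posLetter p s := by
  unfold posLetter
  split_ifs <;> linarith

lemma posLetter_le {p : ℝ} (hp0 : 0 < p) (s : Fin 2 × Bool) :
    posLetter p s ≤ max p (1 - p) := by
  unfold posLetter
  split_ifs
  · exact le_max_left _ _
  · exact le_max_right _ _
  · exact le_trans hp0.le (le_max_left _ _)

theorem goodLaw_posLaw {p : ℝ} (hp0 : 0 < p) (hp1 : p < 1) :
    GoodLaw (posLaw p) 0 0 (max p (1 - p)) where
  nonneg w := by
    unfold posLaw
    apply List.prod_nonneg
    intro x hx
    obtain ⟨s, -, rfl⟩ := List.mem_map.mp hx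
    exact posLetter_nonneg hp0 hp1 s
  nil := by simp [posLaw]
  right w := by
    simp_rw [posLaw_append]
    rw [← Finset.mul_sum]
    have : ∀ s : Fin 2 × Bool, posLaw p [s] = posLetter p s := by
      intro s; simp [posLaw]
    simp_rw [this]
    rw [sum_posLetter, mul_one]
  left w := by
    simp_rw [posLaw_cons]
    rw [← Finset.sum_mul, sum_posLetter, one_mul]
  hC0 := le_refl _
  hρ0 := le_refl _
  hρ := zero_lt_one
  mix k u v := by
    have h1 : wsum k (fun g => posLaw p (u ++ g ++ v)) = posLaw p u * posLaw p v := by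
      rw [wsum_eq_sum]
      have h2 : ∀ g : List (Fin 2 × Bool), posLaw p (u ++ g ++ v) =
          posLaw p g * (posLaw p u * posLaw p v) := by
        intro g
        rw [posLaw_append, posLaw_append]; ring
      simp_rw [h2]
      rw [← Finset.sum_mul, ← wsum_eq_sum k (fun g => posLaw p g)]
      have h3 : wsum k (fun w => posLaw p w) = 1 := wsum_posLaw p k
      rw [h3, one_mul]
    rw [h1]
    apply le_of_eq
    ring
  red w hw := by
    have h1 : ∀ s ∈ w, s.2 = true := by
      intro s hs
      by_contra h
      apply hw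
      unfold posLaw
      apply List.prod_eq_zero
      rw [List.mem_map]
      refine ⟨s, hs, ?_⟩
      unfold posLetter
      rw [if_neg, if_neg]
      · intro h2; rw [h2] at h; exact h rfl
      · intro h2; rw [h2] at h; exact h rfl
    unfold FreeGroup.IsReduced
    rw [List.isChain_iff_getElem]
    intro i hi _
    rw [h1 _ (List.getElem_mem _), h1 _ (List.getElem_mem _)]
  hκ0 := le_trans hp0.le (le_max_left _ _)
  hκ := max_lt hp1 (by linarith)
  max w := by
    induction w with
    | nil => simp [posLaw]
    | cons s w ih =>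
      rw [posLaw_cons, List.length_cons, pow_succ, mul_comm]
      apply mul_le_mul ih (posLetter_le hp0 s) (posLetter_nonneg hp0 hp1 s)
      exact pow_nonneg (le_trans hp0.le (le_max_left _ _)) _

/-! the reduced law -/

/-- two letters can follow each other in a reduced word -/
def compat (s t : Fin 2 × Bool) : Prop := s.1 = t.1 → s.2 = t.2

instance (s t : Fin 2 × Bool) : Decidable (compat s t) := by unfold compat; infer_instance

lemma isReduced_cons_cons' (s t : Fin 2 × Bool) (w : List (Fin 2 × Bool)) :
    FreeGroup.IsReduced (s :: t :: w) ↔ compat s t ∧ FreeGroup.IsReduced (t :: w) :=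
  FreeGroup.isReduced_cons_cons

lemma redLaw_nil : redLaw [] = 1 := by simp [redLaw]

lemma redLaw_singleton (s : Fin 2 × Bool) : redLaw [s] = 1 / 4 := by
  simp [redLaw, FreeGroup.IsReduced.singleton]

lemma redLaw_cons_cons (s t : Fin 2 × Bool) (w : List (Fin 2 × Bool)) :
    redLaw (s :: t :: w) = if compat s t then 1 / 3 * redLaw (t :: w) else 0 := by
  classical
  unfold redLaw
  rw [if_neg (List.cons_ne_nil s (t :: w)), if_neg (List.cons_ne_nil t w)]
  by_cases h1 : compat s t
  · by_cases h2 : FreeGroup.IsReduced (t :: w)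
    · rw [if_pos ((isReduced_cons_cons' s t w).mpr ⟨h1, h2⟩), if_pos h1, if_pos h2]
      simp only [List.length_cons, Nat.add_sub_cancel]
      rw [pow_succ]; ring
    · rw [if_neg (fun h => h2 ((isReduced_cons_cons' s t w).mp h).2), if_pos h1, if_neg h2,
        mul_zero]
  · rw [if_neg (fun h => h1 ((isReduced_cons_cons' s t w).mp h).1), if_neg h1]

lemma redLaw_nonneg (w : List (Fin 2 × Bool)) : 0 ≤ redLaw w := by
  unfold redLaw
  split_ifs <;> positivity

lemma isReduced_reverse (w : List (Fin 2 × Bool)) :
    FreeGroup.IsReduced w.reverse ↔ FreeGroup.IsReduced w := by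
  unfold FreeGroup.IsReduced
  rw [List.isChain_reverse]
  constructor
  · intro h
    exact h.imp (fun a b hab h1 => (hab h1.symm).symm)
  · intro h
    exact h.imp (fun a b hab h1 => (hab h1.symm).symm)

lemma redLaw_reverse (w : List (Fin 2 × Bool)) : redLaw w.reverse = redLaw w := by
  unfold redLaw
  by_cases h1 : w = []
  · rw [if_pos h1, if_pos (by rw [h1]; rfl)]
  · have h2 : w.reverse ≠ [] := by simpa using h1
    rw [if_neg h1, if_neg h2]
    by_cases h3 : FreeGroup.IsReduced w
    · rw [if_pos h3, if_pos ((isReduced_reverse w).mpr h3), List.length_reverse]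
    · rw [if_neg h3, if_neg (fun h => h3 ((isReduced_reverse w).mp h))]

lemma sum_compat (t : Fin 2 × Bool) : ∑ s, (if compat s t then (1 : ℝ) else 0) = 3 := by
  obtain ⟨i, b⟩ := t
  rw [Fintype.sum_prod_type]
  simp only [Fin.sum_univ_two, Fintype.sum_bool]
  fin_cases i <;> cases b <;> simp [compat] <;> norm_num

lemma redLaw_left (w : List (Fin 2 × Bool)) : ∑ s, redLaw (s :: w) = redLaw w := by
  cases w with
  | nil =>
    simp_rw [redLaw_singleton, redLaw_nil]
    simp
  | cons t w =>
    simp_rw [redLaw_cons_cons]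
    have h1 : ∀ s, (if compat s t then 1 / 3 * redLaw (t :: w) else 0) =
        (if compat s t then (1 : ℝ) else 0) * (1 / 3 * redLaw (t :: w)) := by
      intro s; split_ifs <;> simp
    simp_rw [h1]
    rw [← Finset.sum_mul, sum_compat]
    ring

lemma redLaw_right (w : List (Fin 2 × Bool)) : ∑ s, redLaw (w ++ [s]) = redLaw w := by
  have h1 : ∀ s, redLaw (w ++ [s]) = redLaw (s :: w.reverse) := by
    intro s
    rw [← redLaw_reverse]
    simp
  simp_rw [h1]
  rw [redLaw_left, redLaw_reverse]

lemma redLaw_snoc (w : List (Fin 2 × Bool)) (s x : Fin 2 × Bool) :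
    redLaw (w ++ [s] ++ [x]) = if compat s x then 1 / 3 * redLaw (w ++ [s]) else 0 := by
  rw [← redLaw_reverse, ← redLaw_reverse (w ++ [s])]
  simp only [List.reverse_append, List.reverse_cons, List.reverse_nil, List.nil_append,
    List.singleton_append]
  rw [redLaw_cons_cons]
  have : compat x s ↔ compat s x := by
    unfold compat
    constructor
    · intro h h1; exact (h h1.symm).symm
    · intro h h1; exact (h h1.symm).symm
  simp [this]

/-- inverse letter -/
def invLetter (s : Fin 2 × Bool) : Fin 2 × Bool := (s.1, !s.2)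

/-- the deviation from independence -/
noncomputable def dev : ℕ → (Fin 2 × Bool) → (Fin 2 × Bool) → ℝ
  | 0, s, t => if compat s t then 1 / 3 else -1
  | k + 1, s, t => -(1 / 3) * dev k (invLetter s) t

lemma dev_zero (s t : Fin 2 × Bool) : dev 0 s t = if compat s t then 1 / 3 else -1 := rfl

lemma dev_succ (k : ℕ) (s t : Fin 2 × Bool) :
    dev (k + 1) s t = -(1 / 3) * dev k (invLetter s) t := rfl

lemma abs_dev_le (k : ℕ) (s t : Fin 2 × Bool) : |dev k s t| ≤ (1 / 3) ^ k := by
  induction k generalizing s with
  | zero =>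
    rw [dev_zero]
    split_ifs <;> norm_num [abs_of_pos]
  | succ k ih =>
    rw [dev_succ, abs_mul, pow_succ, mul_comm]
    apply mul_le_mul (ih _) _ (abs_nonneg _) (by positivity)
    rw [abs_neg, abs_of_pos] <;> norm_num

lemma sum_dev (k : ℕ) (t : Fin 2 × Bool) : ∑ s, dev k s t = 0 := by
  induction k with
  | zero =>
    simp_rw [dev_zero]
    obtain ⟨i, b⟩ := t
    rw [Fintype.sum_prod_type]
    simp only [Fin.sum_univ_two, Fintype.sum_bool]
    fin_cases i <;> cases b <;> simp [compat] <;> norm_num
  | succ k ih =>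
    simp_rw [dev_succ]
    rw [← Finset.mul_sum]
    have h1 : ∑ s, dev k (invLetter s) t = ∑ s, dev k s t := by
      apply Fintype.sum_bijective invLetter
      · apply Function.Involutive.bijective
        intro s
        simp [invLetter]
      · intro s; rfl
    rw [h1, ih, mul_zero]

lemma sum_compat_dev (k : ℕ) (s t : Fin 2 × Bool) :
    ∑ x, (if compat s x then (1 + dev k x t) else 0) = 3 - dev k (invLetter s) t := by
  have h1 : ∀ x, (if compat s x then (1 + dev k x t) else 0) =
      (1 + dev k x t) - (if x = invLetter s then (1 + dev k x t) else 0) := by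
    intro x
    have h2 : compat s x ↔ x ≠ invLetter s := by
      obtain ⟨i, b⟩ := s
      obtain ⟨j, c⟩ := x
      unfold compat invLetter
      fin_cases i <;> fin_cases j <;> cases b <;> cases c <;> simp
    by_cases h3 : x = invLetter s
    · rw [if_neg (fun h => (h2.mp h) h3), if_pos h3]; ring
    · rw [if_pos (h2.mpr h3), if_neg h3]; ring
  simp_rw [h1]
  rw [Finset.sum_sub_distrib, Finset.sum_ite_eq', Finset.sum_add_distrib, sum_dev]
  simp
  ring

lemma redLaw_append_base (u v : List (Fin 2 × Bool)) (s t : Fin 2 × Bool) :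
    redLaw ((u ++ [s]) ++ (t :: v)) = redLaw (u ++ [s]) * redLaw (t :: v) * (1 + dev 0 s t) := by
  induction u with
  | nil =>
    simp only [List.nil_append, List.singleton_append]
    rw [redLaw_cons_cons, redLaw_singleton, dev_zero]
    split_ifs <;> ring
  | cons x u ih =>
    cases u with
    | nil =>
      simp only [List.nil_append, List.cons_append] at ih ⊢
      rw [redLaw_cons_cons x s (t :: v), ih, redLaw_cons_cons x s []]
      split_ifs <;> ring
    | cons y u =>
      simp only [List.cons_append] at ih ⊢
      rw [redLaw_cons_cons x y, ih, redLaw_cons_cons x y]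
      split_ifs <;> ring

lemma wsum_redLaw (k : ℕ) (u v : List (Fin 2 × Bool)) (s t : Fin 2 × Bool) :
    wsum k (fun g => redLaw ((u ++ [s]) ++ g ++ (t :: v))) =
      redLaw (u ++ [s]) * redLaw (t :: v) * (1 + dev k s t) := by
  induction k generalizing u s with
  | zero =>
    simp only [wsum, List.append_nil]
    exact redLaw_append_base u v s t
  | succ k ih =>
    simp only [wsum]
    have h1 : ∀ x, wsum k (fun w => redLaw ((u ++ [s]) ++ (x :: w) ++ (t :: v))) =
        redLaw ((u ++ [s]) ++ [x]) * redLaw (t :: v) * (1 + dev k x t) := by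
      intro x
      rw [← ih (u ++ [s]) x]
      congr 1
      funext w
      simp
    simp_rw [h1, redLaw_snoc]
    have h2 : ∀ x, (if compat s x then 1 / 3 * redLaw (u ++ [s]) else 0) * redLaw (t :: v) *
        (1 + dev k x t) = (1 / 3 * redLaw (u ++ [s]) * redLaw (t :: v)) *
          (if compat s x then (1 + dev k x t) else 0) := by
      intro x
      split_ifs <;> ring
    simp_rw [h2]
    rw [← Finset.mul_sum, sum_compat_dev, dev_succ]
    ring

lemma wsum_redLaw_right (k : ℕ) (u : List (Fin 2 × Bool)) :
    wsum k (fun g => redLaw (u ++ g)) = redLaw u := by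
  induction k generalizing u with
  | zero => simp [wsum]
  | succ k ih =>
    simp only [wsum]
    have h1 : ∀ x, wsum k (fun w => redLaw (u ++ (x :: w))) = redLaw (u ++ [x]) := by
      intro x
      rw [← ih (u ++ [x])]
      congr 1
      funext w
      simp
    simp_rw [h1]
    exact redLaw_right u

lemma wsum_redLaw_left (k : ℕ) (v : List (Fin 2 × Bool)) :
    wsum k (fun g => redLaw (g ++ v)) = redLaw v := by
  induction k with
  | zero => simp [wsum]
  | succ k ih =>
    simp only [wsum]
    rw [← ih]
    simp_rw [wsum_eq_sum]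
    rw [Finset.sum_comm]
    apply Finset.sum_congr rfl
    intro w _
    exact redLaw_left (w ++ v)

lemma redLaw_le (w : List (Fin 2 × Bool)) : redLaw w ≤ (1 / 3) ^ w.length := by
  unfold redLaw
  split_ifs with h1 h2
  · simp [h1]
  · have : 0 < w.length := List.length_pos_of_ne_nil h1
    obtain ⟨n, hn⟩ := Nat.exists_eq_succ_of_ne_zero this.ne'
    rw [hn, Nat.succ_eq_add_one, Nat.add_sub_cancel, pow_succ]
    have : (0 : ℝ) < (1 / 3) ^ n := by positivity
    nlinarith
  · positivity

theorem goodLaw_redLaw : GoodLaw redLaw 1 (1 / 3) (1 / 3) where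
  nonneg := redLaw_nonneg
  nil := redLaw_nil
  right := redLaw_right
  left := redLaw_left
  hC0 := zero_le_one
  hρ0 := by norm_num
  hρ := by norm_num
  mix k u v := by
    have h0 : (0 : ℝ) ≤ (1 / 3) ^ k := by positivity
    rcases List.eq_nil_or_concat u with hu | ⟨u', s, hu⟩
    · subst hu
      simp only [List.nil_append]
      rw [wsum_redLaw_left, redLaw_nil]
      nlinarith [redLaw_nonneg v]
    · rw [List.concat_eq_append] at hu
      subst hu
      cases v with
      | nil =>
        simp only [List.append_nil]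
        rw [wsum_redLaw_right, redLaw_nil]
        nlinarith [redLaw_nonneg (u' ++ [s])]
      | cons t v =>
        rw [wsum_redLaw]
        have h1 := abs_dev_le k s t
        have h2 := le_abs_self (dev k s t)
        have h3 : 0 ≤ redLaw (u' ++ [s]) * redLaw (t :: v) :=
          mul_nonneg (redLaw_nonneg _) (redLaw_nonneg _)
        calc redLaw (u' ++ [s]) * redLaw (t :: v) * (1 + dev k s t)
            ≤ redLaw (u' ++ [s]) * redLaw (t :: v) * (1 + 1 * (1 / 3) ^ k) := by
              apply mul_le_mul_of_nonneg_left _ h3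
              linarith
          _ = (1 + 1 * (1 / 3) ^ k) * redLaw (u' ++ [s]) * redLaw (t :: v) := by ring
  red w hw := by
    by_contra h
    apply hw
    unfold redLaw
    rw [if_neg, if_neg h]
    intro h1
    rw [h1] at h
    exact h FreeGroup.IsReduced.nil
  hκ0 := by norm_num
  hκ := by norm_num
  max := redLaw_le

end Pool.Agent.TracePoly
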