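import Pool.Agent.Work.MP_170125_pr.Laws

/-!
Almost sure convergence of the coefficient growth rates for a good law.
-/

open MeasureTheory Filter Topology

namespace Pool.Agent.TracePoly

/-- logarithm of the norm of the matrix of a word -/
noncomputable def Xf (w : List (Fin 2 × Bool)) : ℝ := Real.log (nrm (wordM w))

lemma nrm_pos (w : List (Fin 2 × Bool)) : 0 < nrm (wordM w) :=
  lt_of_lt_of_le zero_lt_one (one_le_nrm w)

lemma Xf_nonneg (w : List (Fin 2 × Bool)) : 0 ≤ Xf w := Real.log_nonneg (one_le_nrm w)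

lemma log_four_le : Real.log 4 ≤ Real.log 11 := Real.log_le_log (by norm_num) (by norm_num)

lemma Xf_le (w : List (Fin 2 × Bool)) : Xf w ≤ Real.log 11 * (w.length + 1) := by
  unfold Xf
  refine (Real.log_le_log (nrm_pos w) (nrm_word_le w)).trans ?_
  rw [Real.log_mul (by norm_num) (by positivity), Real.log_pow]
  have := log_four_le
  linarith

lemma Xf_sub (u v : List (Fin 2 × Bool)) : Xf (u ++ v) ≤ Xf u + Xf v := by
  unfold Xf
  rw [← Real.log_mul (nrm_pos u).ne' (nrm_pos v).ne']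
  apply Real.log_le_log (nrm_pos _)
  rw [wordM_append]
  exact nrm_mul_le _ _

lemma Xf_inv (u v : List (Fin 2 × Bool)) :
    Xf v ≤ Xf (u ++ v) + Real.log 11 * (u.length + 1) := by
  unfold Xf
  refine (Real.log_le_log (nrm_pos v) (nrm_right_le u v)).trans ?_
  rw [Real.log_mul (by positivity) (nrm_pos _).ne', Real.log_mul (by norm_num) (by positivity),
    Real.log_pow]
  have := log_four_le
  linarith

section Law

variable {μ : List (Fin 2 × Bool) → ℝ} {C0 ρ κ : ℝ}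

lemma GoodLaw.wsum_right (h : GoodLaw μ C0 ρ κ) (k : ℕ) (u : List (Fin 2 × Bool)) :
    wsum k (fun g => μ (u ++ g)) = μ u := by
  induction k generalizing u with
  | zero => simp [wsum]
  | succ k ih =>
    simp only [wsum]
    have h1 : ∀ x, wsum k (fun w => μ (u ++ (x :: w))) = μ (u ++ [x]) := by
      intro x
      rw [← ih (u ++ [x])]
      congr 1
      funext w
      simp
    simp_rw [h1]
    exact h.right u

lemma GoodLaw.wsum_eq_one (h : GoodLaw μ C0 ρ κ) (k : ℕ) : wsum k μ = 1 := by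
  have := h.wsum_right k []
  simpa [h.nil] using this

lemma GoodLaw.prod (h : GoodLaw μ C0 ρ κ) (u v : List (Fin 2 × Bool)) :
    μ (u ++ v) ≤ (1 + C0) * μ u * μ v := by
  have := h.mix 0 u v
  simpa [wsum] using this

/-- the loss factor -/
noncomputable def Theta (n : ℕ) : ℝ :=
  4 * 11 ^ (Nat.sqrt n + Nat.sqrt n) *
    (484 * (4 * (((n - (Nat.sqrt n + Nat.sqrt n) + 4 * (Nat.sqrt n + Nat.sqrt n + 1) + 1 : ℕ) : ℝ)
      ^ 3 * ((((n - (Nat.sqrt n + Nat.sqrt n) + 4 * (Nat.sqrt n + Nat.sqrt n + 1) + 1 : ℕ) : ℝ)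
        ^ (4 * (Nat.sqrt n + Nat.sqrt n + 1) + 1)) ^ 3 *
          (96 * (8 * 11 ^ (Nat.sqrt n + Nat.sqrt n)) ^ 4)))))

/-- words whose trace polynomial is abnormally small -/
def Bad (n : ℕ) (w : List (Fin 2 × Bool)) : Prop := Theta n * l1 (trP w) < nrm (wordM w)

lemma two_sqrt_le {n : ℕ} (hn : 4 ≤ n) : Nat.sqrt n + Nat.sqrt n ≤ n := by
  have h1 : 2 ≤ Nat.sqrt n := Nat.le_sqrt.mpr (by omega)
  have h2 := Nat.sqrt_le n
  nlinarith

open Classical in
lemma GoodLaw.bad_wsum (h : GoodLaw μ C0 ρ κ) {n : ℕ} (hn : 4 ≤ n) :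
    wsum n (fun w => if Bad n w then μ w else 0) ≤
      (1 + C0) * ((1 + C0) * Real.sqrt (κ ^ Nat.sqrt n * (4 * Nat.sqrt n + 2))) := by
  set k := Nat.sqrt n with hk
  have hmn : k + k ≤ n := two_sqrt_le hn
  have hK : 0 ≤ 1 + C0 := by have := h.hC0; linarith
  have hdecomp : n = (k + k) + (n - (k + k)) := by omega
  set S : List (Fin 2 × Bool) → Set (List (Fin 2 × Bool)) :=
    fun v => {u | u.length = k + k ∧ Bad n (u ++ v)} with hSdef
  have hdet : ∀ v : List (Fin 2 × Bool), v.length = n - (k + k) →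
      ∀ u : Fin 4 → List (Fin 2 × Bool), (∀ i, u i ∈ S v) → (rowMat u).det = 0 := by
    intro v hv u hu
    by_contra hD
    obtain ⟨k0, hk0⟩ := Finite.exists_max (fun i => l1 (trP (u i ++ v)))
    have h1 := cramer_bound (k + k) u (fun i => (hu i).1) hD v (l1 (trP (u k0 ++ v))) hk0
    have h2 : Bad n (u k0 ++ v) := (hu k0).2
    unfold Bad at h2
    have h3 := nrm_append_le (u k0) v
    rw [(hu k0).1] at h3
    have h4 : nrm (wordM (u k0 ++ v)) ≤ Theta n * l1 (trP (u k0 ++ v)) := by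
      refine h3.trans ?_
      unfold Theta
      rw [← hk]
      rw [hv] at h1
      calc 4 * 11 ^ (k + k) * nrm (wordM v)
          ≤ 4 * 11 ^ (k + k) * _ := mul_le_mul_of_nonneg_left h1 (by positivity)
        _ = _ := by ring
    linarith
  have hesc : ∀ v : List (Fin 2 × Bool), v.length = n - (k + k) →
      wsum (k + k) (fun u => if u ∈ S v then μ u else 0) ≤
        (1 + C0) * Real.sqrt (κ ^ k * (4 * k + 2)) := by
    intro v hv
    have h0 := escape_prob μ h.nonneg h.red (1 + C0) hK h.prod k (h.wsum_eq_one k) (κ ^ k)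
      (fun w hw => by rw [← hw]; exact h.max w) (S v) (hdet v hv)
    refine le_trans (le_of_eq ?_) h0
    congr 1
    funext u
    by_cases hu : u ∈ S v
    · rw [if_pos hu, if_pos hu]
    · rw [if_neg hu, if_neg hu]
  conv_lhs => rw [hdecomp]
  rw [wsum_add, wsum_eq_sum]
  simp_rw [wsum_eq_sum (n - (k + k))]
  have h1 : ∀ u ∈ (wordsF (k + k) : Finset (List (Fin 2 × Bool))),
      ∀ v ∈ (wordsF (n - (k + k)) : Finset (List (Fin 2 × Bool))),
      (if Bad (k + k + (n - (k + k))) (u ++ v) then μ (u ++ v) else 0) ≤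
        (1 + C0) * μ v * (if u ∈ S v then μ u else 0) := by
    intro u hu v hv
    rw [← hdecomp]
    by_cases hb : Bad n (u ++ v)
    · have hus : u ∈ S v := ⟨(mem_wordsF _ _).mp hu, hb⟩
      rw [if_pos hb, if_pos hus]
      have := h.prod u v
      linarith
    · have hus : u ∉ S v := fun hc => hb hc.2
      rw [if_neg hb, if_neg hus, mul_zero]
  refine (Finset.sum_le_sum fun u hu => Finset.sum_le_sum fun v hv => h1 u hu v hv).trans ?_
  rw [Finset.sum_comm]
  have h2 : ∀ v ∈ (wordsF (n - (k + k)) : Finset (List (Fin 2 × Bool))),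
      ∑ u ∈ wordsF (k + k), (1 + C0) * μ v * (if u ∈ S v then μ u else 0) ≤
        μ v * ((1 + C0) * ((1 + C0) * Real.sqrt (κ ^ k * (4 * k + 2)))) := by
    intro v hv
    rw [← Finset.mul_sum, ← wsum_eq_sum (k + k) (fun u => if u ∈ S v then μ u else 0)]
    have h3 := hesc v ((mem_wordsF _ _).mp hv)
    have h4 : 0 ≤ (1 + C0) * μ v := mul_nonneg hK (h.nonneg v)
    calc (1 + C0) * μ v * wsum (k + k) (fun u => if u ∈ S v then μ u else 0)
        ≤ (1 + C0) * μ v * ((1 + C0) * Real.sqrt (κ ^ k * (4 * k + 2))) :=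
          mul_le_mul_of_nonneg_left h3 h4
      _ = _ := by ring
  refine (Finset.sum_le_sum h2).trans ?_
  rw [← Finset.sum_mul, ← wsum_eq_sum (n - (k + k)) μ, h.wsum_eq_one, one_mul]

lemma sqrt_bound (hκ0 : 0 ≤ κ) (hκ : κ < 1) :
    ∃ C : ℝ, 0 ≤ C ∧ ∀ n : ℕ, 4 ≤ n →
      Real.sqrt (κ ^ Nat.sqrt n * (4 * Nat.sqrt n + 2)) ≤ C / (n : ℝ) ^ 2 := by
  set r := Real.sqrt κ with hr
  have hr0 : 0 ≤ r := Real.sqrt_nonneg _
  have hr1 : r < 1 := by
    rw [hr, Real.sqrt_lt' one_pos]; simpa using hκ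
  have ht := tendsto_pow_const_mul_const_pow_of_abs_lt_one 5 (r := r)
    (by rw [abs_of_nonneg hr0]; exact hr1)
  obtain ⟨B, hB⟩ := ht.bddAbove_range
  have hB' : ∀ k : ℕ, (k : ℝ) ^ 5 * r ^ k ≤ B := fun k => hB ⟨k, rfl⟩
  have hB0 : 0 ≤ B := by
    have := hB' 0
    simpa using this
  refine ⟨96 * B, by positivity, fun n hn => ?_⟩
  set k := Nat.sqrt n with hk
  have hk2 : 2 ≤ k := Nat.le_sqrt.mpr (by omega)
  have hn0 : (0 : ℝ) < n := by
    have : 0 < n := by omega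
    exact_mod_cast this
  rw [le_div_iff₀ (by positivity)]
  have h1 : Real.sqrt (κ ^ k * (4 * k + 2)) ≤ r ^ k * (4 * k + 2) := by
    rw [Real.sqrt_mul (pow_nonneg hκ0 _)]
    have e1 : Real.sqrt (κ ^ k) = r ^ k := by
      rw [hr, Real.sqrt_eq_iff_mul_self_eq (pow_nonneg hκ0 _) (pow_nonneg (Real.sqrt_nonneg _) _),
        ← mul_pow, Real.mul_self_sqrt hκ0]
    rw [e1]
    apply mul_le_mul_of_nonneg_left _ (pow_nonneg hr0 _)
    rw [Real.sqrt_le_left (by positivity)]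
    have : (1 : ℝ) ≤ 4 * k + 2 := by
      have : (0 : ℝ) ≤ k := Nat.cast_nonneg _
      linarith
    nlinarith
  have h2 : (n : ℝ) ≤ (k + 1) ^ 2 := by
    have := Nat.lt_succ_sqrt n
    have h3 : n ≤ (k + 1) * (k + 1) := by
      rw [hk]; exact this.le
    have h4 : (n : ℝ) ≤ ((k + 1) * (k + 1) : ℕ) := by exact_mod_cast h3
    push_cast at h4
    linarith
  have hkr : (2 : ℝ) ≤ k := by exact_mod_cast hk2
  have h3 : (n : ℝ) ^ 2 ≤ (2 * k) ^ 4 := by
    have e1 : (n : ℝ) ^ 2 ≤ ((k + 1) ^ 2) ^ 2 := by gcongr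
    have e2 : ((k : ℝ) + 1) ^ 2 ≤ (2 * k) ^ 2 := by
      apply pow_le_pow_left₀ (by linarith)
      linarith
    calc (n : ℝ) ^ 2 ≤ ((k + 1) ^ 2) ^ 2 := e1
      _ ≤ ((2 * k) ^ 2) ^ 2 := by gcongr
      _ = (2 * k) ^ 4 := by ring
  have h4 := hB' k
  have hrk : 0 ≤ r ^ k := pow_nonneg hr0 _
  calc Real.sqrt (κ ^ k * (4 * k + 2)) * (n : ℝ) ^ 2
      ≤ (r ^ k * (4 * k + 2)) * (2 * k) ^ 4 := by
        apply mul_le_mul h1 h3 (by positivity) (by positivity)
    _ ≤ (r ^ k * (6 * k)) * (2 * k) ^ 4 := by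
        apply mul_le_mul_of_nonneg_right _ (by positivity)
        apply mul_le_mul_of_nonneg_left _ hrk
        linarith
    _ = 96 * ((k : ℝ) ^ 5 * r ^ k) := by ring
    _ ≤ 96 * B := by linarith

lemma one_le_Theta (n : ℕ) : 1 ≤ Theta n := by
  unfold Theta
  set N : ℕ := n - (Nat.sqrt n + Nat.sqrt n) + 4 * (Nat.sqrt n + Nat.sqrt n + 1) + 1 with hN
  have hN1 : (1 : ℝ) ≤ (N : ℝ) := by
    have : 1 ≤ N := by omega
    exact_mod_cast this
  have h11 : (1 : ℝ) ≤ 11 ^ (Nat.sqrt n + Nat.sqrt n) := one_le_pow₀ (by norm_num)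
  have e1 : (1 : ℝ) ≤ (N : ℝ) ^ 3 := one_le_pow₀ hN1
  have e2 : (1 : ℝ) ≤ ((N : ℝ) ^ (4 * (Nat.sqrt n + Nat.sqrt n + 1) + 1)) ^ 3 :=
    one_le_pow₀ (one_le_pow₀ hN1)
  have e3 : (1 : ℝ) ≤ (8 * 11 ^ (Nat.sqrt n + Nat.sqrt n)) ^ 4 :=
    one_le_pow₀ (by linarith)
  have e4 : (1 : ℝ) ≤ 96 * (8 * 11 ^ (Nat.sqrt n + Nat.sqrt n)) ^ 4 := by linarith
  have e5 := one_le_mul_of_one_le_of_one_le e2 e4
  have e6 := one_le_mul_of_one_le_of_one_le e1 e5
  have e7 : (1 : ℝ) ≤ 4 * 11 ^ (Nat.sqrt n + Nat.sqrt n) := by linarith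
  apply one_le_mul_of_one_le_of_one_le e7
  linarith

lemma log_Theta_le {n : ℕ} (hn : 4 ≤ n) :
    Real.log (Theta n) ≤ (34 * (Nat.sqrt n : ℝ) + 26) * Real.log (1000 * n) := by
  set k := Nat.sqrt n with hk
  have hkk : k + k ≤ n := two_sqrt_le hn
  have hnr : (4 : ℝ) ≤ n := by exact_mod_cast hn
  set D : ℝ := 1000 * n with hD
  have hD1 : 1 ≤ D := by rw [hD]; linarith
  have hN : ((n - (k + k) + 4 * (k + k + 1) + 1 : ℕ) : ℝ) ≤ D := by
    have h1 : n - (k + k) + 4 * (k + k + 1) + 1 ≤ 1000 * n := by omega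
    rw [hD]
    exact_mod_cast h1
  have h11 : (11 : ℝ) ≤ D := by rw [hD]; linarith
  have hDpos : 0 < D := by linarith
  have key : Theta n ≤ D ^ (34 * k + 26) := by
    unfold Theta
    rw [← hk]
    have e1 : (4 : ℝ) * 11 ^ (k + k) ≤ D ^ (2 * k + 1) := by
      calc (4 : ℝ) * 11 ^ (k + k) ≤ D * D ^ (k + k) := by
            apply mul_le_mul (by linarith) (pow_le_pow_left₀ (by norm_num) h11 _)
              (by positivity) (by linarith)
        _ = D ^ (2 * k + 1) := by rw [← pow_succ', two_mul]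
    have e2 : (96 : ℝ) * (8 * 11 ^ (k + k)) ^ 4 ≤ D ^ (1 + 4 * (2 * k + 1)) := by
      have e3 : (8 : ℝ) * 11 ^ (k + k) ≤ D ^ (2 * k + 1) := by
        calc (8 : ℝ) * 11 ^ (k + k) ≤ D * D ^ (k + k) := by
              apply mul_le_mul (by linarith) (pow_le_pow_left₀ (by norm_num) h11 _)
                (by positivity) (by linarith)
          _ = D ^ (2 * k + 1) := by rw [← pow_succ', two_mul]
      calc (96 : ℝ) * (8 * 11 ^ (k + k)) ^ 4 ≤ D * (D ^ (2 * k + 1)) ^ 4 := by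
            apply mul_le_mul (by rw [hD]; linarith) (pow_le_pow_left₀ (by positivity) e3 _)
              (by positivity) (by linarith)
        _ = D ^ (1 + 4 * (2 * k + 1)) := by rw [← pow_mul, ← pow_succ']; congr 1; ring
    have hN0 : (0 : ℝ) ≤ ((n - (k + k) + 4 * (k + k + 1) + 1 : ℕ) : ℝ) := Nat.cast_nonneg _
    have e4 : (((n - (k + k) + 4 * (k + k + 1) + 1 : ℕ) : ℝ)) ^ 3 ≤ D ^ 3 :=
      pow_le_pow_left₀ hN0 hN 3
    have e5 : ((((n - (k + k) + 4 * (k + k + 1) + 1 : ℕ) : ℝ)) ^ (4 * (k + k + 1) + 1)) ^ 3 ≤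
        D ^ ((4 * (k + k + 1) + 1) * 3) := by
      rw [pow_mul]
      apply pow_le_pow_left₀ (by positivity)
      exact pow_le_pow_left₀ hN0 hN _
    have e6 : (484 : ℝ) * 4 ≤ D ^ 1 := by
      rw [hD, pow_one]; linarith
    calc _ = (4 * 11 ^ (k + k)) * ((484 * 4) *
            ((((n - (k + k) + 4 * (k + k + 1) + 1 : ℕ) : ℝ)) ^ 3 *
            (((((n - (k + k) + 4 * (k + k + 1) + 1 : ℕ) : ℝ)) ^ (4 * (k + k + 1) + 1)) ^ 3 *
              (96 * (8 * 11 ^ (k + k)) ^ 4)))) := by ring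
      _ ≤ D ^ (2 * k + 1) * (D ^ 1 * (D ^ 3 * (D ^ ((4 * (k + k + 1) + 1) * 3) *
            D ^ (1 + 4 * (2 * k + 1))))) := by
          have p1 : (0 : ℝ) ≤ 96 * (8 * 11 ^ (k + k)) ^ 4 := by positivity
          have p2 : (0 : ℝ) ≤ ((((n - (k + k) + 4 * (k + k + 1) + 1 : ℕ) : ℝ)) ^
            (4 * (k + k + 1) + 1)) ^ 3 := by positivity
          have p3 : (0 : ℝ) ≤ (((n - (k + k) + 4 * (k + k + 1) + 1 : ℕ) : ℝ)) ^ 3 := by positivity
          have m1 := mul_le_mul e5 e2 p1 (by positivity)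
          have m2 := mul_le_mul e4 m1 (mul_nonneg p2 p1) (by positivity)
          have m3 := mul_le_mul e6 m2 (mul_nonneg p3 (mul_nonneg p2 p1)) (by positivity)
          exact mul_le_mul e1 m3 (mul_nonneg (by norm_num) (mul_nonneg p3 (mul_nonneg p2 p1)))
            (by positivity)
      _ = D ^ (34 * k + 25) := by
          rw [← pow_add, ← pow_add, ← pow_add, ← pow_add]
          congr 1; ring
      _ ≤ D ^ (34 * k + 26) := pow_le_pow_right₀ hD1 (by omega)
  calc Real.log (Theta n) ≤ Real.log (D ^ (34 * k + 26)) :=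
        Real.log_le_log (lt_of_lt_of_le zero_lt_one (one_le_Theta n)) key
    _ = (34 * (k : ℝ) + 26) * Real.log D := by
        rw [Real.log_pow]; push_cast; ring

lemma tendsto_log_Theta : Tendsto (fun n : ℕ => Real.log (Theta n) / n) atTop (𝓝 0) := by
  have hub : ∀ n : ℕ, 4 ≤ n → Real.log (Theta n) / n ≤ 2400 * (n : ℝ) ^ (-(1 / 4) : ℝ) := by
    intro n hn
    have hnr : (4 : ℝ) ≤ n := by exact_mod_cast hn
    have hn0 : (0 : ℝ) < n := by linarith
    set s : ℝ := (n : ℝ) ^ (1 / 4 : ℝ) with hs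
    have hs1 : 1 ≤ s := Real.one_le_rpow (by linarith) (by norm_num)
    have hs4 : s ^ 4 = n := by
      rw [hs, ← Real.rpow_natCast, ← Real.rpow_mul hn0.le]; norm_num
    have hsq : (Nat.sqrt n : ℝ) ≤ s ^ 2 := by
      have h1 : (Nat.sqrt n : ℝ) ≤ Real.sqrt n := Real.nat_sqrt_le_real_sqrt
      refine h1.trans ?_
      rw [Real.sqrt_le_left (by positivity), ← pow_mul, hs4]
    have hlog : Real.log (1000 * n) ≤ 40 * s := by
      have h1 := Real.log_le_rpow_div (x := 1000 * n) (by positivity) (ε := 1 / 4) (by norm_num)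
      have h2 : (1000 * (n : ℝ)) ^ (1 / 4 : ℝ) ≤ 10 * s := by
        rw [Real.mul_rpow (by norm_num) hn0.le]
        apply mul_le_mul_of_nonneg_right _ (by positivity)
        have h3 : (1000 : ℝ) ^ (1 / 4 : ℝ) ≤ (10000 : ℝ) ^ (1 / 4 : ℝ) :=
          Real.rpow_le_rpow (by norm_num) (by norm_num) (by norm_num)
        refine h3.trans ?_
        have h4 : (10000 : ℝ) = 10 ^ (4 : ℝ) := by norm_num
        rw [h4, ← Real.rpow_mul (by norm_num)]
        norm_num
      calc Real.log (1000 * n) ≤ (1000 * (n : ℝ)) ^ (1 / 4 : ℝ) / (1 / 4) := h1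
        _ ≤ (10 * s) / (1 / 4) := by gcongr
        _ = 40 * s := by ring
    have hle := log_Theta_le hn
    have hlog0 : 0 ≤ Real.log (1000 * n) := Real.log_nonneg (by linarith)
    have h5 : Real.log (Theta n) ≤ 2400 * s ^ 3 := by
      refine hle.trans ?_
      calc (34 * (Nat.sqrt n : ℝ) + 26) * Real.log (1000 * n)
          ≤ (34 * s ^ 2 + 26 * s ^ 2) * (40 * s) := by
            apply mul_le_mul _ hlog hlog0 (by positivity)
            have : (1 : ℝ) ≤ s ^ 2 := one_le_pow₀ hs1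
            linarith
        _ = 2400 * s ^ 3 := by ring
    rw [div_le_iff₀ hn0]
    refine h5.trans (le_of_eq ?_)
    have h6 : (n : ℝ) ^ (-(1 / 4) : ℝ) * n = s ^ 3 := by
      rw [Real.rpow_neg hn0.le, ← hs]
      have hsne : s ≠ 0 := by positivity
      field_simp
      rw [← hs4]
    rw [mul_assoc, h6]
  have hlb : ∀ n : ℕ, 0 ≤ Real.log (Theta n) / n := fun n =>
    div_nonneg (Real.log_nonneg (one_le_Theta n)) (Nat.cast_nonneg _)
  have ht : Tendsto (fun n : ℕ => 2400 * (n : ℝ) ^ (-(1 / 4) : ℝ)) atTop (𝓝 0) := by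
    have h1 : Tendsto (fun x : ℝ => x ^ (-(1 / 4) : ℝ)) atTop (𝓝 0) :=
      tendsto_rpow_neg_atTop (by norm_num)
    have h2 := (h1.comp tendsto_natCast_atTop_atTop).const_mul 2400
    simpa using h2
  apply tendsto_of_tendsto_of_tendsto_of_le_of_le' tendsto_const_nhds ht
  · exact Eventually.of_forall hlb
  · exact (eventually_ge_atTop 4).mono hub

end Law

end Pool.Agent.TracePoly
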