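import Pool.Agent.Work.MP_170125_pr.Alg

/-!
Trace polynomials of words, norms and degrees.
-/

open MvPolynomial Matrix

namespace Pool.Agent.TracePoly

/-- traces of the basis elements -/
noncomputable def tauV : Fin 4 → R3 := ![2, X 0, X 1, X 2]

/-- the functional `v ↦ tr (u v)` -/
noncomputable def rowP (u : List (Fin 2 × Bool)) (j : Fin 4) : R3 := ∑ i, tauV i * wordM u i j

/-- coordinates of a word -/
noncomputable def colP (w : List (Fin 2 × Bool)) (i : Fin 4) : R3 := wordM w i 0

/-- the trace polynomial of a word -/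
noncomputable def trP (w : List (Fin 2 × Bool)) : R3 := rowP w 0

lemma trP_append (u v : List (Fin 2 × Bool)) : trP (u ++ v) = ∑ j, rowP u j * colP v j := by
  unfold trP rowP colP
  simp_rw [wordM_append, Matrix.mul_apply, Finset.mul_sum, Finset.sum_mul]
  rw [Finset.sum_comm]
  simp_rw [mul_assoc]

/-- norm of a matrix of polynomials -/
noncomputable def nrm (M : M4) : ℝ := ∑ i, ∑ j, l1 (M i j)

lemma nrm_nonneg (M : M4) : 0 ≤ nrm M :=
  Finset.sum_nonneg fun _ _ => Finset.sum_nonneg fun _ _ => l1_nonneg _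

lemma l1_le_nrm (M : M4) (i j : Fin 4) : l1 (M i j) ≤ nrm M :=
  (Finset.single_le_sum (f := fun j => l1 (M i j)) (fun _ _ => l1_nonneg _)
    (Finset.mem_univ j)).trans
    (Finset.single_le_sum (f := fun i => ∑ j, l1 (M i j))
      (fun _ _ => Finset.sum_nonneg fun _ _ => l1_nonneg _) (Finset.mem_univ i))

lemma nrm_add_le (M N : M4) : nrm (M + N) ≤ nrm M + nrm N := by
  unfold nrm
  simp_rw [← Finset.sum_add_distrib]
  exact Finset.sum_le_sum fun i _ => Finset.sum_le_sum fun j _ => l1_add_le _ _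

lemma nrm_smul_le (p : R3) (M : M4) : nrm (p • M) ≤ l1 p * nrm M := by
  unfold nrm
  simp_rw [Finset.mul_sum]
  exact Finset.sum_le_sum fun i _ => Finset.sum_le_sum fun j _ => l1_mul_le _ _

lemma nrm_mul_le (M N : M4) : nrm (M * N) ≤ nrm M * nrm N := by
  have h1 : nrm (M * N) ≤ ∑ i, ∑ j, ∑ k, l1 (M i k) * l1 (N k j) := by
    unfold nrm
    refine Finset.sum_le_sum fun i _ => Finset.sum_le_sum fun j _ => ?_
    rw [Matrix.mul_apply]
    exact (l1_sum_le _ _).trans (Finset.sum_le_sum fun k _ => l1_mul_le _ _)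
  refine h1.trans ?_
  have h2 : ∀ k i, ∑ j, l1 (M i k) * l1 (N k j) ≤ l1 (M i k) * nrm N := by
    intro k i
    rw [← Finset.mul_sum]
    apply mul_le_mul_of_nonneg_left _ (l1_nonneg _)
    exact Finset.single_le_sum (f := fun k => ∑ j, l1 (N k j))
      (fun _ _ => Finset.sum_nonneg fun _ _ => l1_nonneg _) (Finset.mem_univ k)
  calc ∑ i, ∑ j, ∑ k, l1 (M i k) * l1 (N k j)
      = ∑ i, ∑ k, ∑ j, l1 (M i k) * l1 (N k j) := by
        refine Finset.sum_congr rfl fun i _ => ?_
        rw [Finset.sum_comm]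
    _ ≤ ∑ i, ∑ k, l1 (M i k) * nrm N :=
        Finset.sum_le_sum fun i _ => Finset.sum_le_sum fun k _ => h2 k i
    _ = nrm M * nrm N := by
        unfold nrm
        simp_rw [Finset.sum_mul]

lemma nrm_one : nrm 1 = 4 := by
  unfold nrm
  simp only [Fin.sum_univ_four, Matrix.one_apply]
  simp
  norm_num

lemma l1_two : l1 (2 : R3) = 2 := by
  have := l1_C (σ := Fin 3) 2
  simpa using this

lemma nrm_letter_le (s : Fin 2 × Bool) : nrm (letterM s) ≤ 11 := by
  have h1 : l1 (X 2 - X 0 * X 1 : R3) ≤ 2 := by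
    refine (l1_sub_le _ _).trans ?_
    have := l1_mul_le (X 0 : R3) (X 1)
    simp only [l1_X] at this ⊢
    linarith
  have h2 : l1 (X 0 * X 1 - X 2 : R3) ≤ 2 := by
    refine (l1_sub_le _ _).trans ?_
    have := l1_mul_le (X 0 : R3) (X 1)
    simp only [l1_X] at this ⊢
    linarith
  obtain ⟨i, b⟩ := s
  fin_cases i <;> cases b <;>
    simp [nrm, letterM, LA, LA', LB, LB', Fin.sum_univ_four, l1_neg] <;> linarith

lemma nrm_word_le (w : List (Fin 2 × Bool)) : nrm (wordM w) ≤ 4 * 11 ^ w.length := by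
  induction w with
  | nil => simp [nrm_one]
  | cons s w ih =>
    rw [wordM_cons]
    refine (nrm_mul_le _ _).trans ?_
    have := nrm_letter_le s
    have h0 := nrm_nonneg (letterM s)
    have h1 := nrm_nonneg (wordM w)
    calc nrm (letterM s) * nrm (wordM w) ≤ 11 * (4 * 11 ^ w.length) := by
          apply mul_le_mul this ih h1 (by norm_num)
      _ = 4 * 11 ^ (s :: w).length := by
          simp [pow_succ]; ring

lemma wordM_invRev_mul (w : List (Fin 2 × Bool)) : wordM (FreeGroup.invRev w) * wordM w = 1 := by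
  unfold wordM
  rw [← FreeGroup.inv_mk, map_inv, Units.inv_mul]

lemma nrm_right_le (u v : List (Fin 2 × Bool)) :
    nrm (wordM v) ≤ 4 * 11 ^ u.length * nrm (wordM (u ++ v)) := by
  have h : wordM v = wordM (FreeGroup.invRev u) * wordM (u ++ v) := by
    rw [wordM_append, ← mul_assoc, wordM_invRev_mul, one_mul]
  conv_lhs => rw [h]
  refine (nrm_mul_le _ _).trans ?_
  apply mul_le_mul_of_nonneg_right _ (nrm_nonneg _)
  refine (nrm_word_le _).trans ?_
  rw [FreeGroup.invRev_length]

lemma nrm_append_le (u v : List (Fin 2 × Bool)) :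
    nrm (wordM (u ++ v)) ≤ 4 * 11 ^ u.length * nrm (wordM v) := by
  rw [wordM_append]
  refine (nrm_mul_le _ _).trans ?_
  exact mul_le_mul_of_nonneg_right (nrm_word_le _) (nrm_nonneg _)

lemma wordM_ne_zero (w : List (Fin 2 × Bool)) : wordM w ≠ 0 := by
  intro h
  have := wordM_invRev_mul w
  rw [h, mul_zero] at this
  have h2 := congrFun (congrFun this 0) 0
  simp at h2

lemma one_le_nrm (w : List (Fin 2 × Bool)) : 1 ≤ nrm (wordM w) := by
  have h := wordM_ne_zero w
  have : ∃ i j, wordM w i j ≠ 0 := by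
    by_contra hc
    push Not at hc
    exact h (by ext1 i j; simpa using hc i j)
  obtain ⟨i, j, hij⟩ := this
  exact (one_le_l1 hij).trans (l1_le_nrm _ i j)

lemma l1_tauV_le (i : Fin 4) : l1 (tauV i) ≤ 2 := by
  fin_cases i <;> simp [tauV, l1_two]

lemma l1_rowP_le (u : List (Fin 2 × Bool)) (j : Fin 4) : l1 (rowP u j) ≤ 2 * nrm (wordM u) := by
  unfold rowP
  refine (l1_sum_le _ _).trans ?_
  have h1 : ∀ i, l1 (tauV i * wordM u i j) ≤ 2 * l1 (wordM u i j) := by
    intro i
    refine (l1_mul_le _ _).trans ?_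
    exact mul_le_mul_of_nonneg_right (l1_tauV_le i) (l1_nonneg _)
  refine (Finset.sum_le_sum fun i _ => h1 i).trans ?_
  rw [← Finset.mul_sum]
  apply mul_le_mul_of_nonneg_left _ (by norm_num)
  unfold nrm
  refine Finset.sum_le_sum fun i _ => ?_
  exact Finset.single_le_sum (f := fun j => l1 (wordM u i j)) (fun _ _ => l1_nonneg _)
    (Finset.mem_univ j)

lemma l1_trP_le (w : List (Fin 2 × Bool)) : l1 (trP w) ≤ 2 * nrm (wordM w) := l1_rowP_le w 0

/-! Degrees -/

lemma degreeOf_sum_le {ι : Type*} (s : Finset ι) (f : ι → R3) (i : Fin 3) (d : ℕ)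
    (h : ∀ k ∈ s, degreeOf i (f k) ≤ d) : degreeOf i (∑ k ∈ s, f k) ≤ d := by
  classical
  induction s using Finset.induction_on with
  | empty => simp
  | insert a s ha ih =>
    rw [Finset.sum_insert ha]
    refine (degreeOf_add_le _ _ _).trans (max_le (h a (Finset.mem_insert_self _ _)) ?_)
    exact ih fun k hk => h k (Finset.mem_insert_of_mem hk)

lemma degreeOf_X_le (i j : Fin 3) : degreeOf i (X j : R3) ≤ 1 := by
  classical
  rw [degreeOf_X]
  split_ifs <;> simp

lemma degreeOf_neg' (i : Fin 3) (p : R3) : degreeOf i (-p) = degreeOf i p := by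
  simp only [degreeOf_def, degrees_neg]

lemma degreeOf_XX (i : Fin 3) : degreeOf i (X 0 * X 1 : R3) ≤ 1 := by
  classical
  refine (degreeOf_mul_le _ _ _).trans ?_
  rw [degreeOf_X, degreeOf_X]
  fin_cases i <;> simp

lemma degreeOf_letter (s : Fin 2 × Bool) (i : Fin 3) (k j : Fin 4) :
    degreeOf i (letterM s k j) ≤ 1 := by
  have hX := degreeOf_X_le i
  have h1 : degreeOf i (X 2 - X 0 * X 1 : R3) ≤ 1 :=
    (degreeOf_sub_le _ _ _).trans (max_le (hX 2) (degreeOf_XX i))
  have h2 : degreeOf i (X 0 * X 1 - X 2 : R3) ≤ 1 :=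
    (degreeOf_sub_le _ _ _).trans (max_le (degreeOf_XX i) (hX 2))
  obtain ⟨t, b⟩ := s
  fin_cases t <;> cases b <;> fin_cases k <;> fin_cases j <;>
    simp [letterM, LA, LA', LB, LB', hX, h1, h2]

lemma degreeOf_word (w : List (Fin 2 × Bool)) (i : Fin 3) (k j : Fin 4) :
    degreeOf i (wordM w k j) ≤ w.length := by
  induction w generalizing k j with
  | nil =>
    rw [wordM_nil, Matrix.one_apply]
    split_ifs <;> simp
  | cons s w ih =>
    rw [wordM_cons, Matrix.mul_apply]
    apply degreeOf_sum_le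
    intro l _
    refine (degreeOf_mul_le _ _ _).trans ?_
    have := degreeOf_letter s i k l
    have := ih l j
    simp only [List.length_cons]
    omega

lemma degreeOf_colP (w : List (Fin 2 × Bool)) (i : Fin 3) (k : Fin 4) :
    degreeOf i (colP w k) ≤ w.length := degreeOf_word w i k 0

lemma degreeOf_rowP (w : List (Fin 2 × Bool)) (i : Fin 3) (j : Fin 4) :
    degreeOf i (rowP w j) ≤ w.length + 1 := by
  unfold rowP
  apply degreeOf_sum_le
  intro k _
  refine (degreeOf_mul_le _ _ _).trans ?_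
  have h1 : degreeOf i (tauV k) ≤ 1 := by
    have h2 : degreeOf i (2 : R3) ≤ 1 := by
      have : (2 : R3) = C 2 := by simp
      rw [this, degreeOf_C]; simp
    fin_cases k <;> simp [tauV, degreeOf_X_le, h2]
  have := degreeOf_word w i k j
  omega

lemma degreeOf_trP (w : List (Fin 2 × Bool)) (i : Fin 3) :
    degreeOf i (trP w) ≤ w.length + 1 := degreeOf_rowP w i 0

/-- number of monomials -/
lemma card_support_le (p : R3) (N : ℕ) (h : ∀ i, degreeOf i p ≤ N) :
    p.support.card ≤ (N + 1) ^ 3 := by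
  classical
  have h1 : ∀ m ∈ p.support, ∀ i, m i < N + 1 := by
    intro m hm i
    exact Nat.lt_succ_of_le ((le_degreeOf_of_mem_support i hm).trans (h i))
  have : p.support.card ≤ Fintype.card (Fin 3 → Fin (N + 1)) := by
    rw [← Fintype.card_coe]
    refine Fintype.card_le_of_injective
      (fun m : p.support => fun i : Fin 3 => (⟨m.1 i, h1 m.1 m.2 i⟩ : Fin (N + 1))) ?_
    intro m m' hmm
    apply Subtype.ext
    ext i
    have := congrFun hmm i
    simpa using this
  simpa using this

lemma l1_trP_le_height (w : List (Fin 2 × Bool)) :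
    l1 (trP w) ≤ ((w.length + 2 : ℕ) : ℝ) ^ 3 * height (trP w) := by
  refine (l1_le_card_mul_height _).trans ?_
  apply mul_le_mul_of_nonneg_right _ (height_nonneg _)
  exact_mod_cast card_support_le (trP w) (w.length + 1) (fun i => degreeOf_trP w i)

/-! The matrix of a word is determined by its coordinates -/

lemma isRep_M4 : IsRep (RingHom.id R3) uA uB where
  hA := by
    rw [Algebra.algebraMap_eq_smul_one]
    apply Matrix.ext
    intro i j
    fin_cases i <;> fin_cases j <;> simp [uA, LA, LA']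
  hB := by
    rw [Algebra.algebraMap_eq_smul_one]
    apply Matrix.ext
    intro i j
    fin_cases i <;> fin_cases j <;> simp [uB, LB, LB']
  hAB := by
    rw [Algebra.algebraMap_eq_smul_one, _root_.mul_inv_rev, Units.val_mul]
    apply Matrix.ext
    intro i j
    fin_cases i <;> fin_cases j <;>
      simp [uA, uB, LA, LA', LB, LB', Matrix.mul_apply, Fin.sum_univ_four] <;> ring

lemma wordM_eq_sum (w : List (Fin 2 × Bool)) :
    wordM w = ∑ i, colP w i • (basE uA uB i : M4) := by
  have := isRep_M4.word w 0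
  have h2 : (basE uA uB 0 : M4) = 1 := rfl
  rw [h2, mul_one] at this
  exact this

lemma nrm_basE_le (i : Fin 4) : nrm (basE uA uB i : M4) ≤ 484 := by
  have hA : nrm ((uA : M4ˣ) : M4) ≤ 11 := by
    have := nrm_letter_le ((0 : Fin 2), true)
    simpa [letterM, uA] using this
  have hB : nrm ((uB : M4ˣ) : M4) ≤ 11 := by
    have := nrm_letter_le ((1 : Fin 2), true)
    simpa [letterM, uB] using this
  have h1 := nrm_one
  have hAB := nrm_mul_le ((uA : M4ˣ) : M4) ((uB : M4ˣ) : M4)
  have hA0 := nrm_nonneg ((uA : M4ˣ) : M4)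
  have hB0 := nrm_nonneg ((uB : M4ˣ) : M4)
  fin_cases i <;> simp [basE]
  · linarith
  · linarith
  · linarith
  · nlinarith

lemma nrm_le_col (w : List (Fin 2 × Bool)) : nrm (wordM w) ≤ 484 * ∑ i, l1 (colP w i) := by
  rw [wordM_eq_sum]
  have : ∀ (s : Finset (Fin 4)), nrm (∑ i ∈ s, colP w i • (basE uA uB i : M4)) ≤
      484 * ∑ i ∈ s, l1 (colP w i) := by
    intro s
    classical
    induction s using Finset.induction_on with
    | empty => simp [nrm]
    | insert a s ha ih =>
      rw [Finset.sum_insert ha, Finset.sum_insert ha]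
      refine (nrm_add_le _ _).trans ?_
      have h1 := (nrm_smul_le (colP w a) (basE uA uB a : M4)).trans
        (mul_le_mul_of_nonneg_left (nrm_basE_le a) (l1_nonneg _))
      linarith
  exact this _

end Pool.Agent.TracePoly
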